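import Pool.Agent.Lib.MP_8312d7.Closed2

/-!
Reduction of p-integral rationals modulo `p ^ 2`, and the first order (affine) dependence
of truncated hypergeometric sums on perturbations of the parameters by multiples of `p`.
-/

open Finset

namespace Pool.Agent.Lib.MP_8312d7

set_option linter.unusedSectionVars false

variable {p : ℕ} [hp : Fact p.Prime]

lemma P_sq : ((p : ℕ) : ZMod (p ^ 2)) * (p : ZMod (p ^ 2)) = 0 := by
  rw [← Nat.cast_mul, ← pow_two]
  exact ZMod.natCast_self _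

lemma isUnit_nat {a : ℕ} (h : ¬ p ∣ a) : IsUnit ((a : ℕ) : ZMod (p ^ 2)) :=
  (ZMod.isUnit_iff_coprime a (p ^ 2)).2
    (Nat.Coprime.pow_right 2 (((Nat.Prime.coprime_iff_not_dvd hp.out).2 h).symm))

lemma isUnit_nat_iff {a : ℕ} : IsUnit ((a : ℕ) : ZMod (p ^ 2)) ↔ ¬ p ∣ a := by
  constructor
  · intro h
    rw [ZMod.isUnit_iff_coprime] at h
    have := Nat.Coprime.coprime_dvd_right (dvd_pow_self p two_ne_zero) h
    exact (Nat.Prime.coprime_iff_not_dvd hp.out).1 this.symm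
  · exact isUnit_nat

lemma isUnit_int {a : ℤ} (h : ¬ (p : ℤ) ∣ a) : IsUnit ((a : ℤ) : ZMod (p ^ 2)) := by
  have h1 : IsUnit ((a.natAbs : ℕ) : ZMod (p ^ 2)) := by
    apply isUnit_nat
    intro h2
    exact h (Int.natCast_dvd.2 h2)
  rcases Int.natAbs_eq a with h2 | h2
  · rw [h2, Int.cast_natCast]; exact h1
  · rw [h2, Int.cast_neg, Int.cast_natCast]
    exact h1.neg

/-- Reduction of a rational number modulo `p ^ 2`. -/
noncomputable def phi (p : ℕ) (r : ℚ) : ZMod (p ^ 2) :=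
  (r.num : ZMod (p ^ 2)) * ((r.den : ℕ) : ZMod (p ^ 2))⁻¹

/-- `p`-integrality. -/
def Pint (p : ℕ) (r : ℚ) : Prop := ¬ p ∣ r.den

lemma unit_mul_inv {x : ZMod (p ^ 2)} (h : IsUnit x) : x * x⁻¹ = 1 :=
  ZMod.mul_inv_of_unit x h

lemma phi_mul_den {r : ℚ} (hr : Pint p r) :
    phi p r * ((r.den : ℕ) : ZMod (p ^ 2)) = (r.num : ZMod (p ^ 2)) := by
  unfold phi
  have := unit_mul_inv (isUnit_nat (p := p) hr)
  linear_combination (r.num : ZMod (p ^ 2)) * this

lemma phi_frac {r : ℚ} {N : ℤ} {D : ℕ} (hD : ¬ p ∣ D) (h : r * D = N) :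
    Pint p r ∧ phi p r * (D : ZMod (p ^ 2)) = (N : ZMod (p ^ 2)) := by
  have hD0 : (D : ℚ) ≠ 0 := by
    intro h0
    apply hD
    have : D = 0 := by exact_mod_cast h0
    rw [this]; exact dvd_zero _
  have hr : r = (N : ℚ) / ((D : ℤ) : ℚ) := by
    push_cast
    rw [eq_div_iff hD0, h]
  have hden : (r.den : ℤ) ∣ (D : ℤ) := by
    rw [hr, ← Rat.divInt_eq_div]
    exact Rat.den_dvd N D
  have hden' : r.den ∣ D := by exact_mod_cast hden
  have hP : Pint p r := fun h1 => hD (h1.trans hden')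
  refine ⟨hP, ?_⟩
  have e : r.num * (D : ℤ) = N * (r.den : ℤ) := by
    have h1 : (r.num : ℚ) = r * r.den := (Rat.mul_den_eq_num r).symm
    have h2 : ((r.num * (D : ℤ) : ℤ) : ℚ) = ((N * (r.den : ℤ) : ℤ) : ℚ) := by
      push_cast
      rw [h1, ← h]; ring
    exact_mod_cast h2
  have e' : (r.num : ZMod (p ^ 2)) * (D : ZMod (p ^ 2)) = (N : ZMod (p ^ 2)) * ((r.den : ℕ) : ZMod (p ^ 2)) := by
    have := congrArg (fun z : ℤ => (z : ZMod (p ^ 2))) e
    push_cast at this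
    exact this
  have hu := isUnit_nat (p := p) hP
  have h3 := phi_mul_den (p := p) hP
  apply hu.mul_right_cancel
  linear_combination (D : ZMod (p ^ 2)) * h3 + e'

lemma phi_unique {r : ℚ} {x : ZMod (p ^ 2)} {N : ℤ} {D : ℕ} (hD : ¬ p ∣ D) (h : r * D = N)
    (hx : x * (D : ZMod (p ^ 2)) = (N : ZMod (p ^ 2))) : phi p r = x := by
  have h1 := (phi_frac (p := p) hD h).2
  exact (isUnit_nat (p := p) hD).mul_right_cancel (h1.trans hx.symm)

lemma Pint_add {r s : ℚ} (hr : Pint p r) (hs : Pint p s) :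
    Pint p (r + s) ∧ phi p (r + s) = phi p r + phi p s := by
  have hD : ¬ p ∣ r.den * s.den := by
    intro h
    rcases (Nat.Prime.dvd_mul hp.out).1 h with h | h
    · exact hr h
    · exact hs h
  have e : (r + s) * ((r.den * s.den : ℕ) : ℚ) = ((r.num * s.den + s.num * r.den : ℤ) : ℚ) := by
    push_cast
    have h1 := Rat.mul_den_eq_num r
    have h2 := Rat.mul_den_eq_num s
    linear_combination (s.den : ℚ) * h1 + (r.den : ℚ) * h2
  refine ⟨(phi_frac (p := p) hD e).1, ?_⟩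
  apply phi_unique hD e
  have h1 := phi_mul_den (p := p) hr
  have h2 := phi_mul_den (p := p) hs
  push_cast
  linear_combination ((s.den : ℕ) : ZMod (p ^ 2)) * h1 + ((r.den : ℕ) : ZMod (p ^ 2)) * h2

lemma Pint_mul {r s : ℚ} (hr : Pint p r) (hs : Pint p s) :
    Pint p (r * s) ∧ phi p (r * s) = phi p r * phi p s := by
  have hD : ¬ p ∣ r.den * s.den := by
    intro h
    rcases (Nat.Prime.dvd_mul hp.out).1 h with h | h
    · exact hr h
    · exact hs h
  have e : (r * s) * ((r.den * s.den : ℕ) : ℚ) = ((r.num * s.num : ℤ) : ℚ) := by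
    push_cast
    rw [← Rat.mul_den_eq_num r, ← Rat.mul_den_eq_num s]
    ring
  refine ⟨(phi_frac (p := p) hD e).1, ?_⟩
  apply phi_unique hD e
  push_cast
  rw [← phi_mul_den (p := p) hr, ← phi_mul_den (p := p) hs]
  ring

lemma Pint_int (n : ℤ) : Pint p (n : ℚ) ∧ phi p (n : ℚ) = (n : ZMod (p ^ 2)) := by
  have h1 : ¬ p ∣ 1 := hp.out.one_lt.ne' ∘ Nat.dvd_one.1
  have e : (n : ℚ) * ((1 : ℕ) : ℚ) = (n : ℚ) := by push_cast; ring
  exact ⟨(phi_frac (p := p) h1 e).1, phi_unique h1 e (by push_cast; ring)⟩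

lemma Pint_nat (n : ℕ) : Pint p (n : ℚ) ∧ phi p (n : ℚ) = (n : ZMod (p ^ 2)) := by
  have := Pint_int (p := p) (n : ℤ)
  push_cast at this
  exact this

lemma Pint_zero : Pint p (0 : ℚ) ∧ phi p (0 : ℚ) = 0 := by
  have := Pint_nat (p := p) 0
  push_cast at this
  exact this

lemma Pint_one : Pint p (1 : ℚ) ∧ phi p (1 : ℚ) = 1 := by
  have := Pint_nat (p := p) 1
  push_cast at this
  exact this

lemma Pint_neg {r : ℚ} (hr : Pint p r) : Pint p (-r) ∧ phi p (-r) = - phi p r := by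
  have h1 := Pint_int (p := p) (-1)
  have h2 := Pint_mul (p := p) h1.1 hr
  push_cast at h1 h2
  rw [show -r = -1 * r by ring]
  refine ⟨h2.1, ?_⟩
  rw [h2.2, h1.2]; ring

lemma Pint_sub {r s : ℚ} (hr : Pint p r) (hs : Pint p s) :
    Pint p (r - s) ∧ phi p (r - s) = phi p r - phi p s := by
  have h1 := Pint_neg (p := p) hs
  have h2 := Pint_add (p := p) hr h1.1
  rw [sub_eq_add_neg, sub_eq_add_neg, ← h1.2]
  exact h2

lemma Pint_sum {ι : Type*} (s : Finset ι) (f : ι → ℚ) (h : ∀ i ∈ s, Pint p (f i)) :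
    Pint p (∑ i ∈ s, f i) ∧ phi p (∑ i ∈ s, f i) = ∑ i ∈ s, phi p (f i) := by
  classical
  induction s using Finset.induction_on with
  | empty => simpa using Pint_zero (p := p)
  | insert a s ha ih =>
    have ih := ih (fun i hi => h i (mem_insert_of_mem hi))
    have h1 := Pint_add (p := p) (h a (mem_insert_self _ _)) ih.1
    rw [sum_insert ha, sum_insert ha, ← ih.2]
    exact h1

lemma Pint_prod {ι : Type*} (s : Finset ι) (f : ι → ℚ) (h : ∀ i ∈ s, Pint p (f i)) :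
    Pint p (∏ i ∈ s, f i) ∧ phi p (∏ i ∈ s, f i) = ∏ i ∈ s, phi p (f i) := by
  classical
  induction s using Finset.induction_on with
  | empty => simpa using Pint_one (p := p)
  | insert a s ha ih =>
    have ih := ih (fun i hi => h i (mem_insert_of_mem hi))
    have h1 := Pint_mul (p := p) (h a (mem_insert_self _ _)) ih.1
    rw [prod_insert ha, prod_insert ha, ← ih.2]
    exact h1

lemma Pint_pow {r : ℚ} (hr : Pint p r) (k : ℕ) : Pint p (r ^ k) ∧ phi p (r ^ k) = phi p r ^ k := by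
  induction k with
  | zero => simpa using Pint_one (p := p)
  | succ k ih =>
    have h1 := Pint_mul (p := p) ih.1 hr
    rw [pow_succ r k, pow_succ (phi p r) k, ← ih.2]
    exact h1

/-- If `r` is `p`-integral with unit reduction, its inverse is `p`-integral. -/
lemma Pint_inv {r : ℚ} (hr : Pint p r) (hu : IsUnit (phi p r)) :
    Pint p r⁻¹ ∧ phi p r⁻¹ * phi p r = 1 := by
  have h1 := phi_mul_den (p := p) hr
  have h2 : IsUnit ((r.num : ℤ) : ZMod (p ^ 2)) := by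
    rw [← h1]; exact hu.mul (isUnit_nat hr)
  have h3 : ¬ p ∣ r.num.natAbs := by
    have h4 : IsUnit ((r.num.natAbs : ℕ) : ZMod (p ^ 2)) := by
      rcases Int.natAbs_eq r.num with h | h
      · rw [h, Int.cast_natCast] at h2
        exact h2
      · rw [h, Int.cast_neg, Int.cast_natCast] at h2
        have := h2.neg
        rwa [neg_neg] at this
    exact isUnit_nat_iff.1 h4
  have hr0 : r ≠ 0 := by
    intro h0
    rw [h0] at h3
    simp at h3
  have hn0 : (r.num : ℚ) ≠ 0 := by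
    exact_mod_cast (Rat.num_ne_zero.2 hr0)
  have e : r⁻¹ * ((r.num.natAbs : ℕ) : ℚ) = ((r.den * r.num.sign : ℤ) : ℚ) := by
    have h5 : ((r.num.natAbs : ℕ) : ℚ) = (r.num : ℚ) * (r.num.sign : ℚ) := by
      have : ((r.num.natAbs : ℕ) : ℤ) = r.num * r.num.sign := by
        rw [mul_comm, Int.sign_mul_self_eq_natAbs]
      rw [← Int.cast_natCast (R := ℚ) r.num.natAbs, this, Int.cast_mul]
    rw [h5]
    push_cast
    have h6 := Rat.mul_den_eq_num r
    rw [← h6]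
    field_simp
  have h7 := phi_frac (p := p) h3 e
  refine ⟨h7.1, ?_⟩
  have h8 := Pint_mul (p := p) h7.1 hr
  rw [← h8.2, inv_mul_cancel₀ hr0]
  exact (Pint_one (p := p)).2

/-- congruence modulo `p ^ 2` of `p`-integral rationals in terms of `phi` -/
lemma num_dvd_of_phi_eq {r s : ℚ} (hr : Pint p r) (hs : Pint p s) (h : phi p r = phi p s) :
    (p : ℤ) ^ 2 ∣ (r - s).num := by
  have h1 := Pint_sub (p := p) hr hs
  have h2 : phi p (r - s) = 0 := by rw [h1.2, h, sub_self]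
  have h3 := phi_mul_den (p := p) h1.1
  rw [h2, zero_mul] at h3
  have h4 := (ZMod.intCast_zmod_eq_zero_iff_dvd ((r - s).num) (p ^ 2)).1 h3.symm
  exact_mod_cast h4

/-! ### affine dependence -/

/-- first order dependence on a pair of integer parameters -/
def Aff (p : ℕ) (S : Set (ℤ × ℤ)) (f : ℤ × ℤ → ZMod (p ^ 2)) : Prop :=
  ∃ X Y Z : ZMod (p ^ 2), ∀ e ∈ S, f e = X + (p : ZMod (p ^ 2)) * ((e.1 : ZMod (p ^ 2)) * Y + (e.2 : ZMod (p ^ 2)) * Z)

lemma Aff.const (S : Set (ℤ × ℤ)) (x : ZMod (p ^ 2)) : Aff p S (fun _ => x) :=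
  ⟨x, 0, 0, fun e _ => by ring⟩

lemma Aff.add {S : Set (ℤ × ℤ)} {f g : ℤ × ℤ → ZMod (p ^ 2)} (hf : Aff p S f) (hg : Aff p S g) :
    Aff p S (fun e => f e + g e) := by
  obtain ⟨X, Y, Z, h⟩ := hf
  obtain ⟨X', Y', Z', h'⟩ := hg
  refine ⟨X + X', Y + Y', Z + Z', fun e he => ?_⟩
  simp only [h e he, h' e he]; ring

lemma Aff.mul {S : Set (ℤ × ℤ)} {f g : ℤ × ℤ → ZMod (p ^ 2)} (hf : Aff p S f) (hg : Aff p S g) :
    Aff p S (fun e => f e * g e) := by
  obtain ⟨X, Y, Z, h⟩ := hf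
  obtain ⟨X', Y', Z', h'⟩ := hg
  refine ⟨X * X', X * Y' + X' * Y, X * Z' + X' * Z, fun e he => ?_⟩
  simp only [h e he, h' e he]
  linear_combination ((e.1 : ZMod (p ^ 2)) * Y + (e.2 : ZMod (p ^ 2)) * Z) * ((e.1 : ZMod (p ^ 2)) * Y' + (e.2 : ZMod (p ^ 2)) * Z') * P_sq (p := p)

lemma Aff.sum {ι : Type*} {S : Set (ℤ × ℤ)} (s : Finset ι) (f : ι → ℤ × ℤ → ZMod (p ^ 2))
    (h : ∀ i ∈ s, Aff p S (f i)) : Aff p S (fun e => ∑ i ∈ s, f i e) := by
  classical
  induction s using Finset.induction_on with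
  | empty => simpa using Aff.const S (0 : ZMod (p ^ 2))
  | insert a s ha ih =>
    simp only [sum_insert ha]
    exact (h a (mem_insert_self _ _)).add (ih (fun i hi => h i (mem_insert_of_mem hi)))

lemma Aff.prod {ι : Type*} {S : Set (ℤ × ℤ)} (s : Finset ι) (f : ι → ℤ × ℤ → ZMod (p ^ 2))
    (h : ∀ i ∈ s, Aff p S (f i)) : Aff p S (fun e => ∏ i ∈ s, f i e) := by
  classical
  induction s using Finset.induction_on with
  | empty => simpa using Aff.const S (1 : ZMod (p ^ 2))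
  | insert a s ha ih =>
    simp only [prod_insert ha]
    exact (h a (mem_insert_self _ _)).mul (ih (fun i hi => h i (mem_insert_of_mem hi)))

lemma Aff.inv {S : Set (ℤ × ℤ)} (h0 : (0, 0) ∈ S) {f g : ℤ × ℤ → ZMod (p ^ 2)} (hf : Aff p S f)
    (hfg : ∀ e ∈ S, g e * f e = 1) : Aff p S g := by
  obtain ⟨X, Y, Z, h⟩ := hf
  have hX : g (0, 0) * X = 1 := by
    have h1 := h (0, 0) h0
    have h2 := hfg (0, 0) h0
    rw [h1] at h2
    simpa using h2
  refine ⟨g (0, 0), - g (0, 0) ^ 2 * Y, - g (0, 0) ^ 2 * Z, fun e he => ?_⟩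
  have h2 := hfg e he
  have h3 := h e he
  set G := g (0, 0) with hG
  -- both sides are inverse to f e
  have h4 : (G + (p : ZMod (p ^ 2)) * ((e.1 : ZMod (p ^ 2)) * (-G ^ 2 * Y) + (e.2 : ZMod (p ^ 2)) * (-G ^ 2 * Z))) * f e = 1 := by
    rw [h3]
    linear_combination (1 - (p : ZMod (p ^ 2)) * ((e.1 : ZMod (p ^ 2)) * Y + (e.2 : ZMod (p ^ 2)) * Z) * G) * hX -
      G ^ 2 * ((e.1 : ZMod (p ^ 2)) * Y + (e.2 : ZMod (p ^ 2)) * Z) ^ 2 * P_sq (p := p)
  linear_combination (G + (p : ZMod (p ^ 2)) * ((e.1 : ZMod (p ^ 2)) * (-G ^ 2 * Y) + (e.2 : ZMod (p ^ 2)) * (-G ^ 2 * Z))) * h2 - g e * h4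

/-- perturbed parameter -/
def pert (p : ℕ) (a0 a1 a2 : ℚ) (e : ℤ × ℤ) : ℚ := a0 + (e.1 * a1 + e.2 * a2) * p

lemma pert_aff {a0 a1 a2 : ℚ} (h0 : Pint p a0) (h1 : Pint p a1) (h2 : Pint p a2) (i : ℕ)
    (e : ℤ × ℤ) : Pint p (pert p a0 a1 a2 e + i) ∧
      phi p (pert p a0 a1 a2 e + i) = phi p a0 + i + (p : ZMod (p ^ 2)) * ((e.1 : ZMod (p ^ 2)) * phi p a1 + (e.2 : ZMod (p ^ 2)) * phi p a2) := by
  unfold pert
  have e1 := Pint_int (p := p) e.1
  have e2 := Pint_int (p := p) e.2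
  have m1 := Pint_mul e1.1 h1
  have m2 := Pint_mul e2.1 h2
  have m3 := Pint_add m1.1 m2.1
  have m4 := Pint_mul m3.1 (Pint_nat (p := p) p).1
  have m5 := Pint_add h0 m4.1
  have m6 := Pint_add m5.1 (Pint_nat (p := p) i).1
  refine ⟨m6.1, ?_⟩
  rw [m6.2, m5.2, m4.2, m3.2, m2.2, m1.2, e1.2, e2.2, (Pint_nat (p := p) p).2, (Pint_nat (p := p) i).2]
  ring

lemma pert_prod_aff {a0 a1 a2 : ℚ} (h0 : Pint p a0) (h1 : Pint p a1) (h2 : Pint p a2)
    (S : Set (ℤ × ℤ)) (k : ℕ) :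
    (∀ e, Pint p (∏ i ∈ range k, (pert p a0 a1 a2 e + i))) ∧
    Aff p S (fun e => phi p (∏ i ∈ range k, (pert p a0 a1 a2 e + i))) := by
  have h : ∀ e, Pint p (∏ i ∈ range k, (pert p a0 a1 a2 e + i)) ∧
      phi p (∏ i ∈ range k, (pert p a0 a1 a2 e + i)) =
        ∏ i ∈ range k, phi p (pert p a0 a1 a2 e + i) := fun e =>
    Pint_prod _ _ (fun i _ => (pert_aff h0 h1 h2 i e).1)
  refine ⟨fun e => (h e).1, ?_⟩
  have h' : (fun e => phi p (∏ i ∈ range k, (pert p a0 a1 a2 e + i))) =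
      fun e => ∏ i ∈ range k, phi p (pert p a0 a1 a2 e + i) := by
    funext e; exact (h e).2
  rw [h']
  apply Aff.prod
  intro i _
  exact ⟨phi p a0 + i, phi p a1, phi p a2, fun e _ => (pert_aff h0 h1 h2 i e).2⟩

theorem ht_aff {a0 a1 a2 b0 b1 b2 c1 c2 z : ℚ} (ha0 : Pint p a0) (ha1 : Pint p a1) (ha2 : Pint p a2)
    (hb0 : Pint p b0) (hb1 : Pint p b1) (hb2 : Pint p b2) (hc1 : Pint p c1) (hc2 : Pint p c2)
    (hz : Pint p z) (S : Set (ℤ × ℤ)) (h0 : (0, 0) ∈ S) :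
    (∀ e, Pint p (∑ k ∈ range p, ht (pert p a0 a1 a2 e) (pert p b0 b1 b2 e) (pert p 1 c1 c2 e) z k)) ∧
    Aff p S (fun e => phi p (∑ k ∈ range p,
      ht (pert p a0 a1 a2 e) (pert p b0 b1 b2 e) (pert p 1 c1 c2 e) z k)) := by
  have key : ∀ k ∈ range p, (∀ e, Pint p (ht (pert p a0 a1 a2 e) (pert p b0 b1 b2 e) (pert p 1 c1 c2 e) z k)) ∧
      Aff p S (fun e => phi p (ht (pert p a0 a1 a2 e) (pert p b0 b1 b2 e) (pert p 1 c1 c2 e) z k)) := by
    intro k hk
    have hk := mem_range.1 hk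
    have hA := pert_prod_aff ha0 ha1 ha2 S k
    have hB := pert_prod_aff hb0 hb1 hb2 S k
    have hC := pert_prod_aff (Pint_one (p := p)).1 hc1 hc2 S k
    have hfac : ¬ p ∣ k.factorial := by
      rw [Nat.Prime.dvd_factorial hp.out]; omega
    have hF := Pint_nat (p := p) k.factorial
    have hCu : ∀ e, IsUnit (phi p (∏ i ∈ range k, (pert p 1 c1 c2 e + i))) := by
      intro e
      rw [(Pint_prod _ _ (fun i _ => (pert_aff (Pint_one (p := p)).1 hc1 hc2 i e).1)).2]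
      rw [IsUnit.prod_iff]
      intro i hi
      have hi := mem_range.1 hi
      rw [(pert_aff (Pint_one (p := p)).1 hc1 hc2 i e).2, (Pint_one (p := p)).2]
      have hu : IsUnit ((i + 1 : ℕ) : ZMod (p ^ 2)) := by
        apply isUnit_nat
        intro h
        have := Nat.le_of_dvd (Nat.succ_pos i) h
        omega
      have hn : IsNilpotent ((p : ZMod (p ^ 2)) * ((e.1 : ZMod (p ^ 2)) * phi p c1 + (e.2 : ZMod (p ^ 2)) * phi p c2)) := by
        refine ⟨2, ?_⟩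
        linear_combination ((e.1 : ZMod (p ^ 2)) * phi p c1 + (e.2 : ZMod (p ^ 2)) * phi p c2) ^ 2 * P_sq (p := p)
      have h3 := IsNilpotent.isUnit_add_left_of_commute hn hu (Commute.all _ _)
      push_cast at h3
      rw [add_comm (1 : ZMod (p ^ 2))]
      exact h3
    have hDu : ∀ e, IsUnit (phi p ((∏ i ∈ range k, (pert p 1 c1 c2 e + i)) * (k.factorial : ℚ))) := by
      intro e
      rw [(Pint_mul (hC.1 e) hF.1).2, hF.2]
      exact (hCu e).mul (isUnit_nat hfac)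
    have hInv : ∀ e, Pint p ((∏ i ∈ range k, (pert p 1 c1 c2 e + i)) * (k.factorial : ℚ))⁻¹ ∧ _ :=
      fun e => Pint_inv (Pint_mul (hC.1 e) hF.1).1 (hDu e)
    have hD : Aff p S (fun e => phi p ((∏ i ∈ range k, (pert p 1 c1 c2 e + i)) * (k.factorial : ℚ))) := by
      have : (fun e => phi p ((∏ i ∈ range k, (pert p 1 c1 c2 e + i)) * (k.factorial : ℚ))) =
          fun e => phi p (∏ i ∈ range k, (pert p 1 c1 c2 e + i)) * (k.factorial : ZMod (p ^ 2)) := by
        funext e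
        rw [(Pint_mul (hC.1 e) hF.1).2, hF.2]
      rw [this]
      exact hC.2.mul (Aff.const S _)
    have hDi := Aff.inv h0 hD (g := fun e => phi p ((∏ i ∈ range k, (pert p 1 c1 c2 e + i)) * (k.factorial : ℚ))⁻¹)
      (fun e _ => (hInv e).2)
    have hzk := Pint_pow (p := p) hz k
    have hall : ∀ e, Pint p (ht (pert p a0 a1 a2 e) (pert p b0 b1 b2 e) (pert p 1 c1 c2 e) z k) ∧
        phi p (ht (pert p a0 a1 a2 e) (pert p b0 b1 b2 e) (pert p 1 c1 c2 e) z k) =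
        phi p (∏ i ∈ range k, (pert p a0 a1 a2 e + i)) * phi p (∏ i ∈ range k, (pert p b0 b1 b2 e + i)) *
        phi p ((∏ i ∈ range k, (pert p 1 c1 c2 e + i)) * (k.factorial : ℚ))⁻¹ * phi p z ^ k := by
      intro e
      unfold ht
      rw [div_eq_mul_inv]
      have m1 := Pint_mul (hA.1 e) (hB.1 e)
      have m2 := Pint_mul m1.1 (hInv e).1
      have m3 := Pint_mul m2.1 hzk.1
      refine ⟨m3.1, ?_⟩
      rw [m3.2, m2.2, m1.2, hzk.2]
    refine ⟨fun e => (hall e).1, ?_⟩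
    have hfun : (fun e => phi p (ht (pert p a0 a1 a2 e) (pert p b0 b1 b2 e) (pert p 1 c1 c2 e) z k)) =
        fun e => phi p (∏ i ∈ range k, (pert p a0 a1 a2 e + i)) * phi p (∏ i ∈ range k, (pert p b0 b1 b2 e + i)) *
        phi p ((∏ i ∈ range k, (pert p 1 c1 c2 e + i)) * (k.factorial : ℚ))⁻¹ * phi p z ^ k := by
      funext e; exact (hall e).2
    rw [hfun]
    exact ((hA.2.mul hB.2).mul hDi).mul (Aff.const S _)
  have hs : ∀ e, _ := fun e => Pint_sum (p := p) (range p)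
    (fun k => ht (pert p a0 a1 a2 e) (pert p b0 b1 b2 e) (pert p 1 c1 c2 e) z k)
    (fun k hk => (key k hk).1 e)
  refine ⟨fun e => (hs e).1, ?_⟩
  have hfun : (fun e => phi p (∑ k ∈ range p,
      ht (pert p a0 a1 a2 e) (pert p b0 b1 b2 e) (pert p 1 c1 c2 e) z k)) =
      fun e => ∑ k ∈ range p, phi p (ht (pert p a0 a1 a2 e) (pert p b0 b1 b2 e) (pert p 1 c1 c2 e) z k) := by
    funext e; exact (hs e).2
  rw [hfun]
  exact Aff.sum _ _ (fun k hk => (key k hk).2)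

end Pool.Agent.Lib.MP_8312d7
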