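import Mathlib

/-!
Closed forms of terminating hypergeometric sums with rational parameters,
proved by creative telescoping.
-/

open Finset

namespace Pool.Agent.Lib.MP_8312d7

/-- The `k`-th term of the hypergeometric series with parameters `a, b; c` and argument `z`. -/
def ht (a b c z : ℚ) (k : ℕ) : ℚ :=
  (∏ i ∈ range k, (a + i)) * (∏ i ∈ range k, (b + i)) /
    ((∏ i ∈ range k, (c + i)) * (k.factorial : ℚ)) * z ^ k

lemma ht_zero (a b c z : ℚ) : ht a b c z 0 = 1 := by simp [ht]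

lemma ht_succ (a b c z : ℚ) (k : ℕ) :
    ht a b c z (k + 1) = ht a b c z k * ((a + k) * (b + k) * z * ((c + k)⁻¹ * ((k : ℚ) + 1)⁻¹)) := by
  unfold ht
  rw [prod_range_succ, prod_range_succ, prod_range_succ, Nat.factorial_succ]
  push_cast
  rw [div_eq_mul_inv, div_eq_mul_inv, mul_inv, mul_inv, mul_inv, mul_inv, pow_succ]
  ring

lemma ht_eq_zero_left (n : ℕ) (b c z : ℚ) (k : ℕ) (hk : n < k) : ht (-(n : ℚ)) b c z k = 0 := by
  unfold ht
  rw [prod_eq_zero (i := n) (mem_range.2 hk) (by ring)]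
  simp

lemma ht_eq_zero_right (n : ℕ) (a c z : ℚ) (k : ℕ) (hk : n < k) : ht a (-(n : ℚ)) c z k = 0 := by
  unfold ht
  rw [mul_comm (∏ i ∈ range k, (a + i))]
  rw [prod_eq_zero (i := n) (mem_range.2 hk) (by ring)]
  simp

/-- General telescoping. -/
lemma sum_tele (f G : ℕ → ℚ) (N : ℕ) (h : ∀ k < N, f k = G (k + 1) - G k) :
    ∑ k ∈ range N, f k = G N - G 0 := by
  rw [sum_congr rfl (fun k hk => h k (mem_range.1 hk)), sum_range_sub]

/-! ### Family U -/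

def tU (n : ℕ) (k : ℕ) : ℚ := ht (-(n : ℚ)) ((1 - 2 * n) / 3) ((5 - 4 * n) / 6) (1 / 4) k

lemma cU_ne (n k : ℕ) : ((5 - 4 * n) / 6 + k : ℚ) ≠ 0 := by
  intro h
  have h1 : (5 - 4 * n + 6 * k : ℚ) = 0 := by linarith
  have h2 : (5 - 4 * n + 6 * k : ℤ) = 0 := by exact_mod_cast h1
  omega

lemma tU_rel (n k : ℕ) :
    tU n k * (((n : ℚ) + 3) * (n + 2) * (n + 1) * ((-5 - 2 * n) / 3 * ((-2 - 2 * n) / 3)) *
      (((-7 - 4 * n) / 6 + k) * ((-1 - 4 * n) / 6 + k))) =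
    tU (n + 3) k * (((n : ℚ) + 3 - k) * (n + 2 - k) * (n + 1 - k) *
      (((-5 - 2 * n) / 3 + k) * ((-2 - 2 * n) / 3 + k)) *
      ((-7 - 4 * n) / 6 * ((-1 - 4 * n) / 6))) := by
  have hc1 : ∀ k : ℕ, ((-7 - 4 * n) / 6 + k : ℚ) ≠ 0 := by
    intro k
    have := cU_ne (n + 3) k
    push_cast at this
    intro h
    apply this
    linarith
  have hc2 : ∀ k : ℕ, ((-1 - 4 * n) / 6 + k : ℚ) ≠ 0 := by
    intro k h
    have h1 : (-1 - 4 * n + 6 * k : ℚ) = 0 := by linarith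
    have h2 : (-1 - 4 * n + 6 * k : ℤ) = 0 := by exact_mod_cast h1
    omega
  induction k with
  | zero =>
    simp only [tU, ht_zero, Nat.cast_zero]
    ring
  | succ k ih =>
    have e0 : tU n (k + 1) = tU n k * ((-(n : ℚ) + k) * ((1 - 2 * n) / 3 + k) * (1 / 4) *
        (((5 - 4 * (n : ℚ)) / 6 + (k : ℚ))⁻¹ * ((k : ℚ) + 1)⁻¹)) := by
      unfold tU; rw [ht_succ]
    have e1 : tU (n + 3) (k + 1) = tU (n + 3) k * ((-((n : ℚ) + 3) + k) * ((-5 - 2 * n) / 3 + k)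
        * (1 / 4) * (((-7 - 4 * (n : ℚ)) / 6 + (k : ℚ))⁻¹ * ((k : ℚ) + 1)⁻¹)) := by
      unfold tU; rw [ht_succ]; push_cast
      rw [show (1 - 2 * ((n : ℚ) + 3)) / 3 = (-5 - 2 * n) / 3 by ring,
        show (5 - 4 * ((n : ℚ) + 3)) / 6 = (-7 - 4 * n) / 6 by ring]
    have hk : ((k : ℚ) + 1) ≠ 0 := by positivity
    have a1 := hc1 k
    have a2 := hc2 k
    have a3 := hc1 (k + 1)
    have a4 := hc2 (k + 1)
    have a5 := cU_ne n k
    rw [e0, e1]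
    push_cast
    push_cast at a3 a4
    have a6 : ((-7 - 4 * n) / 6 + (k + 1) : ℚ) = ((-1 - 4 * n) / 6 + k) := by ring
    have a7 : ((-1 - 4 * n) / 6 + (k + 1) : ℚ) = ((5 - 4 * n) / 6 + k) := by ring
    rw [a6, a7]
    have i1 := mul_inv_cancel₀ a1
    have i3 := mul_inv_cancel₀ a5
    linear_combination ((-(n : ℚ) + k) * ((1 - 2 * n) / 3 + k) * (1 / 4) * ((k : ℚ) + 1)⁻¹ *
        ((-7 - 4 * (n : ℚ)) / 6 + (k : ℚ))⁻¹) * ih +
      (tU n k * ((-(n : ℚ) + k) * ((1 - 2 * n) / 3 + k) * (1 / 4) * ((k : ℚ) + 1)⁻¹) *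
        (((n : ℚ) + 3) * (n + 2) * (n + 1) * ((-5 - 2 * n) / 3 * ((-2 - 2 * n) / 3))) *
        ((-1 - 4 * n) / 6 + k)) * (i3 - i1)

/-- the polynomial of the telescoping certificate for family U -/
def qU (n k : ℚ) : ℚ :=
  ((2114 / 3 + 8643 / 2 * n + 43109 / 6 * n ^ 2 + 15275 / 3 * n ^ 3 + 1640 * n ^ 4 + 592 / 3 * n ^ 5)
  + (-1883 / 2 - 10365 / 2 * n - 12735 / 2 * n ^ 2 - 2920 * n ^ 3 - 456 * n ^ 4) * k
  + (273 + 1374 * n + 1200 * n ^ 2 + 288 * n ^ 3) * k ^ 2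
  + (-63 / 2 - 144 * n - 72 * n ^ 2) * k ^ 3) / ((n + 3) * (n + 2) * (2 * n + 5))

lemma tU_wz (n k : ℕ) :
    4 * (4 * n + 1) * (4 * n + 7) * tU (n + 3) k - 27 * ((n : ℚ) + 1) ^ 2 * tU n k =
    tU (n + 3) (k + 1) * ((k + 1 : ℕ) : ℚ) * qU n ((k + 1 : ℕ) : ℚ) / ((-7 - 4 * n) / 6 + ((k + 1 : ℕ) : ℚ)) -
      tU (n + 3) k * k * qU n k / ((-7 - 4 * n) / 6 + k) := by
  have hc1 : ∀ k : ℕ, ((-7 - 4 * n) / 6 + k : ℚ) ≠ 0 := by
    intro k
    have := cU_ne (n + 3) k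
    push_cast at this
    intro h
    apply this
    linarith
  have hc2 : ∀ k : ℕ, ((-1 - 4 * n) / 6 + k : ℚ) ≠ 0 := by
    intro k h
    have h1 : (-1 - 4 * n + 6 * k : ℚ) = 0 := by linarith
    have h2 : (-1 - 4 * n + 6 * k : ℤ) = 0 := by exact_mod_cast h1
    omega
  have e1 : tU (n + 3) (k + 1) = tU (n + 3) k * ((-((n : ℚ) + 3) + k) * ((-5 - 2 * n) / 3 + k)
        * (1 / 4) * (((-7 - 4 * (n : ℚ)) / 6 + (k : ℚ))⁻¹ * ((k : ℚ) + 1)⁻¹)) := by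
      unfold tU; rw [ht_succ]; push_cast
      rw [show (1 - 2 * ((n : ℚ) + 3)) / 3 = (-5 - 2 * n) / 3 by ring,
        show (5 - 4 * ((n : ℚ) + 3)) / 6 = (-7 - 4 * n) / 6 by ring]
  have hrel := tU_rel n k
  have hk : ((k : ℚ) + 1) ≠ 0 := by positivity
  have a1 := hc1 k
  have a2 := hc2 k
  have b1 : ((n : ℚ) + 3) ≠ 0 := by positivity
  have b2 : ((n : ℚ) + 2) ≠ 0 := by positivity
  have b3 : ((n : ℚ) + 1) ≠ 0 := by positivity
  have b4 : (2 * (n : ℚ) + 5) ≠ 0 := by positivity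
  have b5 : ((-5 - 2 * n) / 3 : ℚ) ≠ 0 := by
    intro h; apply b4; linarith
  have b6 : ((-2 - 2 * n) / 3 : ℚ) ≠ 0 := by
    intro h; apply b3; linarith
  have ht : tU n k = tU (n + 3) k * (((n : ℚ) + 3 - k) * (n + 2 - k) * (n + 1 - k) *
      (((-5 - 2 * n) / 3 + k) * ((-2 - 2 * n) / 3 + k)) *
      ((-7 - 4 * n) / 6 * ((-1 - 4 * n) / 6))) / (((n : ℚ) + 3) * (n + 2) * (n + 1) * ((-5 - 2 * n) / 3 * ((-2 - 2 * n) / 3)) *
      (((-7 - 4 * n) / 6 + k) * ((-1 - 4 * n) / 6 + k))) := by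
    rw [eq_div_iff]
    · exact hrel
    · simp only [ne_eq, mul_eq_zero, not_or]
      exact ⟨⟨⟨⟨b1, b2⟩, b3⟩, b5, b6⟩, a1, a2⟩
  rw [e1, ht]
  push_cast
  have a6 : ((-7 - 4 * n) / 6 + (k + 1) : ℚ) = ((-1 - 4 * n) / 6 + k) := by ring
  rw [a6]
  unfold qU
  have d1 : (-5 - 2 * n : ℚ) = -(2 * n + 5) := by ring
  have d2 : (-2 - 2 * n : ℚ) = -2 * (n + 1) := by ring
  rw [d1, d2]
  generalize tU (n + 3) k = T
  have a1' : (-7 - 4 * n + 6 * k : ℚ) ≠ 0 := by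
    intro h; apply a1; linarith
  have a2' : (-1 - 4 * n + 6 * k : ℚ) ≠ 0 := by
    intro h; apply a2; linarith
  have r1 : ((-7 - 4 * n) / 6 + k : ℚ) = (-7 - 4 * n + 6 * k) / 6 := by ring
  have r2 : ((-1 - 4 * n) / 6 + k : ℚ) = (-1 - 4 * n + 6 * k) / 6 := by ring
  rw [r1, r2]
  generalize hX : (-7 - 4 * n + 6 * k : ℚ) = X at *
  generalize hY : (-1 - 4 * n + 6 * k : ℚ) = Y at *
  field_simp
  subst hX
  subst hY
  ring

lemma tU_rec (n N : ℕ) (hN : n + 3 < N) :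
    4 * (4 * n + 1) * (4 * n + 7) * (∑ k ∈ range N, tU (n + 3) k) =
      27 * ((n : ℚ) + 1) ^ 2 * ∑ k ∈ range N, tU n k := by
  have h := sum_tele (fun k => 4 * (4 * n + 1) * (4 * n + 7) * tU (n + 3) k -
      27 * ((n : ℚ) + 1) ^ 2 * tU n k)
    (fun k => tU (n + 3) k * k * qU n k / ((-7 - 4 * n) / 6 + k)) N (fun k _ => tU_wz n k)
  rw [sum_sub_distrib, ← mul_sum, ← mul_sum] at h
  have h0 : tU (n + 3) N = 0 := by
    unfold tU
    exact ht_eq_zero_left (n + 3) _ _ _ N hN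
  simp only [h0, Nat.cast_zero, mul_zero, zero_mul, zero_div, sub_zero] at h
  linarith

theorem U_zero (j N : ℕ) (hN : 3 * j < N) :
    ∑ k ∈ range N, tU (3 * j) k =
      ∏ i ∈ range j, (27 * (3 * (i : ℚ) + 1) ^ 2 / (4 * (12 * i + 1) * (12 * i + 7))) := by
  induction j with
  | zero =>
    simp only [Nat.mul_zero, range_zero, prod_empty]
    rw [sum_eq_single_of_mem 0 (mem_range.2 (by omega))]
    · simp [tU, ht_zero]
    · intro b _ hb
      unfold tU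
      exact ht_eq_zero_left 0 _ _ _ b (Nat.pos_of_ne_zero hb)
  | succ j ih =>
    have h := tU_rec (3 * j) N (by omega)
    rw [ih (by omega)] at h
    rw [prod_range_succ, show 3 * (j + 1) = 3 * j + 3 by ring]
    push_cast at h
    rw [eq_comm, ← mul_div_assoc, div_eq_iff (by positivity)]
    linarith

theorem U_one (j N : ℕ) (hN : 3 * j + 1 < N) :
    ∑ k ∈ range N, tU (3 * j + 1) k =
      3 / 2 * ∏ i ∈ range j, (27 * (3 * (i : ℚ) + 2) ^ 2 / (4 * (12 * i + 5) * (12 * i + 11))) := by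
  induction j with
  | zero =>
    simp only [Nat.mul_zero, range_zero, prod_empty]
    obtain ⟨N, rfl⟩ : ∃ M, N = M + 2 := ⟨N - 2, by omega⟩
    rw [← sum_range_add_sum_Ico _ (show 2 ≤ N + 2 by omega)]
    have h2 : ∑ k ∈ Ico 2 (N + 2), tU (0 + 1) k = 0 := by
      apply sum_eq_zero
      intro k hk
      unfold tU
      exact ht_eq_zero_left 1 _ _ _ k (by have := (mem_Ico.1 hk).1; omega)
    rw [h2, sum_range_succ, sum_range_succ, sum_range_zero]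
    have e1 : tU (0 + 1) 1 = 1 / 2 := by
      simp [tU, ht]; norm_num
    rw [e1]
    simp [tU, ht_zero]
    norm_num
  | succ j ih =>
    have h := tU_rec (3 * j + 1) N (by omega)
    rw [ih (by omega)] at h
    rw [prod_range_succ, show 3 * (j + 1) + 1 = 3 * j + 1 + 3 by ring]
    push_cast at h
    rw [← mul_assoc, ← mul_div_assoc, eq_div_iff (by positivity)]
    linarith

end Pool.Agent.Lib.MP_8312d7
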