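import Pool.Agent.Lib.MP_8312d7.Closed

/-!
Closed forms of terminating hypergeometric sums with rational parameters,
proved by creative telescoping (second file: families V, A, B).
-/

open Finset

namespace Pool.Agent.Lib.MP_8312d7

/-! ### Family V -/

def tV (m : ℕ) (k : ℕ) : ℚ := ht (-(m : ℚ)) (-(3 * m + 1) / 2) (1 / 2 - m) (1 / 4) k

lemma half_ne (m k : ℤ) : (1 / 2 - m + k : ℚ) ≠ 0 := by
  intro h
  have h1 : (1 - 2 * m + 2 * k : ℚ) = 0 := by linarith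
  have h2 : (1 - 2 * m + 2 * k : ℤ) = 0 := by exact_mod_cast h1
  omega

lemma tV_e0 (m k : ℕ) : tV m (k + 1) = tV m k * ((-(m : ℚ) + k) * (-(3 * m + 1) / 2 + k) * (1 / 4) *
    ((1 / 2 - (m : ℚ) + (k : ℚ))⁻¹ * ((k : ℚ) + 1)⁻¹)) := by
  unfold tV; rw [ht_succ]

lemma tV_e1 (m k : ℕ) : tV (m + 2) (k + 1) = tV (m + 2) k *
    ((-((m : ℚ) + 2) + k) * (-(3 * m + 7) / 2 + k) * (1 / 4) *
    ((-3 / 2 - (m : ℚ) + (k : ℚ))⁻¹ * ((k : ℚ) + 1)⁻¹)) := by
  unfold tV; rw [ht_succ]; push_cast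
  rw [show -(3 * ((m : ℚ) + 2) + 1) / 2 = -(3 * m + 7) / 2 by ring,
    show (1 / 2 - ((m : ℚ) + 2)) = (-3 / 2 - m) by ring]

lemma tV_rel (m k : ℕ) :
    tV m k * (((m : ℚ) + 2) * (m + 1) * (-(3 * m + 7) / 2 * (-(3 * m + 5) / 2) * (-(3 * m + 3) / 2)) *
      ((-3 / 2 - m + k) * (-1 / 2 - m + k))) =
    tV (m + 2) k * (((m : ℚ) + 2 - k) * (m + 1 - k) *
      ((-(3 * m + 7) / 2 + k) * (-(3 * m + 5) / 2 + k) * (-(3 * m + 3) / 2 + k)) *
      ((-3 / 2 - m) * (-1 / 2 - m))) := by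
  induction k with
  | zero =>
    simp only [tV, ht_zero, Nat.cast_zero]
    ring
  | succ k ih =>
    have a1 : (-3 / 2 - m + k : ℚ) ≠ 0 := by
      have := half_ne (m + 2) k
      push_cast at this
      intro h; apply this; linarith
    have a5 : (1 / 2 - m + k : ℚ) ≠ 0 := by
      have := half_ne m k
      push_cast at this
      exact this
    have i1 := mul_inv_cancel₀ a1
    have i3 := mul_inv_cancel₀ a5
    rw [tV_e0, tV_e1]
    push_cast
    linear_combination ((-(m : ℚ) + k) * (-(3 * m + 1) / 2 + k) * (1 / 4) * ((k : ℚ) + 1)⁻¹ *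
        (-3 / 2 - (m : ℚ) + (k : ℚ))⁻¹) * ih +
      (tV m k * ((-(m : ℚ) + k) * (-(3 * m + 1) / 2 + k) * (1 / 4) * ((k : ℚ) + 1)⁻¹) *
        (((m : ℚ) + 2) * (m + 1) * (-(3 * m + 7) / 2 * (-(3 * m + 5) / 2) * (-(3 * m + 3) / 2))) *
        (-1 / 2 - m + k)) * (i3 - i1)

/-- the polynomial of the telescoping certificate for family V -/
def qV (n k : ℚ) : ℚ :=
  ((3204 + 14406 * n + 23372 * n ^ 2 + 17730 * n ^ 3 + 6400 * n ^ 4 + 888 * n ^ 5)
  + (-3270 - 12416 * n - 15242 * n ^ 2 - 7664 * n ^ 3 - 1368 * n ^ 4) * k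
  + (768 + 2480 * n + 2176 * n ^ 2 + 576 * n ^ 3) * k ^ 2
  + (-72 - 192 * n - 96 * n ^ 2) * k ^ 3) / ((n + 2) * (3 * n + 7) * (3 * n + 5))

lemma tV_wz (m k : ℕ) :
    16 * (2 * m + 1) * (2 * m + 3) * tV (m + 2) k - 27 * ((m : ℚ) + 1) ^ 2 * tV m k =
    tV (m + 2) (k + 1) * ((k + 1 : ℕ) : ℚ) * qV m ((k + 1 : ℕ) : ℚ) / (-3 / 2 - m + ((k + 1 : ℕ) : ℚ)) -
      tV (m + 2) k * k * qV m k / (-3 / 2 - m + k) := by
  have hrel := tV_rel m k
  have hk : ((k : ℚ) + 1) ≠ 0 := by positivity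
  have a1 : (-3 / 2 - m + k : ℚ) ≠ 0 := by
    have := half_ne (m + 2) k
    push_cast at this
    intro h; apply this; linarith
  have a2 : (-1 / 2 - m + k : ℚ) ≠ 0 := by
    have := half_ne (m + 1) k
    push_cast at this
    intro h; apply this; linarith
  have b1 : ((m : ℚ) + 2) ≠ 0 := by positivity
  have b2 : ((m : ℚ) + 1) ≠ 0 := by positivity
  have b3 : (3 * (m : ℚ) + 7) ≠ 0 := by positivity
  have b4 : (3 * (m : ℚ) + 5) ≠ 0 := by positivity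
  have b5 : (3 * (m : ℚ) + 3) ≠ 0 := by positivity
  have ht : tV m k = tV (m + 2) k * (((m : ℚ) + 2 - k) * (m + 1 - k) *
      ((-(3 * m + 7) / 2 + k) * (-(3 * m + 5) / 2 + k) * (-(3 * m + 3) / 2 + k)) *
      ((-3 / 2 - m) * (-1 / 2 - m))) / (((m : ℚ) + 2) * (m + 1) * (-(3 * m + 7) / 2 * (-(3 * m + 5) / 2) * (-(3 * m + 3) / 2)) *
      ((-3 / 2 - m + k) * (-1 / 2 - m + k))) := by
    rw [eq_div_iff]
    · exact hrel
    · simp only [ne_eq, mul_eq_zero, not_or, div_eq_zero_iff, neg_eq_zero]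
      exact ⟨⟨⟨b1, b2⟩, ⟨⟨⟨b3, by norm_num⟩, ⟨b4, by norm_num⟩⟩, ⟨b5, by norm_num⟩⟩⟩, a1, a2⟩
  rw [tV_e1, ht]
  push_cast
  have a6 : (-3 / 2 - m + (k + 1) : ℚ) = (-1 / 2 - m + k) := by ring
  rw [a6]
  unfold qV
  generalize tV (m + 2) k = T
  have d5 : (3 * (m : ℚ) + 3) = 3 * (m + 1) := by ring
  rw [d5]
  have a1' : (-3 - 2 * m + 2 * k : ℚ) ≠ 0 := by
    intro h; apply a1; linarith
  have a2' : (-1 - 2 * m + 2 * k : ℚ) ≠ 0 := by
    intro h; apply a2; linarith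
  have r1 : (-3 / 2 - m + k : ℚ) = (-3 - 2 * m + 2 * k) / 2 := by ring
  have r2 : (-1 / 2 - m + k : ℚ) = (-1 - 2 * m + 2 * k) / 2 := by ring
  rw [r1, r2]
  generalize hX : (-3 - 2 * m + 2 * k : ℚ) = X at *
  generalize hY : (-1 - 2 * m + 2 * k : ℚ) = Y at *
  field_simp
  subst hX
  subst hY
  ring

lemma tV_rec (m N : ℕ) (hN : m + 2 < N) :
    16 * (2 * m + 1) * (2 * m + 3) * (∑ k ∈ range N, tV (m + 2) k) =
      27 * ((m : ℚ) + 1) ^ 2 * ∑ k ∈ range N, tV m k := by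
  have h := sum_tele (fun k => 16 * (2 * m + 1) * (2 * m + 3) * tV (m + 2) k -
      27 * ((m : ℚ) + 1) ^ 2 * tV m k)
    (fun k => tV (m + 2) k * k * qV m k / (-3 / 2 - m + k)) N (fun k _ => tV_wz m k)
  rw [sum_sub_distrib, ← mul_sum, ← mul_sum] at h
  have h0 : tV (m + 2) N = 0 := by
    unfold tV
    exact ht_eq_zero_left (m + 2) _ _ _ N hN
  simp only [h0, Nat.cast_zero, mul_zero, zero_mul, zero_div, sub_zero] at h
  linarith

theorem V_even (n N : ℕ) (hN : 2 * n < N) :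
    ∑ k ∈ range N, tV (2 * n) k =
      ∏ i ∈ range n, (27 * (2 * (i : ℚ) + 1) ^ 2 / (16 * (4 * i + 1) * (4 * i + 3))) := by
  induction n with
  | zero =>
    simp only [Nat.mul_zero, range_zero, prod_empty]
    rw [sum_eq_single_of_mem 0 (mem_range.2 (by omega))]
    · simp [tV, ht_zero]
    · intro b _ hb
      unfold tV
      exact ht_eq_zero_left 0 _ _ _ b (Nat.pos_of_ne_zero hb)
  | succ n ih =>
    have h := tV_rec (2 * n) N (by omega)
    rw [ih (by omega)] at h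
    rw [prod_range_succ, show 2 * (n + 1) = 2 * n + 2 by ring]
    push_cast at h
    rw [eq_comm, ← mul_div_assoc, div_eq_iff (by positivity)]
    linarith

/-! ### Family A -/

def tA (n : ℕ) (k : ℕ) : ℚ := ht (-(n : ℚ)) (1 / 2) 1 2 k

lemma tA_rel (n k : ℕ) :
    tA n k * (((n : ℚ) + 2) * (n + 1)) = tA (n + 2) k * (((n : ℚ) + 2 - k) * (n + 1 - k)) := by
  induction k with
  | zero =>
    simp only [tA, ht_zero, Nat.cast_zero]
    ring
  | succ k ih =>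
    unfold tA at *
    rw [ht_succ, ht_succ]
    push_cast at *
    linear_combination ((-(n : ℚ) + k) * (1 / 2 + k) * 2 * ((1 + (k : ℚ))⁻¹ * ((k : ℚ) + 1)⁻¹)) * ih

lemma tA_wz (n k : ℕ) :
    ((n : ℚ) + 2) * tA (n + 2) k - ((n : ℚ) + 1) * tA n k =
    -(tA (n + 2) (k + 1) * ((k + 1 : ℕ) : ℚ) ^ 2 / (n + 2)) - -(tA (n + 2) k * (k : ℚ) ^ 2 / (n + 2)) := by
  have hrel := tA_rel n k
  have hk : ((k : ℚ) + 1) ≠ 0 := by positivity
  have hk' : (1 + (k : ℚ)) ≠ 0 := by positivity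
  have b1 : ((n : ℚ) + 2) ≠ 0 := by positivity
  have b2 : ((n : ℚ) + 1) ≠ 0 := by positivity
  have ht : tA n k = tA (n + 2) k * (((n : ℚ) + 2 - k) * (n + 1 - k)) / (((n : ℚ) + 2) * (n + 1)) := by
    rw [eq_div_iff (mul_ne_zero b1 b2)]
    exact hrel
  have e1 : tA (n + 2) (k + 1) = tA (n + 2) k * ((-((n : ℚ) + 2) + k) * (1 / 2 + k) * 2 *
      ((1 + (k : ℚ))⁻¹ * ((k : ℚ) + 1)⁻¹)) := by
    unfold tA; rw [ht_succ]; push_cast; rfl
  rw [e1, ht]
  push_cast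
  field_simp
  ring

lemma tA_rec (n N : ℕ) (hN : n + 2 < N) :
    ((n : ℚ) + 2) * (∑ k ∈ range N, tA (n + 2) k) = ((n : ℚ) + 1) * ∑ k ∈ range N, tA n k := by
  have h := sum_tele (fun k => ((n : ℚ) + 2) * tA (n + 2) k - ((n : ℚ) + 1) * tA n k)
    (fun k => -(tA (n + 2) k * (k : ℚ) ^ 2 / (n + 2))) N (fun k _ => tA_wz n k)
  rw [sum_sub_distrib, ← mul_sum, ← mul_sum] at h
  have h0 : tA (n + 2) N = 0 := by
    unfold tA
    exact ht_eq_zero_left (n + 2) _ _ _ N hN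
  simp only [h0, Nat.cast_zero, ne_eq, OfNat.ofNat_ne_zero, not_false_eq_true, zero_pow,
    mul_zero, zero_mul, zero_div, neg_zero, sub_zero] at h
  linarith

theorem A_even (s N : ℕ) (hN : 2 * s < N) :
    ∑ k ∈ range N, tA (2 * s) k = ∏ i ∈ range s, ((2 * (i : ℚ) + 1) / (2 * i + 2)) := by
  induction s with
  | zero =>
    simp only [Nat.mul_zero, range_zero, prod_empty]
    rw [sum_eq_single_of_mem 0 (mem_range.2 (by omega))]
    · simp [tA, ht_zero]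
    · intro b _ hb
      unfold tA
      exact ht_eq_zero_left 0 _ _ _ b (Nat.pos_of_ne_zero hb)
  | succ s ih =>
    have h := tA_rec (2 * s) N (by omega)
    rw [ih (by omega)] at h
    rw [prod_range_succ, show 2 * (s + 1) = 2 * s + 2 by ring]
    push_cast at h
    rw [eq_comm, ← mul_div_assoc, div_eq_iff (by positivity)]
    linarith

/-! ### Family B -/

def tB (a : ℚ) (m : ℕ) (k : ℕ) : ℚ := ht a (-(m : ℚ)) (-(2 * m)) 2 k

lemma tB_e1 (a : ℚ) (m k : ℕ) : tB a m (k + 1) = tB a m k *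
    ((a + k) * (-(m : ℚ) + k) * 2 * ((-(2 * (m : ℚ)) + k)⁻¹ * ((k : ℚ) + 1)⁻¹)) := by
  unfold tB; rw [ht_succ]

lemma tB_rel (a : ℚ) (m k : ℕ) (hm : 1 ≤ m) (hk : k ≤ m + 1) :
    tB a m k * ((2 * (m : ℚ) + 2 - k) * (2 * m + 1 - k)) =
      tB a (m + 1) k * (2 * (2 * m + 1) * (m + 1 - k)) := by
  induction k with
  | zero =>
    simp only [tB, ht_zero, Nat.cast_zero]
    ring
  | succ k ih =>
    have ih := ih (by omega)
    have h1 : (-(2 * (m : ℚ)) + k) ≠ 0 := by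
      intro h
      have h1 : (k : ℚ) = 2 * m := by linarith
      have h2 : k = 2 * m := by exact_mod_cast h1
      omega
    have h2 : (-(2 * ((m : ℚ) + 1)) + k) ≠ 0 := by
      intro h
      have h1 : (k : ℚ) = 2 * (m + 1) := by linarith
      have h2 : k = 2 * (m + 1) := by exact_mod_cast h1
      omega
    have i1 := mul_inv_cancel₀ h1
    have i2 := mul_inv_cancel₀ h2
    rw [tB_e1, tB_e1]
    push_cast
    -- now the step
    linear_combination ((a + k) * (m - k) * 2 * ((k : ℚ) + 1)⁻¹ * (-(2 * ((m : ℚ) + 1)) + (k : ℚ))⁻¹ * (-1)) * ih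
      + (tB a m k * ((a + k) * (m - k) * 2 * ((k : ℚ) + 1)⁻¹ * (2 * m + 1 - k))) * i1
      - (tB a m k * ((a + k) * (m - k) * 2 * ((k : ℚ) + 1)⁻¹ * (2 * m + 1 - k))) * i2

lemma tB_wz (a : ℚ) (m k : ℕ) (hm : 1 ≤ m) (hk : k ≤ m + 1) :
    (2 * (m : ℚ) + 1) * tB a (m + 1) k - (a + 2 * m + 1) * tB a m k =
    -(2 * (m : ℚ) + 1) * tB a (m + 1) (k + 1) * ((k + 1 : ℕ) : ℚ) / (2 * m + 2 - ((k + 1 : ℕ) : ℚ)) -
      -(2 * (m : ℚ) + 1) * tB a (m + 1) k * k / (2 * m + 2 - k) := by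
  have hrel := tB_rel a m k hm hk
  have hk1 : ((k : ℚ) + 1) ≠ 0 := by positivity
  have h2 : (2 * (m : ℚ) + 2 - k) ≠ 0 := by
    intro h
    have h1 : (k : ℚ) = 2 * m + 2 := by linarith
    have h2 : k = 2 * m + 2 := by exact_mod_cast h1
    omega
  have h3 : (2 * (m : ℚ) + 1 - k) ≠ 0 := by
    intro h
    have h1 : (k : ℚ) = 2 * m + 1 := by linarith
    have h2 : k = 2 * m + 1 := by exact_mod_cast h1
    omega
  have ht : tB a m k = tB a (m + 1) k * (2 * (2 * m + 1) * (m + 1 - k)) /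
      ((2 * (m : ℚ) + 2 - k) * (2 * m + 1 - k)) := by
    rw [eq_div_iff (mul_ne_zero h2 h3)]
    exact hrel
  rw [tB_e1, ht]
  push_cast
  have r1 : (-(2 * ((m : ℚ) + 1)) + k)  = -(2 * (m : ℚ) + 2 - k) := by ring
  have r2 : (2 * (m : ℚ) + 2 - (k + 1))  = (2 * (m : ℚ) + 1 - k) := by ring
  rw [r1, r2]
  generalize tB a (m + 1) k = T
  generalize hX : (2 * (m : ℚ) + 2 - k) = X at *
  generalize hY : (2 * (m : ℚ) + 1 - k) = Y at *
  field_simp
  subst hX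
  subst hY
  ring

lemma tB_rec (a : ℚ) (m N : ℕ) (hm : 1 ≤ m) (hN : m + 1 < N) :
    (2 * (m : ℚ) + 1) * (∑ k ∈ range N, tB a (m + 1) k) =
      (a + 2 * m + 1) * ∑ k ∈ range N, tB a m k := by
  have hred : ∀ M : ℕ, m + 1 < M → ∀ m' : ℕ, m' ≤ m + 1 →
      ∑ k ∈ range M, tB a m' k = ∑ k ∈ range (m + 2), tB a m' k := by
    intro M hM m' hm'
    rw [← sum_range_add_sum_Ico _ (show m + 2 ≤ M by omega)]
    have : ∑ k ∈ Ico (m + 2) M, tB a m' k = 0 := by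
      apply sum_eq_zero
      intro k hk
      unfold tB
      exact ht_eq_zero_right m' _ _ _ k (by have := (mem_Ico.1 hk).1; omega)
    rw [this, add_zero]
  rw [hred N hN (m + 1) le_rfl, hred N hN m (by omega)]
  have h := sum_tele (fun k => (2 * (m : ℚ) + 1) * tB a (m + 1) k - (a + 2 * m + 1) * tB a m k)
    (fun k => -(2 * (m : ℚ) + 1) * tB a (m + 1) k * (k : ℚ) / (2 * m + 2 - (k : ℚ))) (m + 2)
    (fun k hk => tB_wz a m k hm (by omega))
  rw [sum_sub_distrib, ← mul_sum, ← mul_sum] at h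
  have h0 : tB a (m + 1) (m + 2) = 0 := by
    unfold tB
    exact ht_eq_zero_right (m + 1) _ _ _ _ (by omega)
  simp only [h0, Nat.cast_zero, mul_zero, zero_mul, zero_div, sub_zero] at h
  linarith

theorem B_closed (a : ℚ) (m N : ℕ) (hm : 1 ≤ m) (hN : m < N) :
    ∑ k ∈ range N, tB a m k = ∏ i ∈ range m, ((a + 1 + 2 * (i : ℚ)) / (2 * i + 1)) := by
  induction m, hm using Nat.le_induction with
  | base =>
    obtain ⟨N, rfl⟩ : ∃ M, N = M + 2 := ⟨N - 2, by omega⟩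
    rw [← sum_range_add_sum_Ico _ (show 2 ≤ N + 2 by omega)]
    have h2 : ∑ k ∈ Ico 2 (N + 2), tB a 1 k = 0 := by
      apply sum_eq_zero
      intro k hk
      unfold tB
      exact ht_eq_zero_right 1 _ _ _ k (by have := (mem_Ico.1 hk).1; omega)
    rw [h2, sum_range_succ, sum_range_succ, sum_range_zero]
    have e1 : tB a 1 1 = a := by
      simp [tB, ht]
    rw [e1]
    simp [tB, ht_zero]
    ring
  | succ m hm ih =>
    have h := tB_rec a m N hm (by omega)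
    rw [ih (by omega)] at h
    rw [prod_range_succ]
    rw [eq_comm, ← mul_div_assoc, div_eq_iff (by positivity)]
    linarith

end Pool.Agent.Lib.MP_8312d7
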