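import Pool.Agent.Lib.MP_8312d7.Eval3

/-!
The two sums modulo `p ^ 2` in terms of the central binomial coefficient.
-/

open Finset

set_option linter.unusedSectionVars false

namespace Pool.Agent.Lib.MP_8312d7

variable {p : ℕ} [hp : Fact p.Prime]

lemma lift_mod {a b : ℤ} (h : (a : ZMod p) = (b : ZMod p)) :
    ∃ w : ZMod (p ^ 2), (a : ZMod (p ^ 2)) = (b : ZMod (p ^ 2)) + (p : ZMod (p ^ 2)) * w := by
  have h1 : (p : ℤ) ∣ a - b := by
    rw [← ZMod.intCast_zmod_eq_zero_iff_dvd]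
    push_cast
    rw [h, sub_self]
  obtain ⟨c, hc⟩ := h1
  refine ⟨(c : ZMod (p ^ 2)), ?_⟩
  have := congrArg (fun z : ℤ => (z : ZMod (p ^ 2))) hc
  push_cast at this
  linear_combination this

lemma not_sq_two_three : ¬ IsSquare (2 : ZMod 3) := by decide

lemma three_pow_half (h5 : 5 ≤ p) (m : ℕ) (hm : 2 * m + 1 = p) (h4 : p % 4 = 1) :
    ((3 : ℕ) : ZMod p) ^ m = if p % 3 = 1 then 1 else -1 := by
  have : Fact (Nat.Prime 3) := ⟨Nat.prime_three⟩
  have h1 : IsSquare ((3 : ℕ) : ZMod p) ↔ IsSquare ((p : ℕ) : ZMod 3) :=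
    ZMod.exists_sq_eq_prime_iff_of_mod_four_eq_one h4 (by norm_num)
  have h0 : ((3 : ℕ) : ZMod p) ≠ 0 := by
    intro h
    rw [ZMod.natCast_eq_zero_iff] at h
    exact not_dvd_of_lt (by norm_num) (by omega) h
  have h2 := ZMod.euler_criterion p h0
  have h3 := ZMod.pow_div_two_eq_neg_one_or_one p h0
  have hp2 : p / 2 = m := by omega
  rw [hp2] at h2 h3
  have hmod : p % 3 = 1 ∨ p % 3 = 2 := by
    have h3p : ¬ 3 ∣ p := by
      intro h
      rcases (Nat.dvd_prime hp.out).1 h with h | h <;> omega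
    omega
  rcases hmod with h | h
  · rw [if_pos h]
    apply h2.1
    rw [h1]
    have : ((p : ℕ) : ZMod 3) = 1 := by
      rw [← Nat.cast_one, ZMod.natCast_eq_natCast_iff]
      unfold Nat.ModEq; omega
    rw [this]
    exact ⟨1, by norm_num⟩
  · rw [if_neg (by omega)]
    rcases h3 with h3 | h3
    · exfalso
      have h4 : IsSquare ((p : ℕ) : ZMod 3) := h1.1 (h2.2 h3)
      have : ((p : ℕ) : ZMod 3) = 2 := by
        have h2' : ((2 : ℕ) : ZMod 3) = 2 := by norm_num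
        rw [← h2', ZMod.natCast_eq_natCast_iff]
        unfold Nat.ModEq; omega
      rw [this] at h4
      exact absurd h4 not_sq_two_three
    · exact h3

/-- if `2 • e(w) = 2 • e(w')` then `e(w) = e(w')` -/
lemma eL_half (h5 : 5 ≤ p) {x y : ZMod (p ^ 2)} (h : (2 : ℤ) • eL x = (2 : ℤ) • eL y) : eL x = eL y := by
  apply eL_congr
  have h1 := eL_nat (p := p) 2 x
  have h2 := eL_nat (p := p) 2 y
  simp only [Nat.cast_ofNat] at h1 h2
  rw [← h1, ← h2] at h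
  have h3 := eL_inj h
  have h4 := u2 (p := p) h5
  simp only [Nat.cast_ofNat] at h4
  apply h4.mul_left_cancel
  linear_combination h3

lemma three_half0 (h5 : 5 ≤ p) (j : ℕ) (hj : 12 * j + 1 = p) :
    (6 * j : ℤ) • uL ((3 : ℕ) : ZMod (p ^ 2)) = (-4 : ℤ) • hL p (4 * j) := by
  have h1 := three_pow_half (p := p) h5 (6 * j) (by omega) (by omega)
  rw [if_pos (by omega)] at h1
  obtain ⟨w, hw⟩ := lift_mod (p := p) (a := 3 ^ (6 * j)) (b := 1) (by push_cast at *; exact h1)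
  have h2 : uL (((3 : ℕ) : ZMod (p ^ 2)) ^ (6 * j)) = eL w := by
    unfold eL
    congr 1
    push_cast at hw ⊢
    exact hw
  rw [uL_pow (u3 h5)] at h2
  replace h2 : (6 * j : ℤ) • uL ((3 : ℕ) : ZMod (p ^ 2)) = eL w := by
    rw [← h2, Nat.cast_mul]; rfl
  have l := lerch0 (p := p) h5 j hj
  have h3 : (-4 : ℤ) • hL p (4 * j) = eL (((12 : ℕ) : ZMod (p ^ 2))⁻¹ * (-(4 * hN p (4 * j)))) := by
    have := dL_nat (p := p) 4 (hN p (4 * j))
    have h4 := dL_neg (p := p) (4 * hN p (4 * j))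
    simp only [Nat.cast_ofNat] at this
    rw [this] at h4
    unfold dL at h4
    rw [h4]
    unfold hL dL
    module
  rw [h3, h2]
  apply eL_half h5
  rw [← h2, ← h3]
  linear_combination (norm := module) l

lemma three_half1 (h5 : 5 ≤ p) (j : ℕ) (hj : 12 * j + 5 = p) :
    (6 * j + 2 : ℤ) • uL ((3 : ℕ) : ZMod (p ^ 2)) = nL p + (-4 : ℤ) • hL p (4 * j + 1) := by
  have h1 := three_pow_half (p := p) h5 (6 * j + 2) (by omega) (by omega)
  rw [if_neg (by omega)] at h1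
  obtain ⟨w, hw⟩ := lift_mod (p := p) (a := 3 ^ (6 * j + 2)) (b := -1) (by push_cast at *; exact h1)
  have h2 : uL (((3 : ℕ) : ZMod (p ^ 2)) ^ (6 * j + 2)) = nL p + eL (-w) := by
    unfold eL nL
    rw [← uL_mul isUnit_one.neg (isUnit_oneP _)]
    congr 1
    push_cast at hw ⊢
    rw [hw]; ring
  rw [uL_pow (u3 h5)] at h2
  replace h2 : (6 * j + 2 : ℤ) • uL ((3 : ℕ) : ZMod (p ^ 2)) = nL p + eL (-w) := by
    rw [← h2, Nat.cast_add, Nat.cast_mul]; rfl
  have l := lerch1 (p := p) h5 j hj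
  have h3 : (-4 : ℤ) • hL p (4 * j + 1) = eL (((12 : ℕ) : ZMod (p ^ 2))⁻¹ * (-(4 * hN p (4 * j + 1)))) := by
    have := dL_nat (p := p) 4 (hN p (4 * j + 1))
    have h4 := dL_neg (p := p) (4 * hN p (4 * j + 1))
    simp only [Nat.cast_ofNat] at this
    rw [this] at h4
    unfold dL at h4
    rw [h4]
    unfold hL dL
    module
  rw [h3, h2]
  congr 1
  apply eL_half h5
  rw [← h3]
  have h2N := two_nL (p := p)
  linear_combination (norm := module) l - (2 : ℤ) • h2 - h2N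

/-! ### the two sums -/

lemma ht_comm (a b c z : ℚ) (k : ℕ) : ht a b c z k = ht b a c z k := by
  unfold ht; rw [mul_comm (∏ i ∈ range k, (a + (i : ℚ)))]

lemma Pint_of (N : ℤ) (D : ℕ) (hD : ¬ p ∣ D) : Pint p ((N : ℚ) / D) := by
  have hD0 : (D : ℚ) ≠ 0 := by
    intro h0
    apply hD
    have : D = 0 := by exact_mod_cast h0
    rw [this]; exact dvd_zero _
  exact (phi_frac (p := p) (N := N) hD (by field_simp)).1

lemma nd_of_dvd12 (h5 : 5 ≤ p) {d : ℕ} (h : d ∣ 12) : ¬ p ∣ d := fun h1 =>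
  p_not_dvd_12 (p := p) h5 (h1.trans h)

/-- first sum -/
def Q1 (p : ℕ) : ℚ := ∑ k ∈ range p, ht (1 / 4) (1 / 2) 1 (1 / 4) k

/-- second sum -/
def Q2 (p : ℕ) : ℚ := ∑ k ∈ range p, ht (1 / 6) (1 / 2) 1 2 k

/-- the sum along the line used for the first sum -/
lemma Q1_line (h5 : 5 ≤ p) (n : ℕ) (hn : 4 * n + 1 = p) :
    Pint p (Q1 p) ∧ 2 * phi p (Q1 p) = 3 * phi p (∑ k ∈ range p, tU n k) -
      phi p (∑ k ∈ range p, tV (2 * n) k) ∧
    Pint p (∑ k ∈ range p, tU n k) ∧ Pint p (∑ k ∈ range p, tV (2 * n) k) := by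
  have hpq : (p : ℚ) = 4 * n + 1 := by rw [← hn]; push_cast; ring
  have q4 : Pint p (1 / 4 : ℚ) := by
    have := Pint_of (p := p) 1 4 (nd_of_dvd12 h5 (by norm_num)); push_cast at this; exact this
  have q4' : Pint p (-1 / 4 : ℚ) := by
    have := Pint_of (p := p) (-1) 4 (nd_of_dvd12 h5 (by norm_num)); push_cast at this; exact this
  have q2 : Pint p (1 / 2 : ℚ) := by
    have := Pint_of (p := p) 1 2 (nd_of_dvd12 h5 (by norm_num)); push_cast at this; exact this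
  have q6' : Pint p (-1 / 6 : ℚ) := by
    have := Pint_of (p := p) (-1) 6 (nd_of_dvd12 h5 (by norm_num)); push_cast at this; exact this
  have q0 : Pint p (0 : ℚ) := Pint_zero.1
  obtain ⟨hP, X, Y, Z, hA⟩ := ht_aff (p := p) q4 q4' q0 q2 q6' q0 q6' q0 q4
    {e : ℤ × ℤ | e.2 = 0} (by simp)
  have e0 : ∑ k ∈ range p, ht (pert p (1 / 4) (-1 / 4) 0 (0, 0)) (pert p (1 / 2) (-1 / 6) 0 (0, 0))
      (pert p 1 (-1 / 6) 0 (0, 0)) (1 / 4) k = Q1 p := by
    unfold Q1 pert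
    simp
  have e1 : ∑ k ∈ range p, ht (pert p (1 / 4) (-1 / 4) 0 (1, 0)) (pert p (1 / 2) (-1 / 6) 0 (1, 0))
      (pert p 1 (-1 / 6) 0 (1, 0)) (1 / 4) k = ∑ k ∈ range p, tU n k := by
    apply sum_congr rfl
    intro k _
    unfold tU pert
    rw [hpq]
    congr 1
    all_goals push_cast; ring
  have e3 : ∑ k ∈ range p, ht (pert p (1 / 4) (-1 / 4) 0 (3, 0)) (pert p (1 / 2) (-1 / 6) 0 (3, 0))
      (pert p 1 (-1 / 6) 0 (3, 0)) (1 / 4) k = ∑ k ∈ range p, tV (2 * n) k := by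
    apply sum_congr rfl
    intro k _
    rw [ht_comm]
    unfold tV pert
    rw [hpq]
    congr 1
    all_goals push_cast; ring
  have p0 := hP (0, 0)
  have p1 := hP (1, 0)
  have p3 := hP (3, 0)
  rw [e0] at p0
  rw [e1] at p1
  rw [e3] at p3
  have a0 := hA (0, 0) (by simp)
  have a1 := hA (1, 0) (by simp)
  have a3 := hA (3, 0) (by simp)
  simp only [e0] at a0
  simp only [e1] at a1
  simp only [e3] at a3
  refine ⟨p0, ?_, p1, p3⟩
  rw [a0, a1, a3]
  push_cast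
  ring

/-- combination step for the first sum -/
lemma combine {X F1 F3 G y : ZMod (p ^ 2)} (h5 : 5 ≤ p) (hX : 2 * X = 3 * F1 - F3)
    (hG : IsUnit G) (hF1 : IsUnit F1) (hF3 : IsUnit F3)
    (h1 : uL F1 = uL G + eL y) (h3 : uL F3 = uL G + (3 : ℤ) • eL y) : X = G := by
  have e1 : F1 = G * (1 + (p : ZMod (p ^ 2)) * y) := by
    apply uL_inj hF1 (hG.mul (isUnit_oneP y))
    rw [uL_mul hG (isUnit_oneP y)]
    exact h1
  have e3 : F3 = G * (1 + (p : ZMod (p ^ 2)) * (3 * y)) := by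
    apply uL_inj hF3 (hG.mul (isUnit_oneP _))
    rw [uL_mul hG (isUnit_oneP _)]
    have := eL_nat (p := p) 3 y
    simp only [Nat.cast_ofNat] at this
    rw [← this] at h3
    exact h3
  have h4 := u2 (p := p) h5
  simp only [Nat.cast_ofNat] at h4
  apply h4.mul_left_cancel
  rw [hX, e1, e3]
  ring

theorem S1_core0 (h5 : 5 ≤ p) (j : ℕ) (hj : 12 * j + 1 = p) :
    Pint p (Q1 p) ∧ phi p (Q1 p) = ((3 : ℕ) : ZMod (p ^ 2)) ^ (3 * j * p) * TT p (3 * j) := by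
  obtain ⟨h1, h2, -, -⟩ := Q1_line (p := p) h5 (3 * j) (by omega)
  refine ⟨h1, ?_⟩
  rw [U_zero j p (by omega), V_even (3 * j) p (by omega)] at h2
  obtain ⟨-, u1, l1⟩ := U_log0 (p := p) h5 j hj
  obtain ⟨-, u3', l3⟩ := V_log (p := p) h5 (3 * j) (by omega)
  obtain ⟨ut, lt⟩ := TT_log (p := p) h5 (3 * j) (by omega)
  have ltau := tau_log0 (p := p) h5 j hj
  have utau := (u3 (p := p) h5).pow (3 * j * p)
  have hh := three_half0 (p := p) h5 j hj
  rw [show 2 * (3 * j) = 6 * j by ring] at l3 lt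
  have hy : eL (((12 : ℕ) : ZMod (p ^ 2))⁻¹ * (5 * hN p (6 * j) - 2 * hN p (4 * j))) =
      (5 : ℤ) • hL p (6 * j) - (2 : ℤ) • hL p (4 * j) := by
    have a := dL_nat (p := p) 5 (hN p (6 * j))
    have b := dL_nat (p := p) 2 (hN p (4 * j))
    simp only [Nat.cast_ofNat] at a b
    have c := dL_sub (p := p) (5 * hN p (6 * j)) (2 * hN p (4 * j))
    rw [a, b] at c
    exact c
  apply combine h5 h2 (utau.mul ut) u1 u3'
    (y := ((12 : ℕ) : ZMod (p ^ 2))⁻¹ * (5 * hN p (6 * j) - 2 * hN p (4 * j)))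
  · rw [l1, uL_mul utau ut, ltau, lt, hy]
    module
  · rw [l3, uL_mul utau ut, ltau, lt, hy]
    push_cast
    linear_combination (norm := module) hh

theorem S1_core1 (h5 : 5 ≤ p) (j : ℕ) (hj : 12 * j + 5 = p) :
    Pint p (Q1 p) ∧ phi p (Q1 p) = -1 * (((3 : ℕ) : ZMod (p ^ 2)) ^ ((3 * j + 1) * p) * TT p (3 * j + 1)) := by
  obtain ⟨h1, h2, -, -⟩ := Q1_line (p := p) h5 (3 * j + 1) (by omega)
  refine ⟨h1, ?_⟩
  rw [U_one j p (by omega), V_even (3 * j + 1) p (by omega)] at h2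
  obtain ⟨-, u1, l1⟩ := U_log1 (p := p) h5 j hj
  obtain ⟨-, u3', l3⟩ := V_log (p := p) h5 (3 * j + 1) (by omega)
  obtain ⟨ut, lt⟩ := TT_log (p := p) h5 (3 * j + 1) (by omega)
  have ltau := tau_log1 (p := p) h5 j hj
  have utau := (u3 (p := p) h5).pow ((3 * j + 1) * p)
  have hh := three_half1 (p := p) h5 j hj
  have h2N := two_nL (p := p)
  rw [show 2 * (3 * j + 1) = 6 * j + 2 by ring] at l3 lt
  have hy : eL (((12 : ℕ) : ZMod (p ^ 2))⁻¹ * (5 * hN p (6 * j + 2) - 2 * hN p (4 * j + 1))) =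
      (5 : ℤ) • hL p (6 * j + 2) - (2 : ℤ) • hL p (4 * j + 1) := by
    have a := dL_nat (p := p) 5 (hN p (6 * j + 2))
    have b := dL_nat (p := p) 2 (hN p (4 * j + 1))
    simp only [Nat.cast_ofNat] at a b
    have c := dL_sub (p := p) (5 * hN p (6 * j + 2)) (2 * hN p (4 * j + 1))
    rw [a, b] at c
    exact c
  have hneg : IsUnit (-1 : ZMod (p ^ 2)) := isUnit_one.neg
  have hG : uL (-1 * (((3 : ℕ) : ZMod (p ^ 2)) ^ ((3 * j + 1) * p) * TT p (3 * j + 1))) =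
      nL p + (uL (((3 : ℕ) : ZMod (p ^ 2)) ^ ((3 * j + 1) * p)) + uL (TT p (3 * j + 1))) := by
    rw [uL_mul hneg (utau.mul ut), uL_mul utau ut]; rfl
  apply combine h5 h2 (hneg.mul (utau.mul ut)) u1 u3'
    (y := ((12 : ℕ) : ZMod (p ^ 2))⁻¹ * (5 * hN p (6 * j + 2) - 2 * hN p (4 * j + 1)))
  · rw [l1, hG, ltau, lt, hy]
    module
  · rw [l3, hG, ltau, lt, hy]
    push_cast
    linear_combination (norm := module) hh

/-- the second sum on the two dimensional grid -/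
lemma Q2_grid (h5 : 5 ≤ p) (m s c : ℕ) (hm : 2 * m + 1 = p) (hc : 6 * (2 * s) + 1 = c * p) :
    Pint p (Q2 p) ∧ phi p (Q2 p) = phi p (∑ k ∈ range p, tA (2 * s) k) +
      (phi p (∑ k ∈ range p, tB (1 / 6) m k) - phi p (∑ k ∈ range p, tB (1 / 6 - (c : ℚ) * p / 6) m k)) ∧
    (p : ZMod (p ^ 2)) * phi p (∑ k ∈ range p, tA (2 * s) k) =
      (p : ZMod (p ^ 2)) * phi p (∑ k ∈ range p, tB (1 / 6) m k) := by
  have hpq : (p : ℚ) = 2 * m + 1 := by rw [← hm]; push_cast; ring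
  have hcq : (c : ℚ) * p = 12 * s + 1 := by
    have := congrArg (fun z : ℕ => (z : ℚ)) hc
    push_cast at this
    linarith
  have q6 : Pint p (1 / 6 : ℚ) := by
    have := Pint_of (p := p) 1 6 (nd_of_dvd12 h5 (by norm_num)); push_cast at this; exact this
  have q6c : Pint p (-(c : ℚ) / 6 : ℚ) := by
    have := Pint_of (p := p) (-c) 6 (nd_of_dvd12 h5 (by norm_num)); push_cast at this; exact this
  have q2 : Pint p (1 / 2 : ℚ) := by
    have := Pint_of (p := p) 1 2 (nd_of_dvd12 h5 (by norm_num)); push_cast at this; exact this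
  have q2' : Pint p (-1 / 2 : ℚ) := by
    have := Pint_of (p := p) (-1) 2 (nd_of_dvd12 h5 (by norm_num)); push_cast at this; exact this
  have qm1 : Pint p (-1 : ℚ) := by
    have := Pint_int (p := p) (-1); push_cast at this; exact this.1
  have qz : Pint p (2 : ℚ) := by
    have := Pint_int (p := p) 2; push_cast at this; exact this.1
  have q0 : Pint p (0 : ℚ) := Pint_zero.1
  obtain ⟨hP, X, Y, Z, hA⟩ := ht_aff (p := p) q6 q6c q0 q2 q0 q2' q0 qm1 qz Set.univ (by simp)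
  have e00 : ∑ k ∈ range p, ht (pert p (1 / 6) (-(c : ℚ) / 6) 0 (0, 0)) (pert p (1 / 2) 0 (-1 / 2) (0, 0))
      (pert p 1 0 (-1) (0, 0)) 2 k = Q2 p := by
    unfold Q2 pert
    simp
  have e10 : ∑ k ∈ range p, ht (pert p (1 / 6) (-(c : ℚ) / 6) 0 (1, 0)) (pert p (1 / 2) 0 (-1 / 2) (1, 0))
      (pert p 1 0 (-1) (1, 0)) 2 k = ∑ k ∈ range p, tA (2 * s) k := by
    apply sum_congr rfl
    intro k _
    unfold tA pert
    congr 1
    all_goals push_cast; linarith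
  have e01 : ∑ k ∈ range p, ht (pert p (1 / 6) (-(c : ℚ) / 6) 0 (0, 1)) (pert p (1 / 2) 0 (-1 / 2) (0, 1))
      (pert p 1 0 (-1) (0, 1)) 2 k = ∑ k ∈ range p, tB (1 / 6) m k := by
    apply sum_congr rfl
    intro k _
    unfold tB pert
    rw [hpq]
    congr 1
    all_goals push_cast; ring
  have e11 : ∑ k ∈ range p, ht (pert p (1 / 6) (-(c : ℚ) / 6) 0 (1, 1)) (pert p (1 / 2) 0 (-1 / 2) (1, 1))
      (pert p 1 0 (-1) (1, 1)) 2 k = ∑ k ∈ range p, tB (1 / 6 - (c : ℚ) * p / 6) m k := by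
    apply sum_congr rfl
    intro k _
    unfold tB pert
    rw [hpq]
    congr 1
    all_goals push_cast; ring
  have p00 := hP (0, 0)
  rw [e00] at p00
  have a00 := hA (0, 0) (by simp)
  have a10 := hA (1, 0) (by simp)
  have a01 := hA (0, 1) (by simp)
  have a11 := hA (1, 1) (by simp)
  simp only [e00] at a00
  simp only [e10] at a10
  simp only [e01] at a01
  simp only [e11] at a11
  refine ⟨p00, ?_, ?_⟩
  · rw [a00, a10, a01, a11]
    push_cast
    ring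
  · rw [a10, a01]
    push_cast
    linear_combination (Y - Z) * P_sq (p := p)

theorem S2_log (h5 : 5 ≤ p) (m s c s' c' : ℕ) (hm : 2 * m + 1 = p) (hc : 6 * (2 * s) + 1 = c * p)
    (hs' : 12 * s' + 7 = c' * p) (hs'p : s' < p) (hms : m ≤ s') (hsm : s ≤ m) (hm1 : 1 ≤ m) :
    Pint p (Q2 p) ∧ IsUnit (phi p (Q2 p)) ∧ uL (phi p (Q2 p)) =
      (s : ℤ) • nL p + fL p m - fL p (m - s) - fL p s - (6 : ℤ) • (hL p m - hL p (m - s)) -
        (c : ℤ) • (hL p s' - hL p (s' - m)) := by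
  obtain ⟨g1, g2, g3⟩ := Q2_grid (p := p) h5 m s c hm hc
  rw [A_even s p (by omega)] at g2 g3
  rw [B_closed _ m p hm1 (by omega)] at g2 g3
  rw [B_closed _ m p hm1 (by omega)] at g2
  obtain ⟨-, -, b⟩ := B_diff (p := p) h5 m s' c' c hm hs' hs'p hms
  obtain ⟨-, ua, la⟩ := A_log (p := p) h5 m s hm hsm
  rw [b] at g2
  set A := phi p (∏ i ∈ range s, ((2 * (i : ℚ) + 1) / (2 * i + 2))) with hA
  set B := phi p (∏ i ∈ range m, ((1 / 6 + 1 + 2 * (i : ℚ)) / (2 * i + 1))) with hB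
  set Sg := ∑ i ∈ range m, (((12 * i + 7 : ℕ) : ZMod (p ^ 2)))⁻¹ with hSg
  have g4 : phi p (Q2 p) = A * (1 + (p : ZMod (p ^ 2)) * ((c : ZMod (p ^ 2)) * Sg)) := by
    rw [g2]
    linear_combination (-(c : ZMod (p ^ 2)) * Sg) * g3
  refine ⟨g1, ?_, ?_⟩
  · rw [g4]; exact ua.mul (isUnit_oneP _)
  rw [g4, uL_mul ua (isUnit_oneP _), la]
  have h1 : uL (1 + (p : ZMod (p ^ 2)) * ((c : ZMod (p ^ 2)) * Sg)) = (c : ℤ) • eL Sg := by
    rw [← eL_nat]; rfl
  have h2 : eL Sg = -(hL p s' - hL p (s' - m)) := by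
    rw [eL_eq_dL h5]
    have h3 : dL (((12 : ℕ) : ZMod (p ^ 2)) * Sg) = (12 : ℤ) • dL Sg := dL_nat (p := p) 12 Sg
    rw [← h3]
    unfold hL
    rw [← dL_sub, ← dL_neg]
    apply dL_congr
    have h4 := sum_ap (p := p) h5 12 7 s' c' 1 m hs' hs'p hms (by norm_num)
    exact h4
  rw [h1, h2]
  module

theorem S2_core0 (h5 : 5 ≤ p) (j : ℕ) (hj : 12 * j + 1 = p) :
    Pint p (Q2 p) ∧ phi p (Q2 p) = ((3 : ℕ) : ZMod (p ^ 2)) ^ (3 * j * p) * TT p (3 * j) := by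
  obtain ⟨h1, h2, h3⟩ := S2_log (p := p) h5 (6 * j) j 1 (7 * j) 7 (by omega) (by omega) (by omega)
    (by omega) (by omega) (by omega) (by omega)
  refine ⟨h1, ?_⟩
  obtain ⟨ut, lt⟩ := TT_log (p := p) h5 (3 * j) (by omega)
  have ltau := tau_log0 (p := p) h5 j hj
  have utau := (u3 (p := p) h5).pow (3 * j * p)
  rw [show 2 * (3 * j) = 6 * j by ring] at lt
  apply uL_inj h2 (utau.mul ut)
  rw [uL_mul utau ut, ltau, lt, h3]
  rw [show 6 * j - j = 5 * j by omega, show 7 * j - 6 * j = j by omega,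
    ← refl_hL h5 (5 * j) (7 * j) (by omega)]
  have nf := nfac0 (p := p) h5 j hj
  have e1 := third0 (p := p) h5 j hj
  have e2 := half0 (p := p) h5 j hj
  have e3 := sixth0 (p := p) h5 j hj
  have h2N := two_nL (p := p)
  push_cast
  linear_combination (norm := module) nf - (2 : ℤ) • e1 - (2 : ℤ) • e2 - e3 + (j : ℤ) • h2N

theorem S2_core1 (h5 : 5 ≤ p) (j : ℕ) (hj : 12 * j + 5 = p) :
    Pint p (Q2 p) ∧ phi p (Q2 p) = ((3 : ℕ) : ZMod (p ^ 2)) ^ ((3 * j + 1) * p) * TT p (3 * j + 1) := by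
  obtain ⟨h1, h2, h3⟩ := S2_log (p := p) h5 (6 * j + 2) (5 * j + 2) 5 (11 * j + 4) 11 (by omega) (by omega) (by omega)
    (by omega) (by omega) (by omega) (by omega)
  refine ⟨h1, ?_⟩
  obtain ⟨ut, lt⟩ := TT_log (p := p) h5 (3 * j + 1) (by omega)
  have ltau := tau_log1 (p := p) h5 j hj
  have utau := (u3 (p := p) h5).pow ((3 * j + 1) * p)
  rw [show 2 * (3 * j + 1) = 6 * j + 2 by ring] at lt
  apply uL_inj h2 (utau.mul ut)
  rw [uL_mul utau ut, ltau, lt, h3]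
  rw [show 6 * j + 2 - (5 * j + 2) = j by omega, show 11 * j + 4 - (6 * j + 2) = 5 * j + 2 by omega,
    ← refl_hL h5 j (11 * j + 4) (by omega)]
  have nf := nfac1 (p := p) h5 j hj
  have e1 := third1 (p := p) h5 j hj
  have e2 := half1 (p := p) h5 j hj
  have e3 := sixth1 (p := p) h5 j hj
  have h2N := two_nL (p := p)
  push_cast
  linear_combination (norm := module) nf - (2 : ℤ) • e1 - (2 : ℤ) • e2 - e3 + (3 * j + 1 : ℤ) • h2N

end Pool.Agent.Lib.MP_8312d7
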