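import Mathlib

/-!
Definitions used in the statement of the hand-in for `MP_8312d7_nt`.
-/

open Finset

namespace Pool.Agent.Lib.MP_8312d7

/-- The generalized binomial coefficient `a (a-1) ⋯ (a-k+1) / k!` of a rational number `a`. -/
def gbinom (a : ℚ) (k : ℕ) : ℚ := (∏ i ∈ range k, (a - (i : ℚ))) / (k.factorial : ℚ)

/-- `S₁(p) = ∑_{k=0}^{p-1} binom(-1/4,k) binom(-1/2,k) / 4^k`. -/
def S₁ (p : ℕ) : ℚ := ∑ k ∈ range p, gbinom (-1 / 4) k * gbinom (-1 / 2) k / 4 ^ k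

/-- `S₂(p) = ∑_{k=0}^{p-1} binom(-1/2,k) binom(-1/6,k) 2^k`. -/
def S₂ (p : ℕ) : ℚ := ∑ k ∈ range p, gbinom (-1 / 2) k * gbinom (-1 / 6) k * 2 ^ k

/-- Congruence modulo `p²` of rational numbers: `r - s`, written in lowest terms, has numerator
divisible by `p²` (for a prime `p` this says exactly that `r - s` lies in `p² ℤ_(p)`). -/
def CongSq (p : ℕ) (r s : ℚ) : Prop := (p : ℤ) ^ 2 ∣ (r - s).num

/-- The displayed statement of the question for the prime `p` and the odd integer `x`, verbatim: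
`S₁(p) ≡ (p/3) S₂(p)` and the value of `S₁(p)` is
`(-1)^((p-1)/4 + (x+1)/2) (2x - p/(2x))` if `12 ∣ p - 1`, and is `2y - p/(2y)` for one of the
even `y` with `p = x² + y²` if `12 ∣ p - 5`.
(`legendreSym 3 p` is the Legendre symbol `(p/3)`.) -/
def Displayed (p : ℕ) (x : ℤ) : Prop :=
  CongSq p (S₁ p) ((legendreSym 3 (p : ℤ) : ℚ) * S₂ p) ∧
  ((12 : ℤ) ∣ (p : ℤ) - 1 →
    CongSq p (S₁ p) ((-1 : ℚ) ^ (((p : ℤ) - 1) / 4 + (x + 1) / 2) * (2 * x - p / (2 * x)))) ∧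
  ((12 : ℤ) ∣ (p : ℤ) - 5 →
    ∃ y : ℤ, Even y ∧ (p : ℤ) = x ^ 2 + y ^ 2 ∧ CongSq p (S₁ p) (2 * y - p / (2 * y)))

end Pool.Agent.Lib.MP_8312d7
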