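import Pool.Agent.Lib.MP_8312d7.Facts

/-!
Evaluation modulo `p ^ 2` of the closed forms.
-/

open Finset

set_option linter.unusedSectionVars false

namespace Pool.Agent.Lib.MP_8312d7

variable {p : ℕ} [hp : Fact p.Prime]

lemma frac_prod (k : ℕ) (x : ℕ → ℚ) (U D : ℕ → ℕ) (h : ∀ i < k, x i * D i = U i)
    (hD : IsUnit (∏ i ∈ range k, ((D i : ℕ) : ZMod (p ^ 2)))) :
    Pint p (∏ i ∈ range k, x i) ∧
      phi p (∏ i ∈ range k, x i) * ∏ i ∈ range k, ((D i : ℕ) : ZMod (p ^ 2)) =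
        ∏ i ∈ range k, ((U i : ℕ) : ZMod (p ^ 2)) := by
  rw [IsUnit.prod_iff] at hD
  have h1 : ∀ i ∈ range k, Pint p (x i) ∧ phi p (x i) * (D i : ZMod (p ^ 2)) = ((U i : ℤ) : ZMod (p ^ 2)) := by
    intro i hi
    exact phi_frac (isUnit_nat_iff.1 (hD i hi)) (by rw [h i (mem_range.1 hi)]; push_cast; rfl)
  have h2 := Pint_prod (p := p) (range k) x (fun i hi => (h1 i hi).1)
  refine ⟨h2.1, ?_⟩
  rw [h2.2, ← prod_mul_distrib]
  apply prod_congr rfl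
  intro i hi
  rw [(h1 i hi).2]
  push_cast; rfl

/-- `uL` of a quotient -/
lemma uL_quot {x D U : ZMod (p ^ 2)} (h : x * D = U) (hU : IsUnit U) :
    IsUnit x ∧ uL x = uL U - uL D := by
  have hx : IsUnit x := by
    rw [← h] at hU
    exact isUnit_of_mul_isUnit_left hU
  have hD : IsUnit D := by
    rw [← h] at hU
    exact isUnit_of_mul_isUnit_right hU
  refine ⟨hx, ?_⟩
  rw [← h, uL_mul hx hD]
  module

lemma u2 (h5 : 5 ≤ p) : IsUnit ((2 : ℕ) : ZMod (p ^ 2)) :=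
  isUnit_nat (not_dvd_of_lt (by norm_num) (by omega))

lemma u3 (h5 : 5 ≤ p) : IsUnit ((3 : ℕ) : ZMod (p ^ 2)) :=
  isUnit_nat (not_dvd_of_lt (by norm_num) (by omega))

lemma L12 (h5 : 5 ≤ p) : uL ((12 : ℕ) : ZMod (p ^ 2)) =
    (2 : ℤ) • uL ((2 : ℕ) : ZMod (p ^ 2)) + uL ((3 : ℕ) : ZMod (p ^ 2)) := by
  have : ((12 : ℕ) : ZMod (p ^ 2)) = ((2 : ℕ) : ZMod (p ^ 2)) ^ 2 * ((3 : ℕ) : ZMod (p ^ 2)) := by
    push_cast; norm_num
  rw [this, uL_mul ((u2 h5).pow 2) (u3 h5), uL_pow (u2 h5)]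
  push_cast
  rfl

lemma L4 (h5 : 5 ≤ p) : uL ((4 : ℕ) : ZMod (p ^ 2)) =
    (2 : ℤ) • uL ((2 : ℕ) : ZMod (p ^ 2)) := by
  have : ((4 : ℕ) : ZMod (p ^ 2)) = ((2 : ℕ) : ZMod (p ^ 2)) ^ 2 := by
    push_cast; norm_num
  rw [this, uL_pow (u2 h5)]
  push_cast
  rfl

/-- evaluation of family V, `p = 4 n + 1` -/
theorem V_log (h5 : 5 ≤ p) (n : ℕ) (hn : 4 * n + 1 = p) :
    Pint p (∏ i ∈ range n, (27 * (2 * (i : ℚ) + 1) ^ 2 / (16 * (4 * i + 1) * (4 * i + 3)))) ∧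
    IsUnit (phi p (∏ i ∈ range n, (27 * (2 * (i : ℚ) + 1) ^ 2 / (16 * (4 * i + 1) * (4 * i + 3))))) ∧
    uL (phi p (∏ i ∈ range n, (27 * (2 * (i : ℚ) + 1) ^ 2 / (16 * (4 * i + 1) * (4 * i + 3))))) =
      (3 * n : ℤ) • uL ((3 : ℕ) : ZMod (p ^ 2)) + fL p (2 * n) - (2 : ℤ) • fL p n +
        (18 : ℤ) • hL p (2 * n) := by
  have a1 := prod_ap (p := p) h5 2 1 (2 * n) 1 6 n (by omega) (by omega) (by omega) (by norm_num)
  have a2 := prod_ap (p := p) h5 4 1 n 1 3 n (by omega) (by omega) (by omega) (by norm_num)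
  have a3 := prod_ap (p := p) h5 4 3 (3 * n) 3 3 n (by omega) (by omega) (by omega) (by norm_num)
  have hDe : ∏ i ∈ range n, ((16 * (4 * i + 1) * (4 * i + 3) : ℕ) : ZMod (p ^ 2)) =
      ((2 : ℕ) : ZMod (p ^ 2)) ^ (4 * n) * (∏ i ∈ range n, ((4 * i + 1 : ℕ) : ZMod (p ^ 2))) *
        ∏ i ∈ range n, ((4 * i + 3 : ℕ) : ZMod (p ^ 2)) := by
    rw [pow_mul, ← card_range n, ← prod_const, card_range, ← prod_mul_distrib, ← prod_mul_distrib]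
    apply prod_congr rfl
    intro i _
    push_cast; ring
  have hUe : ∏ i ∈ range n, ((27 * (2 * i + 1) ^ 2 : ℕ) : ZMod (p ^ 2)) =
      ((3 : ℕ) : ZMod (p ^ 2)) ^ (3 * n) * (∏ i ∈ range n, ((2 * i + 1 : ℕ) : ZMod (p ^ 2))) ^ 2 := by
    rw [pow_mul, ← card_range n, ← prod_const, card_range, ← prod_pow, ← prod_mul_distrib]
    apply prod_congr rfl
    intro i _
    push_cast; ring
  have hD1 : IsUnit (((2 : ℕ) : ZMod (p ^ 2)) ^ (4 * n) * (∏ i ∈ range n, ((4 * i + 1 : ℕ) : ZMod (p ^ 2))) *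
        ∏ i ∈ range n, ((4 * i + 3 : ℕ) : ZMod (p ^ 2))) := (((u2 h5).pow _).mul a2.1).mul a3.1
  have hU1 : IsUnit (((3 : ℕ) : ZMod (p ^ 2)) ^ (3 * n) * (∏ i ∈ range n, ((2 * i + 1 : ℕ) : ZMod (p ^ 2))) ^ 2) :=
    ((u3 h5).pow _).mul (a1.1.pow 2)
  have hf := frac_prod (p := p) n (fun i => (27 * (2 * (i : ℚ) + 1) ^ 2 / (16 * (4 * i + 1) * (4 * i + 3))))
    (fun i => 27 * (2 * i + 1) ^ 2) (fun i => 16 * (4 * i + 1) * (4 * i + 3))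
    (fun i _ => by push_cast; field_simp) (by rw [hDe]; exact hD1)
  rw [hUe, hDe] at hf
  have hq := uL_quot hf.2 hU1
  refine ⟨hf.1, hq.1, ?_⟩
  rw [hq.2, uL_mul ((u3 h5).pow _) (a1.1.pow 2), uL_mul (((u2 h5).pow _).mul a2.1) a3.1,
    uL_mul ((u2 h5).pow _) a2.1, uL_pow (u3 h5), uL_pow (u2 h5), uL_pow a1.1, a1.2, a2.2, a3.2, L4 h5]
  rw [show 2 * n - n = n by omega, show 3 * n - n = 2 * n by omega, Nat.sub_self, fL_zero, hL_zero,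
    ← refl_hL h5 n (3 * n) (by omega)]
  have d1 := dup_fac (p := p) h5 (2 * n) n (by omega) (by omega)
  have d2 := dup_hL (p := p) (2 * n) n (by omega) (by omega)
  rw [show 2 * n - n = n by omega] at d1 d2
  have r1 := refl_fac (p := p) h5 n (3 * n) (by omega)
  have r2 := refl_fac (p := p) h5 (2 * n) (2 * n) (by omega)
  have h2N := two_nL (p := p)
  push_cast at *
  linear_combination (norm := module) (-1 : ℤ) • r1 + r2 + (3 : ℤ) • d1 + (-15 : ℤ) • d2 + (2 * n : ℤ) • h2N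

end Pool.Agent.Lib.MP_8312d7
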