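import Pool.Agent.Lib.MP_8312d7.Eval

/-!
Evaluation modulo `p ^ 2` of the closed forms: the cases `p = 12 j + 1` and `p = 12 j + 5`.
-/

open Finset

set_option linter.unusedSectionVars false

namespace Pool.Agent.Lib.MP_8312d7

variable {p : ℕ} [hp : Fact p.Prime]

/-! ### relations, `p = 12 j + 1` -/

lemma third0 (h5 : 5 ≤ p) (j : ℕ) (hj : 12 * j + 1 = p) : hL p (4 * j) = hL p (2 * j) - hL p (6 * j) := by
  have d := dup_hL (p := p) (6 * j) (2 * j) (by omega) (by omega)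
  rw [show 6 * j - 2 * j = 4 * j by omega, show 2 * (2 * j) = 4 * j by ring] at d
  linear_combination (norm := module) d

lemma half0 (h5 : 5 ≤ p) (j : ℕ) (hj : 12 * j + 1 = p) : (3 : ℤ) • hL p (6 * j) = (2 : ℤ) • hL p (3 * j) := by
  have d := dup_hL (p := p) (6 * j) (3 * j) (by omega) (by omega)
  rw [show 6 * j - 3 * j = 3 * j by omega, show 2 * (3 * j) = 6 * j by ring] at d
  linear_combination (norm := module) d

lemma sixth0 (h5 : 5 ≤ p) (j : ℕ) (hj : 12 * j + 1 = p) :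
    (2 : ℤ) • hL p (2 * j) = hL p j - hL p (6 * j) + hL p (5 * j) := by
  have d := dup_hL (p := p) (6 * j) j (by omega) (by omega)
  rw [show 6 * j - j = 5 * j by omega] at d
  exact d

lemma lerch0 (h5 : 5 ≤ p) (j : ℕ) (hj : 12 * j + 1 = p) :
    (12 * j : ℤ) • uL ((3 : ℕ) : ZMod (p ^ 2)) = (-8 : ℤ) • hL p (4 * j) := by
  have t := tri_fac0 (p := p) h5 (4 * j) (4 * j) 1 (8 * j) 2 (by omega) (by omega) (by omega) (by omega)
    (by omega) (by omega) (by omega)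
  rw [Nat.sub_self, show 8 * j - 4 * j = 4 * j by omega, fL_zero, hL_zero] at t
  have r := refl_fac (p := p) h5 (4 * j) (8 * j) (by omega)
  have rh := refl_hL (p := p) h5 (4 * j) (8 * j) (by omega)
  rw [show 3 * (4 * j) = p - 1 by omega] at t
  have h2N := two_nL (p := p)
  push_cast at *
  linear_combination (norm := module) (-1 : ℤ) • t - r - (8 : ℤ) • rh - (2 * j : ℤ) • h2N

/-- main relation, `p = 12 j + 1` -/
lemma nfac0 (h5 : 5 ≤ p) (j : ℕ) (hj : 12 * j + 1 = p) :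
    (2 : ℤ) • fL p (3 * j) = (3 * j : ℤ) • uL ((3 : ℕ) : ZMod (p ^ 2)) + fL p j + fL p (5 * j) +
      (j : ℤ) • nL p - (4 : ℤ) • hL p (5 * j) + (4 : ℤ) • hL p (3 * j) := by
  have t := tri_fac0 (p := p) h5 j (4 * j) 1 (8 * j) 2 (by omega) (by omega) (by omega) (by omega)
    (by omega) (by omega) (by omega)
  rw [show 4 * j - j = 3 * j by omega, show 8 * j - j = 7 * j by omega] at t
  have r1 := refl_fac (p := p) h5 (4 * j) (8 * j) (by omega)
  have r2 := refl_fac (p := p) h5 (5 * j) (7 * j) (by omega)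
  have rh1 := refl_hL (p := p) h5 (4 * j) (8 * j) (by omega)
  have rh2 := refl_hL (p := p) h5 (5 * j) (7 * j) (by omega)
  have h2N := two_nL (p := p)
  push_cast at *
  linear_combination (norm := module) t + r1 - r2 + (8 : ℤ) • rh1 - (8 : ℤ) • rh2 - (j : ℤ) • h2N

/-- evaluation of family U, `p = 12 j + 1` -/
theorem U_log0 (h5 : 5 ≤ p) (j : ℕ) (hj : 12 * j + 1 = p) :
    Pint p (∏ i ∈ range j, (27 * (3 * (i : ℚ) + 1) ^ 2 / (4 * (12 * i + 1) * (12 * i + 7)))) ∧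
    IsUnit (phi p (∏ i ∈ range j, (27 * (3 * (i : ℚ) + 1) ^ 2 / (4 * (12 * i + 1) * (12 * i + 7))))) ∧
    uL (phi p (∏ i ∈ range j, (27 * (3 * (i : ℚ) + 1) ^ 2 / (4 * (12 * i + 1) * (12 * i + 7))))) =
      (3 * j : ℤ) • uL ((3 : ℕ) : ZMod (p ^ 2)) + fL p (6 * j) - (2 : ℤ) • fL p (3 * j) +
        (8 : ℤ) • hL p (6 * j) := by
  have a1 := prod_ap (p := p) h5 3 1 (4 * j) 1 4 j (by omega) (by omega) (by omega) (by norm_num)
  have a2 := prod_ap (p := p) h5 12 1 j 1 1 j (by omega) (by omega) (by omega) (by norm_num)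
  have a3 := prod_ap (p := p) h5 12 7 (7 * j) 7 1 j (by omega) (by omega) (by omega) (by norm_num)
  have hDe : ∏ i ∈ range j, ((4 * (12 * i + 1) * (12 * i + 7) : ℕ) : ZMod (p ^ 2)) =
      ((2 : ℕ) : ZMod (p ^ 2)) ^ (2 * j) * (∏ i ∈ range j, ((12 * i + 1 : ℕ) : ZMod (p ^ 2))) *
        ∏ i ∈ range j, ((12 * i + 7 : ℕ) : ZMod (p ^ 2)) := by
    rw [pow_mul, ← card_range j, ← prod_const, card_range, ← prod_mul_distrib, ← prod_mul_distrib]
    apply prod_congr rfl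
    intro i _
    push_cast; ring
  have hUe : ∏ i ∈ range j, ((27 * (3 * i + 1) ^ 2 : ℕ) : ZMod (p ^ 2)) =
      ((3 : ℕ) : ZMod (p ^ 2)) ^ (3 * j) * (∏ i ∈ range j, ((3 * i + 1 : ℕ) : ZMod (p ^ 2))) ^ 2 := by
    rw [pow_mul, ← card_range j, ← prod_const, card_range, ← prod_pow, ← prod_mul_distrib]
    apply prod_congr rfl
    intro i _
    push_cast; ring
  have hD1 : IsUnit (((2 : ℕ) : ZMod (p ^ 2)) ^ (2 * j) * (∏ i ∈ range j, ((12 * i + 1 : ℕ) : ZMod (p ^ 2))) *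
        ∏ i ∈ range j, ((12 * i + 7 : ℕ) : ZMod (p ^ 2))) := (((u2 h5).pow _).mul a2.1).mul a3.1
  have hU1 : IsUnit (((3 : ℕ) : ZMod (p ^ 2)) ^ (3 * j) * (∏ i ∈ range j, ((3 * i + 1 : ℕ) : ZMod (p ^ 2))) ^ 2) :=
    ((u3 h5).pow _).mul (a1.1.pow 2)
  have hf := frac_prod (p := p) j (fun i => (27 * (3 * (i : ℚ) + 1) ^ 2 / (4 * (12 * i + 1) * (12 * i + 7))))
    (fun i => 27 * (3 * i + 1) ^ 2) (fun i => 4 * (12 * i + 1) * (12 * i + 7))
    (fun i _ => by push_cast; field_simp) (by rw [hDe]; exact hD1)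
  rw [hUe, hDe] at hf
  have hq := uL_quot hf.2 hU1
  refine ⟨hf.1, hq.1, ?_⟩
  rw [hq.2, uL_mul ((u3 h5).pow _) (a1.1.pow 2), uL_mul (((u2 h5).pow _).mul a2.1) a3.1,
    uL_mul ((u2 h5).pow _) a2.1, uL_pow (u3 h5), uL_pow (u2 h5), uL_pow a1.1, a1.2, a2.2, a3.2, L12 h5]
  rw [show 4 * j - j = 3 * j by omega, show 7 * j - j = 6 * j by omega, Nat.sub_self, fL_zero, hL_zero,
    ← refl_hL h5 (5 * j) (7 * j) (by omega)]
  have d1 := dup_fac (p := p) h5 (6 * j) j (by omega) (by omega)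
  have d2 := dup_fac (p := p) h5 (6 * j) (2 * j) (by omega) (by omega)
  rw [show 6 * j - j = 5 * j by omega] at d1
  rw [show 6 * j - 2 * j = 4 * j by omega, show 2 * (2 * j) = 4 * j by ring] at d2
  have r1 := refl_fac (p := p) h5 (5 * j) (7 * j) (by omega)
  have r2 := refl_fac (p := p) h5 (6 * j) (6 * j) (by omega)
  have e1 := third0 (p := p) h5 j hj
  have e2 := half0 (p := p) h5 j hj
  have e3 := sixth0 (p := p) h5 j hj
  have h2N := two_nL (p := p)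
  push_cast at *
  linear_combination (norm := module) d1 + d2 - r1 + r2 + (-2 : ℤ) • e1 + (-4 : ℤ) • e2 + (-1 : ℤ) • e3
    + (2 * j : ℤ) • h2N

/-! ### relations, `p = 12 j + 5` -/

lemma half1 (h5 : 5 ≤ p) (j : ℕ) (hj : 12 * j + 5 = p) : (3 : ℤ) • hL p (6 * j + 2) = (2 : ℤ) • hL p (3 * j + 1) := by
  have d := dup_hL (p := p) (6 * j + 2) (3 * j + 1) (by omega) (by omega)
  rw [show 6 * j + 2 - (3 * j + 1) = 3 * j + 1 by omega, show 2 * (3 * j + 1) = 6 * j + 2 by ring] at d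
  linear_combination (norm := module) d

lemma sixth1 (h5 : 5 ≤ p) (j : ℕ) (hj : 12 * j + 5 = p) :
    (2 : ℤ) • hL p (2 * j) = hL p j - hL p (6 * j + 2) + hL p (5 * j + 2) := by
  have d := dup_hL (p := p) (6 * j + 2) j (by omega) (by omega)
  rw [show 6 * j + 2 - j = 5 * j + 2 by omega] at d
  exact d

lemma third1 (h5 : 5 ≤ p) (j : ℕ) (hj : 12 * j + 5 = p) :
    hL p (4 * j + 1) = hL p (2 * j) - hL p (6 * j + 2) := by
  have d := dup_hL (p := p) (6 * j + 2) (2 * j) (by omega) (by omega)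
  rw [show 6 * j + 2 - 2 * j = 4 * j + 1 + 1 by omega, show 2 * (2 * j) = 4 * j by ring] at d
  have e1 : hL p (4 * j + 1) = hL p (4 * j) + dL ((((4 * j + 1 : ℕ) : ZMod (p ^ 2)))⁻¹) := by
    unfold hL; rw [hN_succ, dL_add]
  have e2 : hL p (4 * j + 1 + 1) = hL p (4 * j + 1) + dL ((((4 * j + 1 + 1 : ℕ) : ZMod (p ^ 2)))⁻¹) := by
    unfold hL; rw [hN_succ, dL_add]
  have i1 := unit_mul_inv (isUnit_nat (p := p) (a := 4 * j + 1) (not_dvd_of_lt (by omega) (by omega)))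
  have i2 := unit_mul_inv (isUnit_nat (p := p) (a := 4 * j + 1 + 1) (not_dvd_of_lt (by omega) (by omega)))
  have hpe : (p : ZMod (p ^ 2)) = 12 * (j : ZMod (p ^ 2)) + 5 := by
    have := congrArg (fun z : ℕ => (z : ZMod (p ^ 2))) hj
    push_cast at this
    exact this.symm
  -- 2/(4j+1) = -3, 1/(4j+2) = 3 after multiplication by p
  have f1 : (2 : ℤ) • dL ((((4 * j + 1 : ℕ) : ZMod (p ^ 2)))⁻¹) = dL (-3 : ZMod (p ^ 2)) := by
    have h := dL_nat (p := p) 2 ((((4 * j + 1 : ℕ) : ZMod (p ^ 2)))⁻¹)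
    simp only [Nat.cast_ofNat] at h
    rw [← h]
    apply dL_congr
    set X := ((4 * j + 1 : ℕ) : ZMod (p ^ 2)) with hX
    have hX3 : 3 * X = (p : ZMod (p ^ 2)) - 2 := by
      rw [hX, hpe]; push_cast; ring
    linear_combination (-3 * (p : ZMod (p ^ 2))) * i1 + (p : ZMod (p ^ 2)) * X⁻¹ * hX3 + X⁻¹ * P_sq (p := p)
  have f2 : dL ((((4 * j + 1 + 1 : ℕ) : ZMod (p ^ 2)))⁻¹) = dL (3 : ZMod (p ^ 2)) := by
    apply dL_congr
    set X := ((4 * j + 1 + 1 : ℕ) : ZMod (p ^ 2)) with hX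
    have hX3 : 3 * X = (p : ZMod (p ^ 2)) + 1 := by
      rw [hX, hpe]; push_cast; ring
    linear_combination (3 * (p : ZMod (p ^ 2))) * i2 - (p : ZMod (p ^ 2)) * X⁻¹ * hX3 - X⁻¹ * P_sq (p := p)
  have f3 : dL (-3 : ZMod (p ^ 2)) = - dL (3 : ZMod (p ^ 2)) := dL_neg _
  rw [e2] at d
  linear_combination (norm := module) d + (2 : ℤ) • e1 + f1 + f2 + f3

lemma lerch1 (h5 : 5 ≤ p) (j : ℕ) (hj : 12 * j + 5 = p) :
    (12 * j + 4 : ℤ) • uL ((3 : ℕ) : ZMod (p ^ 2)) = (-8 : ℤ) • hL p (4 * j + 1) := by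
  have t := tri_fac1 (p := p) h5 (4 * j + 1) (8 * j + 3) 2 (4 * j + 1) 1 (by omega) (by omega) (by omega) (by omega)
    (by omega) (by omega) (by omega)
  rw [Nat.sub_self, show 8 * j + 3 - (4 * j + 1 + 1) = 4 * j + 1 by omega, fL_zero, hL_zero] at t
  have r := refl_fac (p := p) h5 (4 * j + 1) (8 * j + 3) (by omega)
  have rh := refl_hL (p := p) h5 (4 * j + 1) (8 * j + 3) (by omega)
  rw [show 3 * (4 * j + 1) + 1 = p - 1 by omega] at t
  have h2N := two_nL (p := p)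
  push_cast at *
  linear_combination (norm := module) (-1 : ℤ) • t - r - (8 : ℤ) • rh - (2 * j + 1 : ℤ) • h2N

lemma nfac1 (h5 : 5 ≤ p) (j : ℕ) (hj : 12 * j + 5 = p) :
    (2 : ℤ) • fL p (3 * j + 1) = (3 * j + 1 : ℤ) • uL ((3 : ℕ) : ZMod (p ^ 2)) + fL p j + fL p (5 * j + 2) +
      (j : ℤ) • nL p - (4 : ℤ) • hL p (5 * j + 2) + (4 : ℤ) • hL p (3 * j + 1) := by
  have t := tri_fac1 (p := p) h5 j (8 * j + 3) 2 (4 * j + 1) 1 (by omega) (by omega) (by omega) (by omega)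
    (by omega) (by omega) (by omega)
  rw [show 8 * j + 3 - (j + 1) = 7 * j + 2 by omega, show 4 * j + 1 - j = 3 * j + 1 by omega] at t
  have r1 := refl_fac (p := p) h5 (4 * j + 1) (8 * j + 3) (by omega)
  have r2 := refl_fac (p := p) h5 (5 * j + 2) (7 * j + 2) (by omega)
  have rh1 := refl_hL (p := p) h5 (4 * j + 1) (8 * j + 3) (by omega)
  have rh2 := refl_hL (p := p) h5 (5 * j + 2) (7 * j + 2) (by omega)
  have h2N := two_nL (p := p)
  push_cast at *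
  linear_combination (norm := module) t + r1 - r2 + (8 : ℤ) • rh1 - (8 : ℤ) • rh2 - (j : ℤ) • h2N

/-- evaluation of family U, `p = 12 j + 5` -/
theorem U_log1 (h5 : 5 ≤ p) (j : ℕ) (hj : 12 * j + 5 = p) :
    Pint p (3 / 2 * ∏ i ∈ range j, (27 * (3 * (i : ℚ) + 2) ^ 2 / (4 * (12 * i + 5) * (12 * i + 11)))) ∧
    IsUnit (phi p (3 / 2 * ∏ i ∈ range j, (27 * (3 * (i : ℚ) + 2) ^ 2 / (4 * (12 * i + 5) * (12 * i + 11))))) ∧
    uL (phi p (3 / 2 * ∏ i ∈ range j, (27 * (3 * (i : ℚ) + 2) ^ 2 / (4 * (12 * i + 5) * (12 * i + 11))))) =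
      nL p + (3 * j + 1 : ℤ) • uL ((3 : ℕ) : ZMod (p ^ 2)) + fL p (6 * j + 2) - (2 : ℤ) • fL p (3 * j + 1) +
        (8 : ℤ) • hL p (6 * j + 2) := by
  have a1 := prod_ap (p := p) h5 3 2 (4 * j + 1) 1 4 j (by omega) (by omega) (by omega) (by norm_num)
  have a2 := prod_ap (p := p) h5 12 5 j 1 1 j (by omega) (by omega) (by omega) (by norm_num)
  have a3 := prod_ap (p := p) h5 12 11 (7 * j + 2) 7 1 j (by omega) (by omega) (by omega) (by norm_num)
  have hDe : ∏ i ∈ range j, ((4 * (12 * i + 5) * (12 * i + 11) : ℕ) : ZMod (p ^ 2)) =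
      ((2 : ℕ) : ZMod (p ^ 2)) ^ (2 * j) * (∏ i ∈ range j, ((12 * i + 5 : ℕ) : ZMod (p ^ 2))) *
        ∏ i ∈ range j, ((12 * i + 11 : ℕ) : ZMod (p ^ 2)) := by
    rw [pow_mul, ← card_range j, ← prod_const, card_range, ← prod_mul_distrib, ← prod_mul_distrib]
    apply prod_congr rfl
    intro i _
    push_cast; ring
  have hUe : ∏ i ∈ range j, ((27 * (3 * i + 2) ^ 2 : ℕ) : ZMod (p ^ 2)) =
      ((3 : ℕ) : ZMod (p ^ 2)) ^ (3 * j) * (∏ i ∈ range j, ((3 * i + 2 : ℕ) : ZMod (p ^ 2))) ^ 2 := by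
    rw [pow_mul, ← card_range j, ← prod_const, card_range, ← prod_pow, ← prod_mul_distrib]
    apply prod_congr rfl
    intro i _
    push_cast; ring
  have hD1 : IsUnit (((2 : ℕ) : ZMod (p ^ 2)) ^ (2 * j) * (∏ i ∈ range j, ((12 * i + 5 : ℕ) : ZMod (p ^ 2))) *
        ∏ i ∈ range j, ((12 * i + 11 : ℕ) : ZMod (p ^ 2))) := (((u2 h5).pow _).mul a2.1).mul a3.1
  have hU1 : IsUnit (((3 : ℕ) : ZMod (p ^ 2)) ^ (3 * j) * (∏ i ∈ range j, ((3 * i + 2 : ℕ) : ZMod (p ^ 2))) ^ 2) :=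
    ((u3 h5).pow _).mul (a1.1.pow 2)
  have hf := frac_prod (p := p) j (fun i => (27 * (3 * (i : ℚ) + 2) ^ 2 / (4 * (12 * i + 5) * (12 * i + 11))))
    (fun i => 27 * (3 * i + 2) ^ 2) (fun i => 4 * (12 * i + 5) * (12 * i + 11))
    (fun i _ => by push_cast; field_simp) (by rw [hDe]; exact hD1)
  rw [hUe, hDe] at hf
  have hq := uL_quot hf.2 hU1
  have h32 : Pint p (3 / 2 : ℚ) ∧ phi p (3 / 2 : ℚ) * ((2 : ℕ) : ZMod (p ^ 2)) = ((3 : ℕ) : ZMod (p ^ 2)) := by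
    have := phi_frac (p := p) (r := 3 / 2) (N := 3) (D := 2) (not_dvd_of_lt (by norm_num) (by omega)) (by norm_num)
    push_cast at this ⊢
    exact this
  have h32q := uL_quot h32.2 (u3 h5)
  have hm := Pint_mul (p := p) h32.1 hf.1
  refine ⟨hm.1, ?_, ?_⟩
  · rw [hm.2]; exact h32q.1.mul hq.1
  rw [hm.2, uL_mul h32q.1 hq.1, h32q.2, hq.2, uL_mul ((u3 h5).pow _) (a1.1.pow 2), uL_mul (((u2 h5).pow _).mul a2.1) a3.1,
    uL_mul ((u2 h5).pow _) a2.1, uL_pow (u3 h5), uL_pow (u2 h5), uL_pow a1.1, a1.2, a2.2, a3.2, L12 h5]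
  rw [show 4 * j + 1 - j = 3 * j + 1 by omega, show 7 * j + 2 - j = 6 * j + 2 by omega, Nat.sub_self, fL_zero, hL_zero,
    ← refl_hL h5 (5 * j + 2) (7 * j + 2) (by omega)]
  have d1 := dup_fac (p := p) h5 (6 * j + 2) j (by omega) (by omega)
  have d2 := dup_fac (p := p) h5 (6 * j + 2) (2 * j + 1) (by omega) (by omega)
  rw [show 6 * j + 2 - j = 5 * j + 2 by omega] at d1
  rw [show 6 * j + 2 - (2 * j + 1) = 4 * j + 1 by omega, show 2 * (2 * j + 1) = 4 * j + 1 + 1 by ring,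
    fL_succ (s := 4 * j + 1) (by omega), fL_succ (s := 2 * j) (by omega)] at d2
  have e0 : uL (((4 * j + 1 + 1 : ℕ)) : ZMod (p ^ 2)) = uL ((2 : ℕ) : ZMod (p ^ 2)) +
      uL (((2 * j + 1 : ℕ)) : ZMod (p ^ 2)) := by
    rw [← uL_mul (u2 h5) (isUnit_nat (not_dvd_of_lt (by omega) (by omega)))]
    congr 1
    push_cast; ring
  rw [e0] at d2
  have r1 := refl_fac (p := p) h5 (5 * j + 2) (7 * j + 2) (by omega)
  have r2 := refl_fac (p := p) h5 (6 * j + 2) (6 * j + 2) (by omega)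
  have e1 := third1 (p := p) h5 j hj
  have e2 := half1 (p := p) h5 j hj
  have e3 := sixth1 (p := p) h5 j hj
  have h2N := two_nL (p := p)
  push_cast at *
  linear_combination (norm := module) d1 + d2 - r1 + r2 + (-2 : ℤ) • e1 + (-4 : ℤ) • e2 + (-1 : ℤ) • e3
    + (2 * j : ℤ) • h2N

end Pool.Agent.Lib.MP_8312d7
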