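import Pool.Agent.Lib.MP_8312d7.Eval2

/-!
Evaluation modulo `p ^ 2` of the second sum.
-/

open Finset

set_option linter.unusedSectionVars false

namespace Pool.Agent.Lib.MP_8312d7

variable {p : ℕ} [hp : Fact p.Prime]

lemma frac_prod_int (k : ℕ) (x : ℕ → ℚ) (U : ℕ → ℤ) (D : ℕ → ℕ) (h : ∀ i < k, x i * D i = U i)
    (hD : IsUnit (∏ i ∈ range k, ((D i : ℕ) : ZMod (p ^ 2)))) :
    Pint p (∏ i ∈ range k, x i) ∧
      phi p (∏ i ∈ range k, x i) * ∏ i ∈ range k, ((D i : ℕ) : ZMod (p ^ 2)) =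
        ∏ i ∈ range k, ((U i : ℤ) : ZMod (p ^ 2)) := by
  rw [IsUnit.prod_iff] at hD
  have h1 : ∀ i ∈ range k, Pint p (x i) ∧ phi p (x i) * (D i : ZMod (p ^ 2)) = ((U i : ℤ) : ZMod (p ^ 2)) := by
    intro i hi
    exact phi_frac (isUnit_nat_iff.1 (hD i hi)) (by rw [h i (mem_range.1 hi)])
  have h2 := Pint_prod (p := p) (range k) x (fun i hi => (h1 i hi).1)
  refine ⟨h2.1, ?_⟩
  rw [h2.2, ← prod_mul_distrib]
  apply prod_congr rfl
  intro i hi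
  rw [(h1 i hi).2]

lemma prod_sub (k : ℕ) (x : ℕ → ZMod (p ^ 2)) (hx : ∀ i < k, IsUnit (x i)) (c : ZMod (p ^ 2)) :
    ∏ i ∈ range k, (x i - c * (p : ZMod (p ^ 2))) =
      (∏ i ∈ range k, x i) * (1 - (p : ZMod (p ^ 2)) * (c * ∑ i ∈ range k, (x i)⁻¹)) := by
  induction k with
  | zero => simp
  | succ k ih =>
    have ih := ih (fun i hi => hx i (by omega))
    have h1 := unit_mul_inv (hx k (by omega))
    rw [prod_range_succ, prod_range_succ, sum_range_succ, ih]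
    set A := ∏ i ∈ range k, x i
    set B := ∑ i ∈ range k, (x i)⁻¹
    linear_combination (p : ZMod (p ^ 2)) * c * A * h1 + A * c ^ 2 * B * P_sq (p := p)

lemma sum_ap (h5 : 5 ≤ p) (d r s c D k : ℕ) (h : d * s + r = c * p) (hs : s < p) (hk : k ≤ s)
    (hD : d * D = 12) :
    (p : ZMod (p ^ 2)) * ((d : ZMod (p ^ 2)) * ∑ i ∈ range k, (((d * i + r : ℕ) : ZMod (p ^ 2)))⁻¹) =
      (p : ZMod (p ^ 2)) * (-(hN p s - hN p (s - k))) := by
  induction k with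
  | zero => simp
  | succ k ih =>
    have ih := ih (by omega)
    obtain ⟨t, ht⟩ : ∃ t, s - k = t + 1 := ⟨s - k - 1, by omega⟩
    have ht' : s - (k + 1) = t := by omega
    have hap := (prod_ap (p := p) h5 d r s c D (k + 1) h hs hk hD).1
    rw [IsUnit.prod_iff] at hap
    have h1 := unit_mul_inv (hap k (mem_range.2 (by omega)))
    have h2 := unit_mul_inv (isUnit_nat (p := p) (a := t + 1) (not_dvd_of_lt (by omega) (by omega)))
    have h3 : ((d * k + r : ℕ) : ZMod (p ^ 2)) = (c : ZMod (p ^ 2)) * (p : ZMod (p ^ 2)) -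
        (d : ZMod (p ^ 2)) * ((t + 1 : ℕ) : ZMod (p ^ 2)) := by
      have h3' : (d * k + r) + d * (t + 1) = c * p := by
        rw [← h, show s = k + (t + 1) by omega]; ring
      have h4 := congrArg (fun z : ℕ => (z : ZMod (p ^ 2))) h3'
      push_cast at h4 ⊢
      linear_combination h4
    rw [ht, hN_succ] at ih
    rw [sum_range_succ, ht']
    set X := (((d * k + r : ℕ) : ZMod (p ^ 2))) with hX
    set Y := (((t + 1 : ℕ) : ZMod (p ^ 2))) with hY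
    have hPX : (p : ZMod (p ^ 2)) * X = -(d : ZMod (p ^ 2)) * (p : ZMod (p ^ 2)) * Y := by
      rw [h3]; linear_combination (c : ZMod (p ^ 2)) * P_sq (p := p)
    have h6 : (p : ZMod (p ^ 2)) * ((d : ZMod (p ^ 2)) * X⁻¹) = (p : ZMod (p ^ 2)) * (- Y⁻¹) := by
      linear_combination (-(p : ZMod (p ^ 2)) * Y⁻¹) * h1 -
        ((d : ZMod (p ^ 2)) * (p : ZMod (p ^ 2)) * X⁻¹) * h2 + X⁻¹ * Y⁻¹ * hPX
    linear_combination ih + h6

/-- The B-difference. -/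
lemma B_diff (h5 : 5 ≤ p) (m s c' c : ℕ) (hm : 2 * m + 1 = p) (hs : 12 * s + 7 = c' * p) (hsp : s < p)
    (hms : m ≤ s) :
    (Pint p (∏ i ∈ range m, ((1 / 6 + 1 + 2 * (i : ℚ)) / (2 * i + 1)))) ∧
    (Pint p (∏ i ∈ range m, ((1 / 6 - (c : ℚ) * p / 6 + 1 + 2 * (i : ℚ)) / (2 * i + 1)))) ∧
    phi p (∏ i ∈ range m, ((1 / 6 + 1 + 2 * (i : ℚ)) / (2 * i + 1))) -
      phi p (∏ i ∈ range m, ((1 / 6 - (c : ℚ) * p / 6 + 1 + 2 * (i : ℚ)) / (2 * i + 1))) =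
    phi p (∏ i ∈ range m, ((1 / 6 + 1 + 2 * (i : ℚ)) / (2 * i + 1))) *
      ((p : ZMod (p ^ 2)) * ((c : ZMod (p ^ 2)) * ∑ i ∈ range m, (((12 * i + 7 : ℕ) : ZMod (p ^ 2)))⁻¹)) := by
  have a1 := prod_ap (p := p) h5 2 1 m 1 6 m (by omega) (by omega) le_rfl (by norm_num)
  have a2 := prod_ap (p := p) h5 12 7 s c' 1 m hs hsp hms (by norm_num)
  have hDe : ∏ i ∈ range m, ((6 * (2 * i + 1) : ℕ) : ZMod (p ^ 2)) =
      (((2 : ℕ) : ZMod (p ^ 2)) * ((3 : ℕ) : ZMod (p ^ 2))) ^ m * (∏ i ∈ range m, ((2 * i + 1 : ℕ) : ZMod (p ^ 2))) := by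
    rw [← card_range m, ← prod_const, card_range, ← prod_mul_distrib]
    apply prod_congr rfl
    intro i _
    push_cast; ring
  have hD1 : IsUnit (∏ i ∈ range m, ((6 * (2 * i + 1) : ℕ) : ZMod (p ^ 2))) := by
    rw [hDe]
    exact (((u2 h5).mul (u3 h5)).pow _).mul a1.1
  have f0 := frac_prod_int (p := p) m (fun i => ((1 / 6 + 1 + 2 * (i : ℚ)) / (2 * i + 1)))
    (fun i => 12 * i + 7) (fun i => 6 * (2 * i + 1)) (fun i _ => by push_cast; field_simp; ring) hD1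
  have f1 := frac_prod_int (p := p) m (fun i => ((1 / 6 - (c : ℚ) * p / 6 + 1 + 2 * (i : ℚ)) / (2 * i + 1)))
    (fun i => 12 * i + 7 - c * p) (fun i => 6 * (2 * i + 1)) (fun i _ => by push_cast; field_simp; ring) hD1
  refine ⟨f0.1, f1.1, ?_⟩
  apply hD1.mul_right_cancel
  have g1 : ∏ i ∈ range m, (((12 * (i : ℤ) + 7 - c * p : ℤ)) : ZMod (p ^ 2)) =
      ∏ i ∈ range m, (((12 * i + 7 : ℕ) : ZMod (p ^ 2)) - (c : ZMod (p ^ 2)) * (p : ZMod (p ^ 2))) := by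
    apply prod_congr rfl
    intro i _
    push_cast; ring
  have g0 : ∏ i ∈ range m, (((12 * (i : ℤ) + 7 : ℤ)) : ZMod (p ^ 2)) =
      ∏ i ∈ range m, (((12 * i + 7 : ℕ) : ZMod (p ^ 2))) := by
    apply prod_congr rfl
    intro i _
    push_cast; ring
  have hx : ∀ i < m, IsUnit (((12 * i + 7 : ℕ) : ZMod (p ^ 2))) := by
    have := a2.1
    rw [IsUnit.prod_iff] at this
    exact fun i hi => this i (mem_range.2 hi)
  have f0' := f0.2
  have f1' := f1.2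
  rw [g1, prod_sub m _ hx] at f1'
  rw [g0] at f0'
  rw [sub_mul, f0', f1']
  linear_combination (-((p : ZMod (p ^ 2)) * ((c : ZMod (p ^ 2)) * ∑ i ∈ range m, (((12 * i + 7 : ℕ) : ZMod (p ^ 2)))⁻¹))) * f0'

/-- the closed form of family A -/
lemma A_log (h5 : 5 ≤ p) (m s : ℕ) (hm : 2 * m + 1 = p) (hs : s ≤ m) :
    Pint p (∏ i ∈ range s, ((2 * (i : ℚ) + 1) / (2 * i + 2))) ∧
    IsUnit (phi p (∏ i ∈ range s, ((2 * (i : ℚ) + 1) / (2 * i + 2)))) ∧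
    uL (phi p (∏ i ∈ range s, ((2 * (i : ℚ) + 1) / (2 * i + 2)))) =
      (s : ℤ) • nL p + fL p m - fL p (m - s) - fL p s - (6 : ℤ) • (hL p m - hL p (m - s)) := by
  have a1 := prod_ap (p := p) h5 2 1 m 1 6 s (by omega) (by omega) hs (by norm_num)
  have hfac : ∀ s : ℕ, ∏ i ∈ range s, ((2 * i + 2 : ℕ) : ZMod (p ^ 2)) =
      ((2 : ℕ) : ZMod (p ^ 2)) ^ s * (s.factorial : ZMod (p ^ 2)) := by
    intro s
    induction s with
    | zero => simp
    | succ s ih =>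
      rw [prod_range_succ, ih, Nat.factorial_succ, pow_succ ((2 : ℕ) : ZMod (p ^ 2)) s]
      push_cast; ring
  have hus := isUnit_fac (p := p) (s := s) (by omega)
  have hD1 : IsUnit (∏ i ∈ range s, ((2 * i + 2 : ℕ) : ZMod (p ^ 2))) := by
    rw [hfac]
    exact ((u2 h5).pow _).mul hus
  have f := frac_prod (p := p) s (fun i => ((2 * (i : ℚ) + 1) / (2 * i + 2)))
    (fun i => 2 * i + 1) (fun i => 2 * i + 2) (fun i _ => by push_cast; field_simp) hD1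
  have hq := uL_quot f.2 a1.1
  refine ⟨f.1, hq.1, ?_⟩
  rw [hq.2, a1.2, hfac, uL_mul ((u2 h5).pow _) hus, uL_pow (u2 h5)]
  have h4 : uL ((s.factorial : ℕ) : ZMod (p ^ 2)) = fL p s := rfl
  rw [h4]
  push_cast
  module

lemma p_dL (x : ZMod (p ^ 2)) : (p : ℤ) • dL x = 0 := by
  rw [← dL_nat]
  unfold dL
  have : eL (((12 : ℕ) : ZMod (p ^ 2))⁻¹ * ((p : ZMod (p ^ 2)) * x)) = eL (0 : ZMod (p ^ 2)) := by
    apply eL_congr
    linear_combination ((12 : ℕ) : ZMod (p ^ 2))⁻¹ * x * P_sq (p := p)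
  rw [this, eL_zero]

/-- the value `C(2n,n) (1 + p H_{2n} / 4)` -/
noncomputable def TT (p n : ℕ) : ZMod (p ^ 2) :=
  ((2 * n).choose n : ZMod (p ^ 2)) * (1 + (p : ZMod (p ^ 2)) * (((12 : ℕ) : ZMod (p ^ 2))⁻¹ * (3 * hN p (2 * n))))

lemma TT_log (h5 : 5 ≤ p) (n : ℕ) (hn : 4 * n + 1 = p) :
    IsUnit (TT p n) ∧ uL (TT p n) = fL p (2 * n) - (2 : ℤ) • fL p n + (3 : ℤ) • hL p (2 * n) := by
  have h1 : ((2 * n).choose n : ZMod (p ^ 2)) * ((n.factorial : ZMod (p ^ 2)) * (n.factorial : ZMod (p ^ 2))) =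
      ((2 * n).factorial : ZMod (p ^ 2)) := by
    have h2 := Nat.choose_mul_factorial_mul_factorial (show n ≤ 2 * n by omega)
    rw [show 2 * n - n = n by omega] at h2
    rw [← h2]; push_cast; ring
  have hu := isUnit_fac (p := p) (s := n) (by omega)
  have hq := uL_quot h1 (isUnit_fac (p := p) (s := 2 * n) (by omega))
  unfold TT
  refine ⟨hq.1.mul (isUnit_oneP _), ?_⟩
  rw [uL_mul hq.1 (isUnit_oneP _), hq.2, uL_mul hu hu]
  have h3 : uL (1 + (p : ZMod (p ^ 2)) * (((12 : ℕ) : ZMod (p ^ 2))⁻¹ * (3 * hN p (2 * n)))) =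
      (3 : ℤ) • hL p (2 * n) := by
    have := dL_nat (p := p) 3 (hN p (2 * n))
    simp only [Nat.cast_ofNat] at this
    exact this
  rw [h3]
  have h4 : uL ((n.factorial : ℕ) : ZMod (p ^ 2)) = fL p n := rfl
  have h5 : uL (((2 * n).factorial : ℕ) : ZMod (p ^ 2)) = fL p (2 * n) := rfl
  rw [h4, h5]
  module

lemma tau_log0 (h5 : 5 ≤ p) (j : ℕ) (hj : 12 * j + 1 = p) :
    uL (((3 : ℕ) : ZMod (p ^ 2)) ^ (3 * j * p)) = (3 * j : ℤ) • uL ((3 : ℕ) : ZMod (p ^ 2)) +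
      (2 : ℤ) • hL p (4 * j) := by
  rw [uL_pow (u3 h5)]
  have l := lerch0 (p := p) h5 j hj
  have q := p_dL (p := p) (hN p (4 * j))
  have hc : (p : ℤ) = 12 * j + 1 := by rw [← hj]; push_cast; ring
  rw [hc] at q
  have q' : (12 * (j : ℤ) + 1) • hL p (4 * j) = 0 := q
  push_cast
  rw [hc]
  linear_combination (norm := module) (3 * j : ℤ) • l + (-2 : ℤ) • q'

lemma tau_log1 (h5 : 5 ≤ p) (j : ℕ) (hj : 12 * j + 5 = p) :
    uL (((3 : ℕ) : ZMod (p ^ 2)) ^ ((3 * j + 1) * p)) = (3 * j + 1 : ℤ) • uL ((3 : ℕ) : ZMod (p ^ 2)) +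
      (2 : ℤ) • hL p (4 * j + 1) := by
  rw [uL_pow (u3 h5)]
  have l := lerch1 (p := p) h5 j hj
  have q := p_dL (p := p) (hN p (4 * j + 1))
  have hc : (p : ℤ) = 12 * j + 5 := by rw [← hj]; push_cast; ring
  rw [hc] at q
  have q' : (12 * (j : ℤ) + 5) • hL p (4 * j + 1) = 0 := q
  push_cast
  rw [hc]
  linear_combination (norm := module) (3 * j + 1 : ℤ) • l + (-2 : ℤ) • q'

end Pool.Agent.Lib.MP_8312d7
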