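import Pool.Agent.Lib.MP_8312d7.Basic

/-!
Factorials and harmonic numbers modulo `p ^ 2`, written additively in the unit group.
-/

open Finset

set_option linter.unusedSectionVars false

namespace Pool.Agent.Lib.MP_8312d7

variable {p : ℕ} [hp : Fact p.Prime]

open Classical in
/-- logarithm: a unit of `ZMod (p ^ 2)` as an element of the additive group of units. -/
noncomputable def uL (x : ZMod (p ^ 2)) : Additive (ZMod (p ^ 2))ˣ :=
  if h : IsUnit x then Additive.ofMul h.unit else 0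

lemma uL_of {x : ZMod (p ^ 2)} (h : IsUnit x) : uL x = Additive.ofMul h.unit := by
  unfold uL; rw [dif_pos h]

lemma uL_mul {x y : ZMod (p ^ 2)} (hx : IsUnit x) (hy : IsUnit y) : uL (x * y) = uL x + uL y := by
  rw [uL_of hx, uL_of hy, uL_of (hx.mul hy), ← ofMul_mul]
  congr 1
  ext
  simp

lemma uL_one : uL (1 : ZMod (p ^ 2)) = 0 := by
  rw [uL_of isUnit_one]
  have : (isUnit_one : IsUnit (1 : ZMod (p ^ 2))).unit = 1 := by ext; simp
  rw [this]; rfl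

lemma uL_inj {x y : ZMod (p ^ 2)} (hx : IsUnit x) (hy : IsUnit y) (h : uL x = uL y) : x = y := by
  rw [uL_of hx, uL_of hy] at h
  have h1 : hx.unit = hy.unit := Additive.ofMul.injective h
  have h2 := congrArg (fun u : (ZMod (p ^ 2))ˣ => (u : ZMod (p ^ 2))) h1
  simpa using h2

lemma uL_pow {x : ZMod (p ^ 2)} (hx : IsUnit x) (k : ℕ) : uL (x ^ k) = (k : ℤ) • uL x := by
  induction k with
  | zero => simp [uL_one]
  | succ k ih =>
    rw [pow_succ x k, uL_mul (hx.pow k) hx, ih]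
    push_cast
    module

lemma uL_inv {x y : ZMod (p ^ 2)} (h : x * y = 1) : uL y = - uL x := by
  have hx : IsUnit x := IsUnit.of_mul_eq_one y h
  have hy : IsUnit y := IsUnit.of_mul_eq_one x (by rw [mul_comm]; exact h)
  have h1 := uL_mul hx hy
  rw [h, uL_one] at h1
  rw [eq_neg_iff_add_eq_zero, add_comm]; exact h1.symm

lemma uL_prod {ι : Type*} (s : Finset ι) (f : ι → ZMod (p ^ 2)) (h : ∀ i ∈ s, IsUnit (f i)) :
    uL (∏ i ∈ s, f i) = ∑ i ∈ s, uL (f i) := by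
  classical
  induction s using Finset.induction_on with
  | empty => simp [uL_one]
  | insert a s ha ih =>
    rw [prod_insert ha, sum_insert ha, uL_mul (h a (mem_insert_self _ _)), ih]
    · exact fun i hi => h i (mem_insert_of_mem hi)
    · rw [IsUnit.prod_iff]
      exact fun i hi => h i (mem_insert_of_mem hi)

/-- the class of `-1` -/
noncomputable def nL (p : ℕ) [Fact p.Prime] : Additive (ZMod (p ^ 2))ˣ := uL (-1 : ZMod (p ^ 2))

lemma two_nL : (2 : ℤ) • nL p = 0 := by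
  unfold nL
  have h := uL_mul (p := p) (isUnit_one.neg) (isUnit_one.neg)
  rw [neg_one_mul, neg_neg, uL_one] at h
  linear_combination (norm := module) -h

lemma isUnit_oneP (x : ZMod (p ^ 2)) : IsUnit (1 + (p : ZMod (p ^ 2)) * x) := by
  apply IsUnit.of_mul_eq_one (1 - (p : ZMod (p ^ 2)) * x)
  linear_combination (-x ^ 2) * P_sq (p := p)

/-- the class of `1 + p x` -/
noncomputable def eL (x : ZMod (p ^ 2)) : Additive (ZMod (p ^ 2))ˣ := uL (1 + (p : ZMod (p ^ 2)) * x)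

lemma eL_add (x y : ZMod (p ^ 2)) : eL (x + y) = eL x + eL y := by
  unfold eL
  rw [← uL_mul (isUnit_oneP x) (isUnit_oneP y)]
  congr 1
  linear_combination (-x * y) * P_sq (p := p)

lemma eL_zero : eL (0 : ZMod (p ^ 2)) = 0 := by
  unfold eL; rw [mul_zero, add_zero, uL_one]

lemma eL_neg (x : ZMod (p ^ 2)) : eL (-x) = - eL x := by
  have := eL_add (-x) x
  rw [neg_add_cancel, eL_zero] at this
  exact (neg_eq_of_add_eq_zero_left this.symm).symm

lemma eL_sub (x y : ZMod (p ^ 2)) : eL (x - y) = eL x - eL y := by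
  rw [sub_eq_add_neg, eL_add, eL_neg, sub_eq_add_neg]

lemma eL_nat (n : ℕ) (x : ZMod (p ^ 2)) : eL ((n : ZMod (p ^ 2)) * x) = (n : ℤ) • eL x := by
  induction n with
  | zero => simp [eL_zero]
  | succ n ih =>
    push_cast
    rw [add_mul, one_mul, eL_add, ih]
    module

lemma eL_congr {x y : ZMod (p ^ 2)} (h : (p : ZMod (p ^ 2)) * x = (p : ZMod (p ^ 2)) * y) :
    eL x = eL y := by
  unfold eL; rw [h]

lemma eL_inj {x y : ZMod (p ^ 2)} (h : eL x = eL y) :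
    (p : ZMod (p ^ 2)) * x = (p : ZMod (p ^ 2)) * y := by
  have := uL_inj (isUnit_oneP x) (isUnit_oneP y) h
  exact add_left_cancel this

/-- the class of `1 + p x / 12` -/
noncomputable def dL (x : ZMod (p ^ 2)) : Additive (ZMod (p ^ 2))ˣ :=
  eL (((12 : ℕ) : ZMod (p ^ 2))⁻¹ * x)

lemma dL_add (x y : ZMod (p ^ 2)) : dL (x + y) = dL x + dL y := by
  unfold dL; rw [mul_add, eL_add]

lemma dL_zero : dL (0 : ZMod (p ^ 2)) = 0 := by
  unfold dL; rw [mul_zero, eL_zero]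

lemma dL_neg (x : ZMod (p ^ 2)) : dL (-x) = - dL x := by
  unfold dL; rw [mul_neg, eL_neg]

lemma dL_sub (x y : ZMod (p ^ 2)) : dL (x - y) = dL x - dL y := by
  unfold dL; rw [mul_sub, eL_sub]

lemma dL_nat (n : ℕ) (x : ZMod (p ^ 2)) : dL ((n : ZMod (p ^ 2)) * x) = (n : ℤ) • dL x := by
  unfold dL; rw [← eL_nat]; congr 1; ring

lemma dL_congr {x y : ZMod (p ^ 2)} (h : (p : ZMod (p ^ 2)) * x = (p : ZMod (p ^ 2)) * y) :
    dL x = dL y := by
  unfold dL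
  apply eL_congr
  linear_combination ((12 : ℕ) : ZMod (p ^ 2))⁻¹ * h

lemma not_dvd_of_lt {a : ℕ} (h0 : 0 < a) (h : a < p) : ¬ p ∣ a := fun h1 =>
  absurd (Nat.le_of_dvd h0 h1) (by omega)

lemma p_not_dvd_12 (h5 : 5 ≤ p) : ¬ p ∣ 12 := by
  intro h
  have h1 : p ∣ 2 * 2 * 3 := by simpa using h
  rcases (Nat.Prime.dvd_mul hp.out).1 h1 with h2 | h2
  · rcases (Nat.Prime.dvd_mul hp.out).1 h2 with h3 | h3
    · exact not_dvd_of_lt (by norm_num) (by omega) h3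
    · exact not_dvd_of_lt (by norm_num) (by omega) h3
  · exact not_dvd_of_lt (by norm_num) (by omega) h2

lemma inv12 (h5 : 5 ≤ p) : ((12 : ℕ) : ZMod (p ^ 2)) * ((12 : ℕ) : ZMod (p ^ 2))⁻¹ = 1 :=
  unit_mul_inv (isUnit_nat (p_not_dvd_12 h5))

lemma eL_eq_dL (h5 : 5 ≤ p) (x : ZMod (p ^ 2)) : eL x = (12 : ℤ) • dL x := by
  have h := dL_nat (p := p) 12 x
  push_cast at h
  rw [← h]
  unfold dL
  congr 1
  have := inv12 (p := p) h5
  push_cast at this
  push_cast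
  linear_combination (-x) * this

/-- class of a factorial -/
noncomputable def fL (p : ℕ) [Fact p.Prime] (s : ℕ) : Additive (ZMod (p ^ 2))ˣ :=
  uL ((s.factorial : ℕ) : ZMod (p ^ 2))

/-- harmonic numbers -/
noncomputable def hN (p : ℕ) (s : ℕ) : ZMod (p ^ 2) :=
  ∑ i ∈ range s, (((i + 1 : ℕ) : ZMod (p ^ 2)))⁻¹

/-- class of `1 + p H_s / 12` -/
noncomputable def hL (p : ℕ) [Fact p.Prime] (s : ℕ) : Additive (ZMod (p ^ 2))ˣ := dL (hN p s)

lemma isUnit_fac {s : ℕ} (h : s < p) : IsUnit ((s.factorial : ℕ) : ZMod (p ^ 2)) := by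
  apply isUnit_nat
  rw [Nat.Prime.dvd_factorial hp.out]; omega

lemma fL_zero : fL p 0 = 0 := by
  unfold fL; simp [uL_one]

lemma fL_succ {s : ℕ} (h : s + 1 < p) : fL p (s + 1) = fL p s + uL (((s + 1 : ℕ)) : ZMod (p ^ 2)) := by
  unfold fL
  rw [Nat.factorial_succ, Nat.cast_mul, uL_mul, add_comm]
  · exact isUnit_nat (not_dvd_of_lt (Nat.succ_pos s) h)
  · exact isUnit_fac (by omega)

lemma hN_succ (s : ℕ) : hN p (s + 1) = hN p s + (((s + 1 : ℕ) : ZMod (p ^ 2)))⁻¹ := by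
  unfold hN; rw [sum_range_succ]

lemma hN_zero : hN p 0 = 0 := by unfold hN; simp

lemma hL_zero : hL p 0 = 0 := by unfold hL; rw [hN_zero, dL_zero]

/-- Pochhammer symbols near a negative integer. -/
lemma poch (s k : ℕ) (hs : s < p) (hk : k ≤ s) (b : ZMod (p ^ 2)) :
    IsUnit (∏ i ∈ range k, (-(s : ZMod (p ^ 2)) + (i : ZMod (p ^ 2)) + (p : ZMod (p ^ 2)) * b)) ∧
    uL (∏ i ∈ range k, (-(s : ZMod (p ^ 2)) + (i : ZMod (p ^ 2)) + (p : ZMod (p ^ 2)) * b)) =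
      (k : ℤ) • nL p + fL p s - fL p (s - k) - eL (b * (hN p s - hN p (s - k))) := by
  induction k with
  | zero =>
    refine ⟨by rw [prod_range_zero]; exact isUnit_one, ?_⟩
    simp [uL_one, eL_zero]
  | succ k ih =>
    have ih := ih (by omega)
    obtain ⟨t, ht⟩ : ∃ t, s - k = t + 1 := ⟨s - k - 1, by omega⟩
    have ht' : s - (k + 1) = t := by omega
    have hut : IsUnit (((t + 1 : ℕ)) : ZMod (p ^ 2)) :=
      isUnit_nat (not_dvd_of_lt (Nat.succ_pos t) (by omega))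
    have hinv := unit_mul_inv hut
    have hfac : (-(s : ZMod (p ^ 2)) + (k : ZMod (p ^ 2)) + (p : ZMod (p ^ 2)) * b) =
        (-1) * (((t + 1 : ℕ)) : ZMod (p ^ 2)) *
          (1 + (p : ZMod (p ^ 2)) * (-(b * (((t + 1 : ℕ)) : ZMod (p ^ 2))⁻¹))) := by
      have hs' : (s : ZMod (p ^ 2)) = (k : ZMod (p ^ 2)) + ((t + 1 : ℕ) : ZMod (p ^ 2)) := by
        rw [← Nat.cast_add]; congr 1; omega
      rw [hs']
      linear_combination (-(p : ZMod (p ^ 2)) * b) * hinv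
    have hu1 : IsUnit ((-1 : ZMod (p ^ 2))) := isUnit_one.neg
    have hu2 := isUnit_oneP (p := p) (-(b * (((t + 1 : ℕ)) : ZMod (p ^ 2))⁻¹))
    rw [prod_range_succ]
    constructor
    · apply ih.1.mul
      rw [hfac]
      exact (hu1.mul hut).mul hu2
    · rw [uL_mul ih.1 (by rw [hfac]; exact (hu1.mul hut).mul hu2), ih.2, hfac,
        uL_mul (hu1.mul hut) hu2, uL_mul hu1 hut, ht, ht', fL_succ (by omega), hN_succ]
      have e1 : eL (b * (hN p s - (hN p t + (((t + 1 : ℕ)) : ZMod (p ^ 2))⁻¹))) =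
          eL (b * (hN p s - hN p t)) - eL (b * (((t + 1 : ℕ)) : ZMod (p ^ 2))⁻¹) := by
        rw [← eL_sub]; congr 1; ring
      rw [e1]
      have e2 : uL (1 + (p : ZMod (p ^ 2)) * (-(b * (((t + 1 : ℕ)) : ZMod (p ^ 2))⁻¹))) =
          - eL (b * (((t + 1 : ℕ)) : ZMod (p ^ 2))⁻¹) := by
        rw [← eL_neg]; rfl
      rw [e2]
      have e3 : uL (-1 : ZMod (p ^ 2)) = nL p := rfl
      rw [e3]
      push_cast
      module

/-- products over arithmetic progressions -/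
lemma prod_ap (h5 : 5 ≤ p) (d r s c D k : ℕ) (h : d * s + r = c * p) (hs : s < p) (hk : k ≤ s)
    (hD : d * D = 12) :
    IsUnit (∏ i ∈ range k, ((d * i + r : ℕ) : ZMod (p ^ 2))) ∧
    uL (∏ i ∈ range k, ((d * i + r : ℕ) : ZMod (p ^ 2))) =
      (k : ℤ) • (uL ((d : ℕ) : ZMod (p ^ 2)) + nL p) + fL p s - fL p (s - k) -
        ((c * D : ℕ) : ℤ) • (hL p s - hL p (s - k)) := by
  have hud : IsUnit ((d : ℕ) : ZMod (p ^ 2)) := by
    apply isUnit_nat
    intro h1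
    apply p_not_dvd_12 (p := p) h5
    rw [← hD]
    exact Dvd.dvd.mul_right h1 D
  have h12 := inv12 (p := p) h5
  have hD' : ((d : ℕ) : ZMod (p ^ 2)) * (D : ZMod (p ^ 2)) = ((12 : ℕ) : ZMod (p ^ 2)) := by
    rw [← Nat.cast_mul, hD]
  have h' : ((d : ℕ) : ZMod (p ^ 2)) * s + r = c * p := by
    have := congrArg (fun z : ℕ => (z : ZMod (p ^ 2))) h
    push_cast at this
    exact this
  have hfac : ∀ i : ℕ, ((d * i + r : ℕ) : ZMod (p ^ 2)) = ((d : ℕ) : ZMod (p ^ 2)) *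
      (-(s : ZMod (p ^ 2)) + (i : ZMod (p ^ 2)) + (p : ZMod (p ^ 2)) * ((c : ZMod (p ^ 2)) * (D : ZMod (p ^ 2)) * ((12 : ℕ) : ZMod (p ^ 2))⁻¹)) := by
    intro i
    push_cast at h12 hD' ⊢
    linear_combination h' - (p : ZMod (p ^ 2)) * c * h12 - (p : ZMod (p ^ 2)) * c * (12 : ZMod (p ^ 2))⁻¹ * hD'
  have hprod : ∏ i ∈ range k, ((d * i + r : ℕ) : ZMod (p ^ 2)) = ((d : ℕ) : ZMod (p ^ 2)) ^ k *
      ∏ i ∈ range k, (-(s : ZMod (p ^ 2)) + (i : ZMod (p ^ 2)) + (p : ZMod (p ^ 2)) * ((c : ZMod (p ^ 2)) * (D : ZMod (p ^ 2)) * ((12 : ℕ) : ZMod (p ^ 2))⁻¹)) := by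
    rw [prod_congr rfl (fun i _ => hfac i), prod_mul_distrib, prod_const, card_range]
  have hp1 := poch s k hs hk ((c : ZMod (p ^ 2)) * (D : ZMod (p ^ 2)) * ((12 : ℕ) : ZMod (p ^ 2))⁻¹)
  rw [hprod]
  refine ⟨(hud.pow k).mul hp1.1, ?_⟩
  rw [uL_mul (hud.pow k) hp1.1, uL_pow hud, hp1.2]
  have e1 : eL ((c : ZMod (p ^ 2)) * (D : ZMod (p ^ 2)) * ((12 : ℕ) : ZMod (p ^ 2))⁻¹ * (hN p s - hN p (s - k))) =
      ((c * D : ℕ) : ℤ) • (hL p s - hL p (s - k)) := by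
    unfold hL
    rw [← dL_sub, ← dL_nat]
    unfold dL
    congr 1
    push_cast
    ring
  rw [e1]
  module

/-- shifted factorials -/
lemma fac_shift (k : ℕ) (hk : k < p) :
    uL (∏ i ∈ range k, (((i + 1 : ℕ) : ZMod (p ^ 2)) - (p : ZMod (p ^ 2)))) = fL p k - eL (hN p k) := by
  induction k with
  | zero => simp [uL_one, fL_zero, hN_zero, eL_zero]
  | succ k ih =>
    have ih := ih (by omega)
    have hu : ∀ i < p - 1, IsUnit (((i + 1 : ℕ) : ZMod (p ^ 2))) := fun i hi =>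
      isUnit_nat (not_dvd_of_lt (Nat.succ_pos i) (by omega))
    have hfac : ∀ i < p - 1, (((i + 1 : ℕ) : ZMod (p ^ 2)) - (p : ZMod (p ^ 2))) =
        ((i + 1 : ℕ) : ZMod (p ^ 2)) * (1 + (p : ZMod (p ^ 2)) * (-(((i + 1 : ℕ) : ZMod (p ^ 2)))⁻¹)) := by
      intro i hi
      linear_combination (p : ZMod (p ^ 2)) * unit_mul_inv (hu i hi)
    have hu' : ∀ i < p - 1, IsUnit (((i + 1 : ℕ) : ZMod (p ^ 2)) - (p : ZMod (p ^ 2))) := by
      intro i hi
      rw [hfac i hi]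
      exact (hu i hi).mul (isUnit_oneP _)
    rw [prod_range_succ, uL_mul, ih, hfac k (by omega), uL_mul (hu k (by omega)) (isUnit_oneP _),
      fL_succ (by omega), hN_succ, eL_add]
    · have e2 : uL (1 + (p : ZMod (p ^ 2)) * (-(((k + 1 : ℕ) : ZMod (p ^ 2)))⁻¹)) =
          - eL ((((k + 1 : ℕ) : ZMod (p ^ 2)))⁻¹) := by
        rw [← eL_neg]; rfl
      rw [e2]
      module
    · rw [IsUnit.prod_iff]
      intro i hi
      exact hu' i (by have := mem_range.1 hi; omega)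
    · exact hu' k (by omega)

/-- reflection -/
lemma refl_fac (h5 : 5 ≤ p) (k l : ℕ) (hkl : k + l = p - 1) :
    fL p k + fL p l = fL p (p - 1) + (k : ℤ) • nL p + (12 : ℤ) • hL p k := by
  have h1 := fac_shift (p := p) k (by omega)
  have h2 := (poch (p := p) (p - 1) k (by omega) (by omega) 0).2
  rw [zero_mul, eL_zero, show p - 1 - k = l by omega] at h2
  have h3 : ∏ i ∈ range k, (-((p - 1 : ℕ) : ZMod (p ^ 2)) + (i : ZMod (p ^ 2)) + (p : ZMod (p ^ 2)) * 0) =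
      ∏ i ∈ range k, (((i + 1 : ℕ) : ZMod (p ^ 2)) - (p : ZMod (p ^ 2))) := by
    apply prod_congr rfl
    intro i _
    have : ((p - 1 : ℕ) : ZMod (p ^ 2)) = (p : ZMod (p ^ 2)) - 1 := by
      rw [Nat.cast_sub (by omega)]; simp
    rw [this]
    push_cast
    ring
  rw [h3, h1, eL_eq_dL h5] at h2
  have h4 : dL (hN p k) = hL p k := rfl
  rw [h4] at h2
  linear_combination (norm := module) h2

lemma nL_even {a b : ℤ} (h : ∃ c, a = b + 2 * c) : a • nL p = b • nL p := by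
  obtain ⟨c, rfl⟩ := h
  have := two_nL (p := p)
  linear_combination (norm := module) c • this

lemma refl_h (h5 : 5 ≤ p) (k l : ℕ) (hkl : k + l = p - 1) :
    (p : ZMod (p ^ 2)) * hN p k = (p : ZMod (p ^ 2)) * hN p l := by
  apply eL_inj
  rw [eL_eq_dL h5, eL_eq_dL h5]
  have h1 := refl_fac (p := p) h5 k l hkl
  have h2 := refl_fac (p := p) h5 l k (by omega)
  have hodd : p % 2 = 1 := by
    rcases hp.out.eq_two_or_odd with h | h
    · omega
    · exact h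
  have h3 : (l : ℤ) • nL p = (k : ℤ) • nL p := nL_even ⟨((l : ℤ) - k) / 2, by omega⟩
  unfold hL at h1 h2
  linear_combination (norm := module) h2 - h1 + h3

lemma refl_hL (h5 : 5 ≤ p) (k l : ℕ) (hkl : k + l = p - 1) : hL p k = hL p l :=
  dL_congr (refl_h h5 k l hkl)

lemma fac_dup (s : ℕ) : (2 * s).factorial = 2 ^ s * s.factorial * ∏ i ∈ range s, (2 * i + 1) := by
  induction s with
  | zero => simp
  | succ s ih =>
    rw [show 2 * (s + 1) = 2 * s + 1 + 1 by ring, Nat.factorial_succ, Nat.factorial_succ, ih,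
      prod_range_succ, Nat.factorial_succ]
    ring

/-- duplication for factorials; `p = 2 m + 1` -/
lemma dup_fac (h5 : 5 ≤ p) (m s : ℕ) (hm : 2 * m + 1 = p) (hs : s ≤ m) :
    fL p (2 * s) = (2 * s : ℤ) • uL ((2 : ℕ) : ZMod (p ^ 2)) + (s : ℤ) • nL p + fL p s + fL p m -
      fL p (m - s) - (6 : ℤ) • (hL p m - hL p (m - s)) := by
  have h1 := prod_ap (p := p) h5 2 1 m 1 6 s (by omega) (by omega) hs (by norm_num)
  have h2 : ((2 * s).factorial : ZMod (p ^ 2)) = ((2 : ℕ) : ZMod (p ^ 2)) ^ s * (s.factorial : ZMod (p ^ 2)) *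
      ∏ i ∈ range s, ((2 * i + 1 : ℕ) : ZMod (p ^ 2)) := by
    rw [fac_dup]; push_cast; ring
  have hu2 : IsUnit ((2 : ℕ) : ZMod (p ^ 2)) := isUnit_nat (not_dvd_of_lt (by norm_num) (by omega))
  have h3 : fL p (2 * s) = uL (((2 : ℕ) : ZMod (p ^ 2)) ^ s * (s.factorial : ZMod (p ^ 2)) *
      ∏ i ∈ range s, ((2 * i + 1 : ℕ) : ZMod (p ^ 2))) := by
    unfold fL; rw [h2]
  have hus := isUnit_fac (p := p) (s := s) (by omega)
  rw [h3, uL_mul ((hu2.pow s).mul hus) h1.1, uL_mul (hu2.pow s) hus, h1.2, uL_pow hu2]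
  have h4 : uL ((s.factorial : ℕ) : ZMod (p ^ 2)) = fL p s := rfl
  rw [h4]
  push_cast
  module

lemma hN_dup (s : ℕ) (hs : 2 * s < p) :
    2 * hN p (2 * s) = hN p s + 2 * ∑ i ∈ range s, (((2 * i + 1 : ℕ) : ZMod (p ^ 2)))⁻¹ := by
  induction s with
  | zero => simp [hN_zero]
  | succ s ih =>
    have ih := ih (by omega)
    rw [show 2 * (s + 1) = 2 * s + 1 + 1 by ring, hN_succ, hN_succ, hN_succ, sum_range_succ]
    have h1 := unit_mul_inv (isUnit_nat (p := p) (a := 2 * s + 1 + 1) (not_dvd_of_lt (by omega) (by omega)))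
    have h2 := unit_mul_inv (isUnit_nat (p := p) (a := s + 1) (not_dvd_of_lt (by omega) (by omega)))
    have h3 : 2 * (((2 * s + 1 + 1 : ℕ) : ZMod (p ^ 2)))⁻¹ = (((s + 1 : ℕ) : ZMod (p ^ 2)))⁻¹ := by
      push_cast at h1 h2 ⊢
      linear_combination ((s : ZMod (p ^ 2)) + 1)⁻¹ * h1 - 2 * (2 * (s : ZMod (p ^ 2)) + 1 + 1)⁻¹ * h2
    linear_combination ih + h3

/-- duplication for harmonic numbers -/
lemma dup_h (m s : ℕ) (hm : 2 * m + 1 = p) (hs : s ≤ m) :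
    (p : ZMod (p ^ 2)) * (2 * hN p (2 * s)) = (p : ZMod (p ^ 2)) * (hN p s - hN p m + hN p (m - s)) := by
  rw [hN_dup s (by omega)]
  have key : ∀ k ≤ m, (p : ZMod (p ^ 2)) * (2 * ∑ i ∈ range k, (((2 * i + 1 : ℕ) : ZMod (p ^ 2)))⁻¹) =
      (p : ZMod (p ^ 2)) * (- hN p m + hN p (m - k)) := by
    intro k hk
    induction k with
    | zero => simp
    | succ k ih =>
      have ih := ih (by omega)
      obtain ⟨t, ht⟩ : ∃ t, m - k = t + 1 := ⟨m - k - 1, by omega⟩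
      have ht' : m - (k + 1) = t := by omega
      rw [ht, hN_succ] at ih
      rw [sum_range_succ, ht']
      have h1 := unit_mul_inv (isUnit_nat (p := p) (a := 2 * k + 1) (not_dvd_of_lt (by omega) (by omega)))
      have h2 := unit_mul_inv (isUnit_nat (p := p) (a := t + 1) (not_dvd_of_lt (by omega) (by omega)))
      have h3 : ((2 * k + 1 : ℕ) : ZMod (p ^ 2)) = (p : ZMod (p ^ 2)) - 2 * ((t + 1 : ℕ) : ZMod (p ^ 2)) := by
        have : (2 * k + 1) + 2 * (t + 1) = p := by omega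
        have h4 := congrArg (fun z : ℕ => (z : ZMod (p ^ 2))) this
        push_cast at h4 ⊢
        linear_combination h4
      have h5 : (p : ZMod (p ^ 2)) * (2 * (((2 * k + 1 : ℕ) : ZMod (p ^ 2)))⁻¹) =
          (p : ZMod (p ^ 2)) * (-(((t + 1 : ℕ) : ZMod (p ^ 2)))⁻¹) := by
        set X := (((2 * k + 1 : ℕ) : ZMod (p ^ 2))) with hX
        set Y := (((t + 1 : ℕ) : ZMod (p ^ 2))) with hY
        have hPX : (p : ZMod (p ^ 2)) * X = -2 * (p : ZMod (p ^ 2)) * Y := by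
          rw [h3]; linear_combination P_sq (p := p)
        linear_combination (-(p : ZMod (p ^ 2)) * Y⁻¹) * h1 + (-2 * (p : ZMod (p ^ 2)) * X⁻¹) * h2 + X⁻¹ * Y⁻¹ * hPX
      linear_combination ih + h5
  have := key s hs
  linear_combination this

lemma dup_hL (m s : ℕ) (hm : 2 * m + 1 = p) (hs : s ≤ m) :
    (2 : ℤ) • hL p (2 * s) = hL p s - hL p m + hL p (m - s) := by
  unfold hL
  rw [← dL_sub, ← dL_add, ← dL_congr (dup_h m s hm hs)]
  have := dL_nat (p := p) 2 (hN p (2 * s))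
  push_cast at this
  rw [this]

lemma fac_tri0 (j : ℕ) : (3 * j).factorial =
    3 ^ j * j.factorial * (∏ i ∈ range j, (3 * i + 1)) * ∏ i ∈ range j, (3 * i + 2) := by
  induction j with
  | zero => simp
  | succ j ih =>
    rw [show 3 * (j + 1) = 3 * j + 1 + 1 + 1 by ring, Nat.factorial_succ, Nat.factorial_succ,
      Nat.factorial_succ, ih, prod_range_succ, prod_range_succ, Nat.factorial_succ]
    ring

lemma fac_tri1 (j : ℕ) : (3 * j + 1).factorial =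
    3 ^ j * j.factorial * (∏ i ∈ range (j + 1), (3 * i + 1)) * ∏ i ∈ range j, (3 * i + 2) := by
  rw [Nat.factorial_succ, fac_tri0, prod_range_succ]
  ring

/-- triplication with `n = 3 j` : general form with parameters `s1, c1, s2, c2` -/
lemma tri_fac0 (h5 : 5 ≤ p) (j s1 c1 s2 c2 : ℕ) (h1 : 3 * s1 + 1 = c1 * p) (h2 : 3 * s2 + 2 = c2 * p)
    (hs1 : s1 < p) (hs2 : s2 < p) (hj1 : j ≤ s1) (hj2 : j ≤ s2) (h3j : 3 * j < p) :
    fL p (3 * j) = (3 * j : ℤ) • uL ((3 : ℕ) : ZMod (p ^ 2)) + fL p j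
      + fL p s1 - fL p (s1 - j) - (c1 * 4 : ℤ) • (hL p s1 - hL p (s1 - j))
      + fL p s2 - fL p (s2 - j) - (c2 * 4 : ℤ) • (hL p s2 - hL p (s2 - j)) := by
  have a1 := prod_ap (p := p) h5 3 1 s1 c1 4 j h1 hs1 hj1 (by norm_num)
  have a2 := prod_ap (p := p) h5 3 2 s2 c2 4 j h2 hs2 hj2 (by norm_num)
  have h2' : ((3 * j).factorial : ZMod (p ^ 2)) = ((3 : ℕ) : ZMod (p ^ 2)) ^ j * (j.factorial : ZMod (p ^ 2)) *
      (∏ i ∈ range j, ((3 * i + 1 : ℕ) : ZMod (p ^ 2))) * ∏ i ∈ range j, ((3 * i + 2 : ℕ) : ZMod (p ^ 2)) := by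
    rw [fac_tri0]; push_cast; ring
  have hu3 : IsUnit ((3 : ℕ) : ZMod (p ^ 2)) := isUnit_nat (not_dvd_of_lt (by norm_num) (by omega))
  have huj := isUnit_fac (p := p) (s := j) (by omega)
  have h3 : fL p (3 * j) = uL (((3 : ℕ) : ZMod (p ^ 2)) ^ j * (j.factorial : ZMod (p ^ 2)) *
      (∏ i ∈ range j, ((3 * i + 1 : ℕ) : ZMod (p ^ 2))) * ∏ i ∈ range j, ((3 * i + 2 : ℕ) : ZMod (p ^ 2))) := by
    unfold fL; rw [h2']
  rw [h3, uL_mul (((hu3.pow j).mul huj).mul a1.1) a2.1, uL_mul ((hu3.pow j).mul huj) a1.1,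
    uL_mul (hu3.pow j) huj, a1.2, a2.2, uL_pow hu3]
  have h4 : uL ((j.factorial : ℕ) : ZMod (p ^ 2)) = fL p j := rfl
  rw [h4]
  have h6 := two_nL (p := p)
  push_cast
  linear_combination (norm := module) (j : ℤ) • h6

/-- triplication with `n = 3 j + 1` -/
lemma tri_fac1 (h5 : 5 ≤ p) (j s1 c1 s2 c2 : ℕ) (h1 : 3 * s1 + 1 = c1 * p) (h2 : 3 * s2 + 2 = c2 * p)
    (hs1 : s1 < p) (hs2 : s2 < p) (hj1 : j + 1 ≤ s1) (hj2 : j ≤ s2) (h3j : 3 * j + 1 < p) :
    fL p (3 * j + 1) = (3 * j + 1 : ℤ) • uL ((3 : ℕ) : ZMod (p ^ 2)) + nL p + fL p j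
      + fL p s1 - fL p (s1 - (j + 1)) - (c1 * 4 : ℤ) • (hL p s1 - hL p (s1 - (j + 1)))
      + fL p s2 - fL p (s2 - j) - (c2 * 4 : ℤ) • (hL p s2 - hL p (s2 - j)) := by
  have a1 := prod_ap (p := p) h5 3 1 s1 c1 4 (j + 1) h1 hs1 hj1 (by norm_num)
  have a2 := prod_ap (p := p) h5 3 2 s2 c2 4 j h2 hs2 hj2 (by norm_num)
  have h2' : ((3 * j + 1).factorial : ZMod (p ^ 2)) = ((3 : ℕ) : ZMod (p ^ 2)) ^ j * (j.factorial : ZMod (p ^ 2)) *
      (∏ i ∈ range (j + 1), ((3 * i + 1 : ℕ) : ZMod (p ^ 2))) * ∏ i ∈ range j, ((3 * i + 2 : ℕ) : ZMod (p ^ 2)) := by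
    rw [fac_tri1]; push_cast; ring
  have hu3 : IsUnit ((3 : ℕ) : ZMod (p ^ 2)) := isUnit_nat (not_dvd_of_lt (by norm_num) (by omega))
  have huj := isUnit_fac (p := p) (s := j) (by omega)
  have h3 : fL p (3 * j + 1) = uL (((3 : ℕ) : ZMod (p ^ 2)) ^ j * (j.factorial : ZMod (p ^ 2)) *
      (∏ i ∈ range (j + 1), ((3 * i + 1 : ℕ) : ZMod (p ^ 2))) * ∏ i ∈ range j, ((3 * i + 2 : ℕ) : ZMod (p ^ 2))) := by
    unfold fL; rw [h2']
  rw [h3, uL_mul (((hu3.pow j).mul huj).mul a1.1) a2.1, uL_mul ((hu3.pow j).mul huj) a1.1,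
    uL_mul (hu3.pow j) huj, a1.2, a2.2, uL_pow hu3]
  have h4 : uL ((j.factorial : ℕ) : ZMod (p ^ 2)) = fL p j := rfl
  rw [h4]
  have h6 := two_nL (p := p)
  push_cast
  linear_combination (norm := module) (j : ℤ) • h6

end Pool.Agent.Lib.MP_8312d7
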