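import Pool.Agent.Lib.MP_8312d7.Main
import Pool.Agent.Lib.MP_8312d7.Defs

/-!
The final theorem.
-/

open Finset

set_option linter.unusedSectionVars false

namespace Pool.Agent.Lib.MP_8312d7

/-! ### from hypergeometric terms to binomial coefficients -/

lemma gbinom_eq (a : ℚ) (k : ℕ) :
    gbinom (-a) k = (-1) ^ k * (∏ i ∈ range k, (a + (i : ℚ))) / (k.factorial : ℚ) := by
  unfold gbinom
  congr 1
  rw [← card_range k, ← prod_const, card_range, ← prod_mul_distrib]
  apply prod_congr rfl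
  intro i _
  ring

lemma prod_one_add (k : ℕ) : ∏ i ∈ range k, ((1 : ℚ) + (i : ℚ)) = (k.factorial : ℚ) := by
  induction k with
  | zero => simp
  | succ k ih =>
    rw [prod_range_succ, ih, Nat.factorial_succ]
    push_cast; ring

lemma S₁_eq (p : ℕ) : S₁ p = Q1 p := by
  unfold S₁ Q1
  apply sum_congr rfl
  intro k _
  rw [show (-1 / 4 : ℚ) = -(1 / 4) by norm_num, show (-1 / 2 : ℚ) = -(1 / 2) by norm_num,
    gbinom_eq, gbinom_eq]
  unfold ht
  have h1 : ((-1 : ℚ) ^ k) * (-1) ^ k = 1 := by rw [← mul_pow]; norm_num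
  have h2 : (k.factorial : ℚ) ≠ 0 := by exact_mod_cast Nat.factorial_ne_zero k
  rw [prod_one_add]
  rw [div_pow, one_pow]
  field_simp
  linear_combination h1

lemma S₂_eq (p : ℕ) : S₂ p = Q2 p := by
  unfold S₂ Q2
  apply sum_congr rfl
  intro k _
  rw [show (-1 / 6 : ℚ) = -(1 / 6) by norm_num, show (-1 / 2 : ℚ) = -(1 / 2) by norm_num,
    gbinom_eq, gbinom_eq]
  unfold ht
  have h1 : ((-1 : ℚ) ^ k) * (-1) ^ k = 1 := by rw [← mul_pow]; norm_num
  have h2 : (k.factorial : ℚ) ≠ 0 := by exact_mod_cast Nat.factorial_ne_zero k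
  rw [prod_one_add]
  field_simp
  linear_combination h1

/-! ### uniqueness of the representation -/

lemma rep_unique {p : ℕ} (hp : p.Prime) {a b x y : ℤ} (h1 : a ^ 2 + b ^ 2 = p) (h2 : x ^ 2 + y ^ 2 = p)
    (ha : Odd a) (hx : Odd x) (hpo : Odd p) : a ^ 2 = x ^ 2 := by
  have hpp : Prime (p : ℤ) := Nat.prime_iff_prime_int.1 hp
  have hp0 : (0 : ℤ) < p := by exact_mod_cast hp.pos
  have hpoz : Odd (p : ℤ) := by exact_mod_cast hpo
  have hb : Even b := by
    have : Even (b ^ 2) := by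
      have h3 : b ^ 2 = p - a ^ 2 := by linarith
      rw [h3]; exact hpoz.sub_odd ha.pow
    exact (Int.even_pow' two_ne_zero).1 this
  have hy : Even y := by
    have : Even (y ^ 2) := by
      have h3 : y ^ 2 = p - x ^ 2 := by linarith
      rw [h3]; exact hpoz.sub_odd hx.pow
    exact (Int.even_pow' two_ne_zero).1 this
  have key : ∀ y' : ℤ, x ^ 2 + y' ^ 2 = p → Even y' → (p : ℤ) ∣ a * x - b * y' → a ^ 2 = x ^ 2 := by
    intro y' hy' hev hd
    obtain ⟨k, hk⟩ := hd
    have hodd : Odd (a * x - b * y') := (ha.mul hx).sub_even (hb.mul_right y')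
    have hid : (a * x - b * y') ^ 2 + (a * y' + b * x) ^ 2 = p * p := by
      linear_combination (x ^ 2 + y' ^ 2) * h1 + p * hy'
    have hk0 : k ≠ 0 := by
      rintro rfl
      rw [hk, mul_zero] at hodd
      exact absurd hodd (by decide)
    have hk1 : 1 ≤ k ^ 2 := by
      have : 0 < k ^ 2 := by positivity
      linarith
    have hz : (a * y' + b * x) ^ 2 ≤ 0 := by
      rw [hk] at hid
      nlinarith [mul_pos hp0 hp0, mul_nonneg (mul_pos hp0 hp0).le (sub_nonneg.2 hk1)]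
    have hz' : a * y' + b * x = 0 := by
      have : (a * y' + b * x) ^ 2 = 0 := le_antisymm hz (sq_nonneg _)
      exact pow_eq_zero_iff two_ne_zero |>.1 this
    have h3 : (p : ℤ) * (a ^ 2) = p * (x ^ 2) := by
      have h4 : (a * y') ^ 2 = (b * x) ^ 2 := by
        rw [show a * y' = -(b * x) by linarith]; ring
      linear_combination (-a ^ 2) * hy' + x ^ 2 * h1 + h4
    exact mul_left_cancel₀ hp0.ne' h3
  have hprod : (p : ℤ) ∣ (a * x - b * y) * (a * x - b * (-y)) := by
    refine ⟨a ^ 2 + x ^ 2 - p, ?_⟩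
    linear_combination (x ^ 2 - p) * h1 + (-b ^ 2) * h2
  rcases hpp.dvd_or_dvd hprod with h | h
  · exact key y h2 hy h
  · exact key (-y) (by rw [neg_sq]; exact h2) hy.neg h

variable {p : ℕ} [hp : Fact p.Prime]

/-- `e = ±1` with `e x ≡ 1 mod 4` -/
lemma sign_x {x : ℤ} (hx : Odd x) : ∃ e : ℤ, (e = 1 ∨ e = -1) ∧ (e * x) % 4 = 1 ∧
    (-1 : ℚ) ^ ((x - 1) / 2) = (e : ℚ) := by
  obtain ⟨k, hk⟩ := hx
  rcases Int.even_or_odd k with h | h
  · refine ⟨1, Or.inl rfl, ?_, ?_⟩
    · obtain ⟨l, hl⟩ := h; omega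
    · rw [show (x - 1) / 2 = k by omega, h.neg_one_zpow]; norm_num
  · refine ⟨-1, Or.inr rfl, ?_, ?_⟩
    · obtain ⟨l, hl⟩ := h; omega
    · rw [show (x - 1) / 2 = k by omega, h.neg_one_zpow]; norm_num

/-- the evaluation in `ℤ/p²` -/
theorem eval_phi (h5 : 5 ≤ p) (n : ℕ) (hn : 4 * n + 1 = p) {x y e : ℤ} (hx : Odd x)
    (hxy : x ^ 2 + y ^ 2 = p) (he : e = 1 ∨ e = -1) (hex : (e * x) % 4 = 1) :
    (p % 3 = 1 → (3 : ℤ) ∣ x → Pint p (WW p x) ∧
      ((3 : ℕ) : ZMod (p ^ 2)) ^ (n * p) * TT p n = -((-1) ^ n * (e * phi p (WW p x)))) ∧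
    (p % 3 = 1 → ¬ (3 : ℤ) ∣ x → Pint p (WW p x) ∧
      ((3 : ℕ) : ZMod (p ^ 2)) ^ (n * p) * TT p n = (-1) ^ n * (e * phi p (WW p x))) ∧
    (p % 3 = 2 → (3 : ℤ) ∣ y - x → Pint p (WW p y) ∧
      ((3 : ℕ) : ZMod (p ^ 2)) ^ (n * p) * TT p n = -((-1) ^ n * (e * phi p (WW p y)))) := by
  obtain ⟨a, b, I, hI, hT, hab, ha4, t1, t2, t3, t4⟩ := jac_main (p := p) h5 n hn
  have hpo : Odd p := hp.out.odd_of_ne_two (by omega)
  have hao : Odd a := by
    rw [Int.odd_iff]; omega
  have hax2 := rep_unique hp.out hab hxy hao hx hpo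
  have hby2 : b ^ 2 = y ^ 2 := by linarith
  have hax : a = e * x := by
    rcases sq_eq_sq_iff_eq_or_eq_neg.1 hax2 with h | h <;> rcases he with h' | h' <;> subst h' <;> omega
  have he2 : e * e = 1 := by rcases he with h | h <;> subst h <;> norm_num
  obtain ⟨utt, -⟩ := TT_log (p := p) h5 n hn
  rw [← hT] at utt
  have habz : (a : ZMod (p ^ 2)) ^ 2 + (b : ZMod (p ^ 2)) ^ 2 = (p : ZMod (p ^ 2)) := by
    have := congrArg (fun z : ℤ => (z : ZMod (p ^ 2))) hab
    push_cast at this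
    exact this
  have hIu : IsUnit I := by
    apply IsUnit.of_mul_eq_one (-I)
    linear_combination -hI
  -- value for `a`
  have Wa : Pint p (WW p a) ∧ phi p (WW p a) = (a : ZMod (p ^ 2)) + (b : ZMod (p ^ 2)) * I := by
    apply W_phi (v := (a : ZMod (p ^ 2)) - (b : ZMod (p ^ 2)) * I)
    · linear_combination (-(b : ZMod (p ^ 2)) ^ 2) * hI + habz
    · ring
    · exact utt
  have Wb : Pint p (WW p (-b)) ∧ phi p (WW p (-b)) = I * ((a : ZMod (p ^ 2)) + (b : ZMod (p ^ 2)) * I) := by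
    apply W_phi (v := -I * ((a : ZMod (p ^ 2)) - (b : ZMod (p ^ 2)) * I))
    · linear_combination (-(a : ZMod (p ^ 2)) ^ 2 + (b : ZMod (p ^ 2)) ^ 2 * I * I - (b : ZMod (p ^ 2)) ^ 2) * hI + habz
    · push_cast
      linear_combination (2 * (b : ZMod (p ^ 2))) * hI
    · exact hIu.mul utt
  have Wneg : ∀ c : ℤ, Pint p (WW p c) → Pint p (WW p (-c)) ∧ phi p (WW p (-c)) = - phi p (WW p c) := by
    intro c hc
    rw [WW_neg]
    exact Pint_neg hc
  -- value for `x`
  have Wx : Pint p (WW p x) ∧ phi p (WW p a) = e * phi p (WW p x) := by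
    rcases he with h | h
    · subst h
      rw [one_mul] at hax
      rw [← hax]
      exact ⟨Wa.1, by push_cast; ring⟩
    · subst h
      have hxa : x = -a := by omega
      have := Wneg a Wa.1
      rw [hxa]
      exact ⟨this.1, by rw [this.2]; push_cast; ring⟩
  have hmodp : (p : ℤ) % 3 = (x ^ 2 + y ^ 2) % 3 := by rw [hxy]
  have hxm : x % 3 = 0 ∨ x % 3 = 1 ∨ x % 3 = 2 := by omega
  have hym : y % 3 = 0 ∨ y % 3 = 1 ∨ y % 3 = 2 := by omega
  rw [← hT]
  have hdx : (3 : ℤ) ∣ x → (3 : ℤ) ∣ a := by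
    intro h; rw [hax]; exact Dvd.dvd.mul_left h e
  have hb3 : b = y ∨ b = -y := sq_eq_sq_iff_eq_or_eq_neg.1 hby2
  refine ⟨?_, ?_, ?_⟩
  · intro _ h3
    refine ⟨Wx.1, ?_⟩
    rw [t2 (hdx h3), ← Wx.2, Wa.2]
    ring
  · intro hp3 h3
    refine ⟨Wx.1, ?_⟩
    have hby : (3 : ℤ) ∣ y := by
      have hp3' : (p : ℤ) % 3 = 1 := by omega
      rw [hp3'] at hmodp
      rcases hxm with h | h | h <;> rcases hym with h' | h' | h' <;>
        simp [Int.add_emod, pow_two, Int.mul_emod, h, h'] at hmodp <;> omega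
    have hb3' : (3 : ℤ) ∣ b := by
      rcases hb3 with h | h
      · rw [h]; exact hby
      · rw [h]; exact hby.neg_right
    rw [t1 hb3', ← Wx.2, Wa.2]
  · intro hp3 h3
    have hx3 : ¬ (3 : ℤ) ∣ x := by
      intro h
      have hp3' : (p : ℤ) % 3 = 2 := by omega
      rw [hp3'] at hmodp
      have h' : x % 3 = 0 := by omega
      have h'' : y % 3 = 0 := by omega
      simp [Int.add_emod, pow_two, Int.mul_emod, h', h''] at hmodp
    have ha3 : ¬ (3 : ℤ) ∣ a := by
      intro h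
      apply hx3
      have : x = e * a := by rw [hax]; linear_combination (-x) * he2
      rw [this]; exact Dvd.dvd.mul_left h e
    -- `b = e y` or `b = - e y`
    have hbe : b = e * y ∨ b = -(e * y) := by
      rcases hb3 with h | h <;> rcases he with h' | h' <;> subst h' <;> omega
    have hPy : Pint p (WW p y) ∧ (phi p (WW p (-b)) = phi p (WW p y) ∨ phi p (WW p (-b)) = - phi p (WW p y)) := by
      rcases hb3 with h | h
      · have h1 := Wneg (-b) Wb.1
        rw [neg_neg] at h1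
        rw [← h]
        exact ⟨h1.1, Or.inr (by rw [h1.2]; ring)⟩
      · have : y = -b := by omega
        rw [this]
        exact ⟨Wb.1, Or.inl rfl⟩
    refine ⟨hPy.1, ?_⟩
    have Wey : phi p (WW p (e * y)) = e * phi p (WW p y) := by
      rcases he with h | h
      · subst h; rw [one_mul]; push_cast; ring
      · subst h
        rw [show (-1 : ℤ) * y = -y by ring, (Wneg y hPy.1).2]; push_cast; ring
    have hPey : Pint p (WW p (e * y)) := by
      rcases he with h | h
      · subst h; rw [one_mul]; exact hPy.1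
      · subst h
        rw [show (-1 : ℤ) * y = -y by ring]; exact (Wneg y hPy.1).1
    rw [← Wey]
    rcases hbe with h | h
    · have h4 : (3 : ℤ) ∣ a - b := by
        rw [hax, h, ← mul_sub]
        exact Dvd.dvd.mul_left (by rw [← neg_sub]; exact h3.neg_right) e
      rw [t3 h4 ha3]
      have h6 := Wb.2
      have h7 : phi p (WW p (-b)) = - phi p (WW p (e * y)) := by
        rw [h]; exact (Wneg _ hPey).2
      rw [h7] at h6
      linear_combination (-(-1) ^ n) * h6
    · have h4 : (3 : ℤ) ∣ a + b := by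
        rw [hax, h, ← sub_eq_add_neg, ← mul_sub]
        exact Dvd.dvd.mul_left (by rw [← neg_sub]; exact h3.neg_right) e
      rw [t4 h4 ha3]
      have h6 := Wb.2
      have h7 : phi p (WW p (-b)) = phi p (WW p (e * y)) := by
        rw [h, neg_neg]
      rw [h7] at h6
      linear_combination (-1) ^ n * h6

end Pool.Agent.Lib.MP_8312d7
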