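import Pool.Agent.Lib.MP_8312d7.Final

/-!
Assembly of the final statement.
-/

open Finset

set_option linter.unusedSectionVars false

namespace Pool.Agent.Lib.MP_8312d7

lemma leg_one {p : ℕ} (h : p % 3 = 1) : legendreSym 3 (p : ℤ) = 1 := by
  rw [legendreSym.mod]
  have : (p : ℤ) % ((3 : ℕ) : ℤ) = 1 := by omega
  rw [this]
  decide

lemma leg_two {p : ℕ} (h : p % 3 = 2) : legendreSym 3 (p : ℤ) = -1 := by
  rw [legendreSym.mod]
  have : (p : ℤ) % ((3 : ℕ) : ℤ) = 2 := by omega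
  rw [this]
  decide

lemma aux12 {p : ℕ} (h4 : p % 4 = 1) (hmod : p % 3 = 1 ∨ p % 3 = 2)
    (c : ¬ (12 : ℤ) ∣ (p : ℤ) - 5) : (12 : ℤ) ∣ (p : ℤ) - 1 ∧ p % 3 = 1 := by
  omega

variable {p : ℕ} [hp : Fact p.Prime]

lemma phi_eq_of_num_dvd {r s : ℚ} (hr : Pint p r) (hs : Pint p s) (h : (p : ℤ) ^ 2 ∣ (r - s).num) :
    phi p r = phi p s := by
  have h1 := Pint_sub (p := p) hr hs
  have h3 := phi_mul_den (p := p) h1.1
  have h4 : (((r - s).num : ℤ) : ZMod (p ^ 2)) = 0 := by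
    rw [ZMod.intCast_zmod_eq_zero_iff_dvd]
    exact_mod_cast h
  rw [h4] at h3
  have h5 : phi p (r - s) = 0 := by
    apply (isUnit_nat (p := p) h1.1).mul_right_cancel
    rw [h3, zero_mul]
  rw [h1.2] at h5
  exact sub_eq_zero.1 h5

/-- integer multiples -/
lemma Pint_smul (s : ℤ) {r : ℚ} (hr : Pint p r) :
    Pint p ((s : ℚ) * r) ∧ phi p ((s : ℚ) * r) = (s : ZMod (p ^ 2)) * phi p r := by
  have h1 := Pint_int (p := p) s
  have h2 := Pint_mul (p := p) h1.1 hr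
  rw [h1.2] at h2
  exact h2

/-- everything known about the two sums -/
theorem sums_phi (h5 : 5 ≤ p) (n : ℕ) (hn : 4 * n + 1 = p) :
    Pint p (S₁ p) ∧ Pint p (S₂ p) ∧
    phi p (S₂ p) = ((3 : ℕ) : ZMod (p ^ 2)) ^ (n * p) * TT p n ∧
    phi p (S₁ p) = (legendreSym 3 (p : ℤ) : ZMod (p ^ 2)) * (((3 : ℕ) : ZMod (p ^ 2)) ^ (n * p) * TT p n) ∧
    (p % 3 = 1 ∨ p % 3 = 2) := by
  have hmod : p % 3 = 1 ∨ p % 3 = 2 := by
    have h3p : ¬ 3 ∣ p := by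
      intro h
      rcases (Nat.dvd_prime hp.out).1 h with h | h <;> omega
    omega
  rw [S₁_eq, S₂_eq]
  rcases hmod with h | h
  · obtain ⟨j, rfl⟩ : ∃ j, n = 3 * j := ⟨n / 3, by omega⟩
    have h1 := S1_core0 (p := p) h5 j (by omega)
    have h2 := S2_core0 (p := p) h5 j (by omega)
    refine ⟨h1.1, h2.1, h2.2, ?_, Or.inl h⟩
    rw [leg_one h, h1.2]; push_cast; ring
  · obtain ⟨j, rfl⟩ : ∃ j, n = 3 * j + 1 := ⟨n / 3, by omega⟩
    have h1 := S1_core1 (p := p) h5 j (by omega)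
    have h2 := S2_core1 (p := p) h5 j (by omega)
    refine ⟨h1.1, h2.1, h2.2, ?_, Or.inr h⟩
    rw [leg_two h, h1.2]; push_cast; ring

/-- the sign `(-1)^((p-1)/4 + (x-1)/2)` -/
lemma sign_formula {p : ℕ} (n : ℕ) (hn : 4 * n + 1 = p) (x e : ℤ) (hx : Odd x)
    (he : (-1 : ℚ) ^ ((x - 1) / 2) = (e : ℚ)) :
    (-1 : ℚ) ^ (((p : ℤ) - 1) / 4 + (x - 1) / 2) = (((-1) ^ n * e : ℤ) : ℚ) ∧
    (-1 : ℚ) ^ (((p : ℤ) - 1) / 4 + (x + 1) / 2) = ((-((-1) ^ n * e) : ℤ) : ℚ) := by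
  have h1 : ((p : ℤ) - 1) / 4 = (n : ℤ) := by omega
  have h2 : (x + 1) / 2 = (x - 1) / 2 + 1 := by
    obtain ⟨k, hk⟩ := hx; omega
  have hne : (-1 : ℚ) ≠ 0 := by norm_num
  rw [h1, h2]
  constructor
  · rw [zpow_add₀ hne, he, zpow_natCast]; push_cast; ring
  · rw [zpow_add₀ hne, zpow_add₀ hne, he, zpow_natCast, zpow_one]; push_cast; ring

theorem main_part (h4 : p % 4 = 1) {x y : ℤ} (hx : Odd x) (hxy : (p : ℤ) = x ^ 2 + y ^ 2) :
    CongSq p (S₁ p) ((legendreSym 3 (p : ℤ) : ℚ) * S₂ p) ∧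
    ((12 : ℤ) ∣ (p : ℤ) - 1 → (3 : ℤ) ∣ x →
      CongSq p (S₁ p) ((-1 : ℚ) ^ (((p : ℤ) - 1) / 4 + (x + 1) / 2) * (2 * x - p / (2 * x)))) ∧
    ((12 : ℤ) ∣ (p : ℤ) - 1 → ¬ (3 : ℤ) ∣ x →
      CongSq p (S₁ p) (-((-1 : ℚ) ^ (((p : ℤ) - 1) / 4 + (x + 1) / 2) * (2 * x - p / (2 * x))))) ∧
    ((12 : ℤ) ∣ (p : ℤ) - 5 → (3 : ℤ) ∣ y - x →
      CongSq p (S₁ p) ((-1 : ℚ) ^ (((p : ℤ) - 1) / 4 + (x - 1) / 2) * (2 * y - p / (2 * y)))) := by
  have h5 : 5 ≤ p := by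
    have := hp.out.two_le
    omega
  obtain ⟨n, hn⟩ : ∃ n, 4 * n + 1 = p := ⟨p / 4, by omega⟩
  obtain ⟨P1, P2, f2, f1, hmod⟩ := sums_phi (p := p) h5 n hn
  obtain ⟨e, he, hex, hes⟩ := sign_x hx
  obtain ⟨s1, s2⟩ := sign_formula n hn x e hx hes
  obtain ⟨E1, E2, E3⟩ := eval_phi (p := p) h5 n hn hx hxy.symm he hex
  have hWx : (2 * x - p / (2 * x) : ℚ) = WW p x := rfl
  have hWy : (2 * y - p / (2 * y) : ℚ) = WW p y := rfl
  rw [s1, s2, hWx, hWy]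
  unfold CongSq
  refine ⟨?_, ?_, ?_, ?_⟩
  · have h1 := Pint_smul (p := p) (legendreSym 3 (p : ℤ)) P2
    apply num_dvd_of_phi_eq P1 h1.1
    rw [h1.2, f1, f2]
  · intro h12 h3
    have hp1 : p % 3 = 1 := by omega
    obtain ⟨W, hW⟩ := E1 hp1 h3
    have h1 := Pint_smul (p := p) (-((-1) ^ n * e)) W
    apply num_dvd_of_phi_eq P1 h1.1
    rw [h1.2, f1, leg_one hp1, hW]
    push_cast; ring
  · intro h12 h3
    have hp1 : p % 3 = 1 := by omega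
    obtain ⟨W, hW⟩ := E2 hp1 h3
    have h1 := Pint_smul (p := p) (-((-1) ^ n * e)) W
    have h2 := Pint_neg (p := p) h1.1
    apply num_dvd_of_phi_eq P1 h2.1
    rw [h2.2, h1.2, f1, leg_one hp1, hW]
    push_cast; ring
  · intro h12 h3
    have hp1 : p % 3 = 2 := by omega
    obtain ⟨W, hW⟩ := E3 hp1 h3
    have h1 := Pint_smul (p := p) ((-1) ^ n * e) W
    apply num_dvd_of_phi_eq P1 h1.1
    rw [h1.2, f1, leg_two hp1, hW]
    push_cast; ring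

theorem displayed_iff (h4 : p % 4 = 1) {x y : ℤ} (hx : Odd x) (hxy : (p : ℤ) = x ^ 2 + y ^ 2) :
    Displayed p x ↔ ((12 : ℤ) ∣ (p : ℤ) - 5 ∨ (3 : ℤ) ∣ x) := by
  have h5 : 5 ≤ p := by
    have := hp.out.two_le
    omega
  obtain ⟨n, hn⟩ : ∃ n, 4 * n + 1 = p := ⟨p / 4, by omega⟩
  obtain ⟨P1, P2, f2, f1, hmod⟩ := sums_phi (p := p) h5 n hn
  obtain ⟨e, he, hex, hes⟩ := sign_x hx
  obtain ⟨s1, s2⟩ := sign_formula n hn x e hx hes
  obtain ⟨m1, m2, m3, m4⟩ := main_part (p := p) h4 hx hxy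
  obtain ⟨E1, E2, E3⟩ := eval_phi (p := p) h5 n hn hx hxy.symm he hex
  have hWx : (2 * x - p / (2 * x) : ℚ) = WW p x := rfl
  constructor
  · rintro ⟨-, d2, -⟩
    by_contra hcon
    push Not at hcon
    obtain ⟨c1, c2⟩ := hcon
    obtain ⟨h12, hp1⟩ := aux12 h4 hmod c1
    have a1 := d2 h12
    have a2 := m3 h12 c2
    rw [s2, hWx] at a1 a2
    obtain ⟨W, hW⟩ := E2 hp1 c2
    have h1 := Pint_smul (p := p) (-((-1) ^ n * e)) W
    have h2 := Pint_neg (p := p) h1.1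
    have b1 := phi_eq_of_num_dvd P1 h1.1 a1
    have b2 := phi_eq_of_num_dvd P1 h2.1 a2
    rw [h2.2, ← b1] at b2
    have hu : IsUnit (phi p (S₁ p)) := by
      rw [f1, leg_one hp1]
      obtain ⟨ut, -⟩ := TT_log (p := p) h5 n hn
      have utau := (u3 (p := p) h5).pow (n * p)
      push_cast
      rw [one_mul]
      exact_mod_cast utau.mul ut
    have hu2 := u2 (p := p) h5
    have h3 : ((2 : ℕ) : ZMod (p ^ 2)) * phi p (S₁ p) = 0 := by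
      push_cast
      linear_combination b2
    have h4' := (hu2.mul hu)
    rw [h3] at h4'
    have : Nontrivial (ZMod (p ^ 2)) := by
      haveI : Fact (1 < p ^ 2) := ⟨by nlinarith⟩
      infer_instance
    exact not_isUnit_zero h4'
  · intro hor
    refine ⟨m1, ?_, ?_⟩
    · intro h12
      rcases hor with h | h
      · clear m1 m2 m3 m4 E1 E2 E3 hex he hmod hxy
        omega
      · exact m2 h12 h
    · intro h12
      -- the good choice of the sign of `y`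
      have hmodp : (p : ℤ) % 3 = (x ^ 2 + y ^ 2) % 3 := by rw [hxy]
      have hp3' : (p : ℤ) % 3 = 2 := by omega
      rw [hp3'] at hmodp
      have hxm : x % 3 = 0 ∨ x % 3 = 1 ∨ x % 3 = 2 := by omega
      have hym : y % 3 = 0 ∨ y % 3 = 1 ∨ y % 3 = 2 := by omega
      obtain ⟨y0, hy0, hy03⟩ : ∃ y0 : ℤ, (y0 = y ∨ y0 = -y) ∧ (3 : ℤ) ∣ y0 - x := by
        rcases hxm with h | h | h <;> rcases hym with h' | h' | h' <;>
          simp [Int.add_emod, pow_two, Int.mul_emod, h, h'] at hmodp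
        · exact ⟨y, Or.inl rfl, by omega⟩
        · exact ⟨-y, Or.inr rfl, by omega⟩
        · exact ⟨-y, Or.inr rfl, by omega⟩
        · exact ⟨y, Or.inl rfl, by omega⟩
      have hxy0 : (p : ℤ) = x ^ 2 + y0 ^ 2 := by
        rcases hy0 with h | h
        · rw [h]; exact hxy
        · rw [h, neg_sq]; exact hxy
      obtain ⟨-, -, -, m4'⟩ := main_part (p := p) h4 hx hxy0
      have a1 := m4' h12 hy03
      rw [s1] at a1
      have hy0e : Even y0 := by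
        have hpo : Odd (p : ℤ) := by
          have : Odd p := hp.out.odd_of_ne_two (by omega)
          exact_mod_cast this
        have : Even (y0 ^ 2) := by
          have h3 : y0 ^ 2 = p - x ^ 2 := by linarith
          rw [h3]; exact hpo.sub_odd hx.pow
        exact (Int.even_pow' two_ne_zero).1 this
      have hs : ((-1) ^ n * e : ℤ) = 1 ∨ ((-1) ^ n * e : ℤ) = -1 := by
        rcases neg_one_pow_eq_or ℤ n with h | h <;> rcases he with h' | h' <;> rw [h, h'] <;> norm_num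
      rcases hs with h | h
      · refine ⟨y0, hy0e, hxy0, ?_⟩
        rw [h] at a1
        push_cast at a1
        rw [one_mul] at a1
        exact a1
      · refine ⟨-y0, hy0e.neg, by rw [neg_sq]; exact hxy0, ?_⟩
        rw [h] at a1
        have hWn := WW_neg (p := p) y0
        unfold WW at hWn
        rw [hWn]
        push_cast at a1
        rw [neg_one_mul] at a1
        exact a1

/-- The final statement. -/
theorem final_statement :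
    (∀ p : ℕ, p.Prime → p % 4 = 1 → ∀ x y : ℤ, Odd x → (p : ℤ) = x ^ 2 + y ^ 2 →
      CongSq p (S₁ p) ((legendreSym 3 (p : ℤ) : ℚ) * S₂ p) ∧
      ((12 : ℤ) ∣ (p : ℤ) - 1 → (3 : ℤ) ∣ x →
        CongSq p (S₁ p) ((-1 : ℚ) ^ (((p : ℤ) - 1) / 4 + (x + 1) / 2) * (2 * x - p / (2 * x)))) ∧
      ((12 : ℤ) ∣ (p : ℤ) - 1 → ¬ (3 : ℤ) ∣ x →
        CongSq p (S₁ p) (-((-1 : ℚ) ^ (((p : ℤ) - 1) / 4 + (x + 1) / 2) * (2 * x - p / (2 * x))))) ∧
      ((12 : ℤ) ∣ (p : ℤ) - 5 → (3 : ℤ) ∣ y - x →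
        CongSq p (S₁ p) ((-1 : ℚ) ^ (((p : ℤ) - 1) / 4 + (x - 1) / 2) * (2 * y - p / (2 * y)))) ∧
      (Displayed p x ↔ ((12 : ℤ) ∣ (p : ℤ) - 5 ∨ (3 : ℤ) ∣ x))) ∧
    ¬ (∀ p : ℕ, p.Prime → p % 4 = 1 → ∀ x y : ℤ, Odd x → (p : ℤ) = x ^ 2 + y ^ 2 →
      Displayed p x) := by
  have main : ∀ p : ℕ, p.Prime → p % 4 = 1 → ∀ x y : ℤ, Odd x → (p : ℤ) = x ^ 2 + y ^ 2 →
      CongSq p (S₁ p) ((legendreSym 3 (p : ℤ) : ℚ) * S₂ p) ∧
      ((12 : ℤ) ∣ (p : ℤ) - 1 → (3 : ℤ) ∣ x →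
        CongSq p (S₁ p) ((-1 : ℚ) ^ (((p : ℤ) - 1) / 4 + (x + 1) / 2) * (2 * x - p / (2 * x)))) ∧
      ((12 : ℤ) ∣ (p : ℤ) - 1 → ¬ (3 : ℤ) ∣ x →
        CongSq p (S₁ p) (-((-1 : ℚ) ^ (((p : ℤ) - 1) / 4 + (x + 1) / 2) * (2 * x - p / (2 * x))))) ∧
      ((12 : ℤ) ∣ (p : ℤ) - 5 → (3 : ℤ) ∣ y - x →
        CongSq p (S₁ p) ((-1 : ℚ) ^ (((p : ℤ) - 1) / 4 + (x - 1) / 2) * (2 * y - p / (2 * y)))) ∧
      (Displayed p x ↔ ((12 : ℤ) ∣ (p : ℤ) - 5 ∨ (3 : ℤ) ∣ x)) := by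
    intro p hp h4 x y hx hxy
    haveI : Fact p.Prime := ⟨hp⟩
    obtain ⟨m1, m2, m3, m4⟩ := main_part (p := p) h4 hx hxy
    exact ⟨m1, m2, m3, m4, displayed_iff (p := p) h4 hx hxy⟩
  refine ⟨main, ?_⟩
  intro hall
  have h37 : Nat.Prime 37 := by norm_num
  have h1 := hall 37 h37 (by norm_num) 1 6 (by decide) (by norm_num)
  have h2 := (main 37 h37 (by norm_num) 1 6 (by decide) (by norm_num)).2.2.2.2.1 h1
  rcases h2 with h | h
  · norm_num at h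
  · norm_num at h

end Pool.Agent.Lib.MP_8312d7
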