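import Pool.Agent.Lib.MP_8312d7.Teich

/-!
Quartic characters with values in the Gaussian integers, and their Jacobi sums.
-/

open Finset

set_option linter.unusedSectionVars false

namespace Pool.Agent.Lib.MP_8312d7

variable {p : ℕ} [hp : Fact p.Prime]

/-- the Gaussian integer `i` -/
def gi : GaussianInt := ⟨0, 1⟩

lemma gi_sq : gi * gi = -1 := by decide

lemma gi_pow2 : gi ^ 2 = -1 := by rw [pow_two, gi_sq]

lemma gi_pow4 : gi ^ 4 = 1 := by
  rw [show 4 = 2 * 2 by norm_num, pow_mul, gi_pow2]; norm_num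

lemma gi_prim : IsPrimitiveRoot gi 4 := by
  have h := orderOf_eq_prime_pow (x := gi) (p := 2) (n := 1) (by
    rw [pow_one, gi_pow2]; decide) (by
    norm_num [gi_pow4])
  have h2 : orderOf gi = 4 := by simpa using h
  rw [← h2]
  exact IsPrimitiveRoot.orderOf gi

/-- basic data: a quartic character and a compatible ring homomorphism -/
theorem quartic_data (h5 : 5 ≤ p) (n : ℕ) (hn : 4 * n + 1 = p) :
    ∃ (χ : MulChar (ZMod p) GaussianInt) (f : GaussianInt →+* ZMod (p ^ 2)),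
      χ ^ 4 = 1 ∧ (∀ x : ZMod p, (χ ^ 2) x = ((quadraticChar (ZMod p) x : ℤ) : GaussianInt)) ∧
      (∀ x : ZMod p, f (χ x) = teich x ^ (3 * n)) := by
  have hcard : Fintype.card (ZMod p) - 1 = 4 * n := by rw [ZMod.card]; omega
  obtain ⟨χ, hχ⟩ := MulChar.exists_mulChar_orderOf (ZMod p) (n := 4) (by rw [hcard]; exact Dvd.intro n rfl) gi_prim
  obtain ⟨g, hg⟩ := IsCyclic.exists_generator (α := (ZMod p)ˣ)
  have hχ4 : χ ^ 4 = 1 := by rw [← hχ]; exact pow_orderOf_eq_one χ
  have hχ2 : χ ^ 2 ≠ 1 := by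
    intro h
    have := orderOf_dvd_of_pow_eq_one h
    rw [hχ] at this
    omega
  have hg4 : (χ g) ^ 4 = 1 := by
    rw [← MulChar.pow_apply_coe, hχ4, MulChar.one_apply_coe]
  have hg2 : (χ g) ^ 2 ≠ 1 := by
    intro h
    apply hχ2
    rw [MulChar.eq_iff hg, MulChar.pow_apply_coe, h, MulChar.one_apply_coe]
  have hgm : (χ g) ^ 2 = -1 := by
    have h1 : ((χ g) ^ 2 - 1) * ((χ g) ^ 2 + 1) = 0 := by
      linear_combination hg4
    rcases mul_eq_zero.1 h1 with h | h
    · exact absurd (sub_eq_zero.1 h) hg2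
    · exact eq_neg_of_add_eq_zero_left h
  -- shape of `χ g`
  have hshape : (χ g).re = 0 ∧ (χ g).im * (χ g).im = 1 := by
    have h1 := congrArg Zsqrtd.re hgm
    have h2 := congrArg Zsqrtd.im hgm
    rw [pow_two] at h1 h2
    simp only [Zsqrtd.re_mul, Zsqrtd.im_mul, Zsqrtd.re_neg, Zsqrtd.im_neg, Zsqrtd.re_one, Zsqrtd.im_one] at h1 h2
    have h3 : (χ g).re * (χ g).im = 0 := by linarith
    rcases mul_eq_zero.1 h3 with h | h
    · rw [h] at h1
      exact ⟨h, by linarith⟩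
    · exfalso
      rw [h] at h1
      nlinarith [mul_self_nonneg (χ g).re]
  -- the root of -1
  have hp1 : teich ((g : ZMod p)) ^ (2 * n) = -1 := by
    rw [← teich_pow]
    have h1 : (g : ZMod p) ^ (2 * n) = -1 := by
      have h2 : ((g : ZMod p) ^ (2 * n)) * ((g : ZMod p) ^ (2 * n)) = 1 := by
        rw [← pow_add, show 2 * n + 2 * n = p - 1 by omega]
        exact ZMod.pow_card_sub_one_eq_one (Units.ne_zero g)
      rcases mul_self_eq_one_iff.1 h2 with h | h
      · exfalso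
        have h3 : g ^ (2 * n) = 1 := by
          ext; push_cast; exact h
        have h4 := orderOf_dvd_of_pow_eq_one h3
        rw [orderOf_eq_card_of_forall_mem_zpowers hg, Nat.card_eq_fintype_card, ZMod.card_units] at h4
        have := Nat.le_of_dvd (by omega) h4
        omega
      · exact h
    rw [h1, teich_neg_one h5]
  set I0 : ZMod (p ^ 2) := teich ((g : ZMod p)) ^ (3 * n) with hI0
  have hI0sq : I0 * I0 = -1 := by
    rw [hI0, ← pow_add, show 3 * n + 3 * n = (2 * n) * 3 by ring, pow_mul, hp1]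
    norm_num
  set s : ℤ := (χ g).im with hs
  have hroot : ((s : ZMod (p ^ 2)) * I0) * ((s : ZMod (p ^ 2)) * I0) = ((-1 : ℤ) : ZMod (p ^ 2)) := by
    have h1 := congrArg (fun z : ℤ => (z : ZMod (p ^ 2))) hshape.2
    push_cast at h1 ⊢
    linear_combination I0 * I0 * h1 + hI0sq
  let f : GaussianInt →+* ZMod (p ^ 2) := Zsqrtd.lift ⟨(s : ZMod (p ^ 2)) * I0, hroot⟩
  have hfg : f (χ g) = I0 := by
    have h1 : f (χ g) = ((χ g).re : ZMod (p ^ 2)) + ((χ g).im : ZMod (p ^ 2)) * ((s : ZMod (p ^ 2)) * I0) :=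
      Zsqrtd.lift_apply_apply _ _
    rw [h1, hshape.1]
    have h2 := congrArg (fun z : ℤ => (z : ZMod (p ^ 2))) hshape.2
    push_cast at h2 ⊢
    linear_combination I0 * h2
  refine ⟨χ, f, hχ4, ?_, ?_⟩
  · have hq : χ ^ 2 = (quadraticChar (ZMod p)).ringHomComp (Int.castRingHom GaussianInt) := by
      rw [MulChar.eq_iff hg, MulChar.pow_apply_coe, hgm]
      have hqg : quadraticChar (ZMod p) (g : ZMod p) = -1 := by
        rcases quadraticChar_dichotomy (Units.ne_zero g) with h | h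
        · exfalso
          have h1 : quadraticChar (ZMod p) = 1 := by
            rw [MulChar.eq_iff hg, h, MulChar.one_apply_coe]
          have h2 : ringChar (ZMod p) ≠ 2 := by
            rw [ZMod.ringChar_zmod_n]; omega
          exact quadraticChar_ne_one h2 h1
        · exact h
      rw [MulChar.ringHomComp_apply, hqg]
      simp
    intro x
    rw [hq, MulChar.ringHomComp_apply]
    rfl
  · intro x
    by_cases hx : x = 0
    · rw [hx, MulChar.map_zero, map_zero, teich_zero, zero_pow (by omega)]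
    · obtain ⟨u, rfl⟩ : ∃ u : (ZMod p)ˣ, (u : ZMod p) = x := ⟨Units.mk0 x hx, rfl⟩
      obtain ⟨k, rfl⟩ : ∃ k : ℕ, g ^ k = u := by
        have := hg u
        rw [← mem_powers_iff_mem_zpowers] at this
        obtain ⟨k, hk⟩ := this
        exact ⟨k, hk⟩
      rw [Units.val_pow_eq_pow_val, map_pow, map_pow, hfg, teich_pow, hI0, ← pow_mul, ← pow_mul]
      congr 1
      ring

lemma chi_root {χ : MulChar (ZMod p) GaussianInt} (h4 : χ ^ 4 = 1) {x : ZMod p} (hx : x ≠ 0) :
    χ x = 1 ∨ χ x = -1 ∨ χ x = gi ∨ χ x = -gi := by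
  obtain ⟨k, hk, hxk⟩ := MulChar.exists_apply_eq_pow h4 gi_prim hx
  interval_cases k
  · left; simpa using hxk
  · right; right; left; simpa using hxk
  · right; left; rw [hxk, gi_pow2]
  · right; right; right; rw [hxk, show 3 = 2 + 1 by norm_num, pow_add, gi_pow2]; ring

/-- `f` of the Jacobi sum -/
lemma f_jac (h5 : 5 ≤ p) (n : ℕ) (hn : 4 * n + 1 = p) {χ : MulChar (ZMod p) GaussianInt}
    {f : GaussianInt →+* ZMod (p ^ 2)} (hf : ∀ x : ZMod p, f (χ x) = teich x ^ (3 * n)) :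
    f (jacobiSum χ (χ ^ 2)) = - (-1) ^ n * TT p n := by
  rw [← jac_TT h5 n hn (by omega)]
  unfold jacobiSum
  rw [map_sum]
  apply sum_congr rfl
  intro x _
  rw [map_mul, hf, MulChar.pow_apply' χ two_ne_zero, map_pow, hf, ← pow_mul]
  congr 1
  by_cases hx : (1 - x : ZMod p) = 0
  · rw [hx, teich_zero, zero_pow (by omega), zero_pow (by omega)]
  · rw [show 3 * n * 2 = 2 * n + (p - 1) by omega, pow_add, teich_pow_card hx, mul_one]

/-- sums over the field of functions of squares -/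
lemma sum_sq (h5 : 5 ≤ p) {χ : MulChar (ZMod p) GaussianInt} (hne : χ ≠ 1)
    (hq : ∀ x : ZMod p, (χ ^ 2) x = ((quadraticChar (ZMod p) x : ℤ) : GaussianInt)) :
    ∑ t : ZMod p, χ (1 - t ^ 2) = jacobiSum χ (χ ^ 2) := by
  have h1 : ∑ t : ZMod p, χ (1 - t ^ 2) = ∑ x : ZMod p, ∑ t ∈ univ.filter (fun t : ZMod p => t ^ 2 = x), χ (1 - x) := by
    rw [← sum_fiberwise_of_maps_to (s := univ) (t := univ) (g := fun t : ZMod p => t ^ 2) (fun _ _ => mem_univ _)]
    apply sum_congr rfl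
    intro x _
    apply sum_congr rfl
    intro t ht
    rw [(mem_filter.1 ht).2]
  have h2 : ∀ x : ZMod p, ∑ t ∈ univ.filter (fun t : ZMod p => t ^ 2 = x), χ (1 - x) =
      ((χ ^ 2) x + 1) * χ (1 - x) := by
    intro x
    rw [sum_const, nsmul_eq_mul, hq]
    have h3 := quadraticChar_card_sqrts (F := ZMod p) (by rw [ZMod.ringChar_zmod_n]; omega) x
    have h4 : (univ.filter (fun t : ZMod p => t ^ 2 = x)) = {t : ZMod p | t ^ 2 = x}.toFinset := by
      ext t; simp
    rw [h4]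
    congr 1
    have h5 := congrArg (fun z : ℤ => (z : GaussianInt)) h3
    push_cast at h5 ⊢
    exact h5
  rw [h1, sum_congr rfl (fun x _ => h2 x)]
  have h3 : ∀ x : ZMod p, ((χ ^ 2) x + 1) * χ (1 - x) = (χ ^ 2) x * χ (1 - x) + χ (1 - x) := by
    intro x; ring
  rw [sum_congr rfl (fun x _ => h3 x), sum_add_distrib]
  have h4 : ∑ x : ZMod p, χ (1 - x) = 0 := by
    rw [← MulChar.sum_eq_zero_of_ne_one hne]
    exact Equiv.sum_comp (Equiv.subLeft (1 : ZMod p)) χ
  rw [h4, add_zero, jacobiSum_comm]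
  rfl

/-- half system -/
lemma sum_half {M : Type*} [AddCommMonoid M] (n : ℕ) (hn : 4 * n + 1 = p) (F : ZMod p → M)
    (hF : ∀ x, F (-x) = F x) :
    ∑ x : ZMod p, F x = F 0 + (∑ t ∈ range (2 * n), F ((t + 1 : ℕ) : ZMod p) +
      ∑ t ∈ range (2 * n), F ((t + 1 : ℕ) : ZMod p)) := by
  have h1 : ∑ x : ZMod p, F x = ∑ t ∈ range p, F (t : ZMod p) := by
    symm
    apply sum_nbij' (fun t : ℕ => (t : ZMod p)) (fun x : ZMod p => x.val)
    · intro t _; exact mem_univ _
    · intro x _; exact mem_range.2 (ZMod.val_lt x)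
    · intro t ht; exact ZMod.val_cast_of_lt (mem_range.1 ht)
    · intro x _; exact ZMod.natCast_zmod_val x
    · intro t _; rfl
  have h0 : range p = range (2 * n + 2 * n + 1) := by
    congr 1; omega
  rw [h1, h0, sum_range_succ', Nat.cast_zero, add_comm (F 0)]
  congr 1
  rw [sum_range_add]
  congr 1
  rw [← sum_range_reflect]
  apply sum_congr rfl
  intro t ht
  have ht := mem_range.1 ht
  rw [← hF]
  congr 1
  have h2 : (2 * n + (2 * n - 1 - t) + 1 : ℕ) + (t + 1) = p := by omega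
  have h3 := congrArg (fun z : ℕ => (z : ZMod p)) h2
  push_cast at h3 ⊢
  rw [ZMod.natCast_self] at h3
  linear_combination -h3

/-- the Jacobi sum modulo `2 + 2 i` -/
lemma jac_mod (h5 : 5 ≤ p) (n : ℕ) (hn : 4 * n + 1 = p) {χ : MulChar (ZMod p) GaussianInt} (hne : χ ≠ 1)
    (h4 : χ ^ 4 = 1)
    (hq : ∀ x : ZMod p, (χ ^ 2) x = ((quadraticChar (ZMod p) x : ℤ) : GaussianInt)) :
    ∃ V : GaussianInt, jacobiSum χ (χ ^ 2) = ((4 * n - 1 : ℤ) : GaussianInt) + 2 * (1 + gi) * V := by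
  rw [← sum_sq h5 hne hq, sum_half n hn (fun t : ZMod p => χ (1 - t ^ 2)) (fun x => by
    show χ (1 - (-x) ^ 2) = χ (1 - x ^ 2)
    congr 1; ring)]
  have hunit : ∀ x : ZMod p, x ≠ 0 → ∃ v : GaussianInt, χ x = 1 + (1 + gi) * v := by
    intro x hx
    rcases chi_root h4 hx with h | h | h | h
    · exact ⟨0, by rw [h]; ring⟩
    · refine ⟨-(1 - gi), ?_⟩
      rw [h]; linear_combination (-1 : GaussianInt) * gi_sq
    · refine ⟨gi, ?_⟩
      rw [h]; linear_combination (-1 : GaussianInt) * gi_sq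
    · exact ⟨-1, by rw [h]; ring⟩
  have hterm : ∀ t : ℕ, t < 2 * n - 1 → ∃ v : GaussianInt,
      χ (1 - (((t + 1 + 1 : ℕ) : ZMod p)) ^ 2) = 1 + (1 + gi) * v := by
    intro t ht
    apply hunit
    intro h
    have h1 : ((((t + 1 + 1 : ℕ) : ZMod p)) - 1) * ((((t + 1 + 1 : ℕ) : ZMod p)) + 1) = 0 := by
      linear_combination -h
    rcases mul_eq_zero.1 h1 with h2 | h2
    · have h3 : (((t + 1 : ℕ)) : ZMod p) = 0 := by
        push_cast at h2 ⊢; linear_combination h2
      rw [ZMod.natCast_eq_zero_iff] at h3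
      exact not_dvd_of_lt (by omega) (by omega) h3
    · have h3 : (((t + 3 : ℕ)) : ZMod p) = 0 := by
        push_cast at h2 ⊢; linear_combination h2
      rw [ZMod.natCast_eq_zero_iff] at h3
      exact not_dvd_of_lt (by omega) (by omega) h3
  have hsum : ∃ V : GaussianInt, ∑ t ∈ range (2 * n), χ (1 - (((t + 1 : ℕ) : ZMod p)) ^ 2) =
      ((2 * n - 1 : ℤ) : GaussianInt) + (1 + gi) * V := by
    rw [show 2 * n = (2 * n - 1) + 1 by omega, sum_range_succ']
    have h0 : χ (1 - (((0 + 1 : ℕ) : ZMod p)) ^ 2) = 0 := by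
      rw [show (1 - (((0 + 1 : ℕ) : ZMod p)) ^ 2) = 0 by push_cast; ring, MulChar.map_zero]
    rw [h0, add_zero]
    have hgen : ∀ k : ℕ, k ≤ 2 * n - 1 → ∃ V : GaussianInt,
        ∑ t ∈ range k, χ (1 - (((t + 1 + 1 : ℕ) : ZMod p)) ^ 2) = (k : GaussianInt) + (1 + gi) * V := by
      intro k
      induction k with
      | zero => intro _; exact ⟨0, by simp⟩
      | succ k ih =>
        intro hk
        obtain ⟨V, hV⟩ := ih (by omega)
        obtain ⟨v, hv⟩ := hterm k (by omega)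
        refine ⟨V + v, ?_⟩
        rw [sum_range_succ, hV, hv]
        push_cast; ring
    obtain ⟨V, hV⟩ := hgen (2 * n - 1) le_rfl
    refine ⟨V, ?_⟩
    rw [hV]
    congr 1
    have : ((2 * n - 1 : ℕ) : ℤ) = 2 * n - 1 := by omega
    have h2 := congrArg (fun z : ℤ => (z : GaussianInt)) this
    push_cast at h2 ⊢
    rw [h2]
  obtain ⟨V, hV⟩ := hsum
  refine ⟨V, ?_⟩
  show χ (1 - (0 : ZMod p) ^ 2) + _ = _
  rw [hV]
  have h1 : χ (1 - (0 : ZMod p) ^ 2) = 1 := by
    rw [show (1 - (0 : ZMod p) ^ 2) = 1 by ring, map_one]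
  rw [h1]
  push_cast
  ring

end Pool.Agent.Lib.MP_8312d7
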