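import Pool.Agent.Lib.MP_8312d7.Gauss

/-!
The quartic Jacobi sum: norm, sign, and its residue modulo `3`.
-/

open Finset

set_option linter.unusedSectionVars false

namespace Pool.Agent.Lib.MP_8312d7

variable {p : ℕ} [hp : Fact p.Prime]

lemma two_ne_zmod (h5 : 5 ≤ p) : (2 : ZMod p) ≠ 0 := by
  intro h
  have h3 : ((2 : ℕ) : ZMod p) = 0 := by exact_mod_cast h
  rw [ZMod.natCast_eq_zero_iff] at h3
  exact not_dvd_of_lt (by omega) (by omega) h3

lemma three_ne_zmod (h5 : 5 ≤ p) : (3 : ZMod p) ≠ 0 := by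
  intro h
  have h3 : ((3 : ℕ) : ZMod p) = 0 := by exact_mod_cast h
  rw [ZMod.natCast_eq_zero_iff] at h3
  exact not_dvd_of_lt (by omega) (by omega) h3

/-- `χ(4) J(χ,χ) = J(χ,χ²)` -/
lemma jac_double (h5 : 5 ≤ p) {χ : MulChar (ZMod p) GaussianInt} (hne : χ ≠ 1)
    (hq : ∀ x : ZMod p, (χ ^ 2) x = ((quadraticChar (ZMod p) x : ℤ) : GaussianInt)) :
    χ 4 * jacobiSum χ χ = jacobiSum χ (χ ^ 2) := by
  rw [← sum_sq h5 hne hq]
  unfold jacobiSum
  rw [mul_sum]
  have this : ∀ x : ZMod p, χ 4 * (χ x * χ (1 - x)) = χ (1 - (2 * x - 1) ^ 2) := by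
    intro x
    rw [← map_mul, ← map_mul]
    congr 1
    ring
  rw [sum_congr rfl (fun x _ => this x)]
  exact Equiv.sum_comp ((Equiv.mulLeft₀ (2 : ZMod p) (two_ne_zmod h5)).trans (Equiv.subRight 1))
    (fun t => χ (1 - t ^ 2))

/-- `χ(4) = (-1)^n` -/
lemma chi_four (h5 : 5 ≤ p) (n : ℕ) (hn : 4 * n + 1 = p) {χ : MulChar (ZMod p) GaussianInt}
    (hq : ∀ x : ZMod p, (χ ^ 2) x = ((quadraticChar (ZMod p) x : ℤ) : GaussianInt)) :
    χ 4 = (-1) ^ n := by
  have h1 : χ 4 = (χ ^ 2) 2 := by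
    rw [MulChar.pow_apply' χ two_ne_zero, ← map_pow]
    congr 1
    norm_num
  rw [h1, hq, quadraticChar_two (by rw [ZMod.ringChar_zmod_n]; omega), ZMod.card,
    ZMod.χ₈_nat_eq_if_mod_eight]
  rcases Nat.even_or_odd n with he | ho
  · rw [he.neg_one_pow, if_neg, if_pos]
    · rfl
    · obtain ⟨k, hk⟩ := he; omega
    · omega
  · rw [ho.neg_one_pow, if_neg, if_neg]
    · rfl
    · obtain ⟨k, hk⟩ := ho; omega
    · omega

/-- the norm of the Jacobi sum -/
lemma jac_norm (h5 : 5 ≤ p) {χ : MulChar (ZMod p) GaussianInt}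
    (h4 : χ ^ 4 = 1) (h2 : χ ^ 2 ≠ 1) :
    jacobiSum χ (χ ^ 2) * star (jacobiSum χ (χ ^ 2)) = (p : GaussianInt) := by
  apply GaussianInt.toComplex_injective
  rw [map_mul, GaussianInt.toComplex_star, ← jacobiSum_ringHomComp]
  set c := χ.ringHomComp GaussianInt.toComplex with hc
  have hinj := GaussianInt.toComplex_injective
  have e2 : (χ ^ 2).ringHomComp GaussianInt.toComplex = c ^ 2 := by
    rw [hc, MulChar.ringHomComp_pow]
  rw [e2]
  have c1 : c ≠ 1 := by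
    rw [hc, MulChar.ringHomComp_ne_one_iff hinj]
    rintro rfl
    exact h2 (one_pow 2)
  have c2 : c ^ 2 ≠ 1 := by
    rw [← e2, MulChar.ringHomComp_ne_one_iff hinj]
    exact h2
  have c3 : c * c ^ 2 ≠ 1 := by
    rw [← pow_succ', hc, MulChar.ringHomComp_pow, MulChar.ringHomComp_ne_one_iff hinj]
    intro h
    apply c1
    have h1 : χ = 1 := by
      have : χ ^ 4 = χ ^ 3 * χ := pow_succ χ 3
      rw [h4, show χ ^ 3 = χ ^ (2 + 1) from rfl, h, one_mul] at this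
      exact this.symm
    rw [hc, h1]
    exact MulChar.ringHomComp_one _
  have hconj : (starRingEnd ℂ) (jacobiSum c (c ^ 2)) = jacobiSum c⁻¹ (c ^ 2)⁻¹ := by
    unfold jacobiSum
    rw [map_sum]
    apply sum_congr rfl
    intro x _
    rw [map_mul]
    congr 1
    · exact MulChar.star_apply' c x
    · exact MulChar.star_apply' (c ^ 2) (1 - x)
  rw [hconj, jacobiSum_mul_jacobiSum_inv _ c1 c2 c3]
  · rw [ZMod.card]
    simp
  · rw [ZMod.ringChar_zmod_n, ringChar.eq_zero]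
    exact hp.out.ne_zero.symm

/-- the square of the Jacobi sum modulo `3` -/
lemma jac_mod_three (h5 : 5 ≤ p) {χ : MulChar (ZMod p) GaussianInt} (hne : χ ≠ 1)
    (h4 : χ ^ 4 = 1)
    (hq : ∀ x : ZMod p, (χ ^ 2) x = ((quadraticChar (ZMod p) x : ℤ) : GaussianInt)) :
    (3 : ℤ) ∣ (jacobiSum χ (χ ^ 2) ^ 2 - χ 4 * χ 3).re ∧ (3 : ℤ) ∣ (jacobiSum χ (χ ^ 2) ^ 2 - χ 4 * χ 3).im := by
  haveI : Fact (Nat.Prime 3) := ⟨Nat.prime_three⟩
  let K := AlgebraicClosure (ZMod 3)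
  haveI hK3 : CharP K 3 := inferInstance
  -- square root of -1
  obtain ⟨r, hr⟩ : ∃ r : K, r * r = -1 := by
    obtain ⟨r, hr⟩ := IsAlgClosed.exists_pow_nat_eq (-1 : K) (n := 2) (by norm_num)
    exact ⟨r, by rw [← pow_two]; exact hr⟩
  let e : GaussianInt →+* K := Zsqrtd.lift ⟨r, by push_cast; exact hr⟩
  have he : ∀ z : GaussianInt, e z = (z.re : K) + (z.im : K) * r := fun z => Zsqrtd.lift_apply_apply _ _
  -- primitive p-th root of unity
  have hpK : (p : K) ≠ 0 := by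
    intro h
    rw [CharP.cast_eq_zero_iff K 3] at h
    have := (Nat.prime_dvd_prime_iff_eq Nat.prime_three hp.out).1 h
    omega
  haveI : NeZero (p : K) := ⟨hpK⟩
  obtain ⟨ζ, hζ⟩ := HasEnoughRootsOfUnity.exists_primitiveRoot K p
  have hψ := AddChar.zmodChar_primitive_of_primitive_root p hζ
  set ψ := AddChar.zmodChar p ((IsPrimitiveRoot.iff_def ζ p).mp hζ).left with hψdef
  set c := χ.ringHomComp e with hc
  have c4 : c ^ 4 = 1 := by
    rw [hc, MulChar.ringHomComp_pow, h4, MulChar.ringHomComp_one]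
  have h2K : (2 : K) ≠ 0 := by
    intro h
    have h' : ((2 : ℕ) : K) = 0 := by exact_mod_cast h
    rw [CharP.cast_eq_zero_iff K 3] at h'
    omega
  have c2 : c ^ 2 ≠ 1 := by
    intro h
    have hns : ∃ x : ZMod p, quadraticChar (ZMod p) x = -1 :=
      quadraticChar_exists_neg_one (by rw [ZMod.ringChar_zmod_n]; omega)
    obtain ⟨x, hx⟩ := hns
    have hx0 : x ≠ 0 := by
      rintro rfl
      rw [MulChar.map_zero] at hx
      exact absurd hx (by norm_num)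
    have h1 : (c ^ 2) x = -1 := by
      rw [hc, MulChar.ringHomComp_pow, MulChar.ringHomComp_apply, hq, hx]
      simp
    rw [h, MulChar.one_apply (Ne.isUnit hx0)] at h1
    apply h2K
    linear_combination h1
  have cord : orderOf c = 4 := by
    have := orderOf_eq_prime_pow (x := c) (p := 2) (n := 1) (by rw [pow_one]; exact c2) (by norm_num [c4])
    simpa using this
  have c1 : c ≠ 1 := by
    intro h; apply c2; rw [h, one_pow]
  have hJ1 : jacobiSum c c = e (jacobiSum χ χ) := by rw [hc, jacobiSum_ringHomComp]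
  have hJ2 : jacobiSum c (c ^ 2) = e (jacobiSum χ (χ ^ 2)) := by
    rw [hc, MulChar.ringHomComp_pow, jacobiSum_ringHomComp]
  -- Gauss sums
  set g := gaussSum c ψ with hg
  have g1 : g ^ 3 = gaussSum (c ^ 3) (ψ ^ 3) := gaussSum_frob 3 c ψ
  have hu3 : IsUnit (3 : ZMod p) := Ne.isUnit (three_ne_zmod h5)
  have g2 : (c ^ 3) 3 * g ^ 3 = gaussSum (c ^ 3) ψ := by
    rw [g1, AddChar.pow_mulShift]
    have := gaussSum_mulShift (c ^ 3) ψ hu3.unit
    rw [hu3.unit_spec] at this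
    rw [← this]
    norm_num
  have g3 := gaussSum_mul_gaussSum_pow_orderOf_sub_one c1 hψ
  have g4 := gaussSum_pow_eq_prod_jacobiSum (χ := c) (ψ := ψ) (by rw [cord]; norm_num) hψ
  rw [cord] at g3 g4
  rw [show (4 : ℕ) - 1 = 3 by norm_num] at g3 g4
  rw [← hg] at g3 g4
  rw [ZMod.card] at g3 g4
  rw [show Ico 1 3 = {1, 2} by decide, prod_pair (by norm_num), pow_one, hJ1, hJ2] at g4
  rw [← g2] at g3
  have hcm : c (-1) ≠ 0 := by
    have : c (-1) * c (-1) = 1 := by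
      rw [← map_mul]; norm_num
    intro h
    rw [h, zero_mul] at this
    exact zero_ne_one this
  have g5 : (c (-1) * (p : K)) * ((c ^ 3) 3 * (e (jacobiSum χ χ) * e (jacobiSum χ (χ ^ 2)))) =
      (c (-1) * (p : K)) * 1 := by
    linear_combination g3 - (c ^ 3) 3 * g4
  have g6 := mul_left_cancel₀ (mul_ne_zero hcm hpK) g5
  have g7 : c 3 ^ 4 = 1 := by
    rw [← MulChar.pow_apply' c (by norm_num), c4, MulChar.one_apply hu3]
  have g8 : e (χ 4) * e (jacobiSum χ χ) = e (jacobiSum χ (χ ^ 2)) := by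
    rw [← map_mul, jac_double h5 hne hq]
  have g9 : (c ^ 3) 3 = c 3 ^ 3 := MulChar.pow_apply' c (by norm_num) 3
  have g10 : c 3 = e (χ 3) := rfl
  have key : e (jacobiSum χ (χ ^ 2) ^ 2 - χ 4 * χ 3) = 0 := by
    rw [map_sub, map_pow, map_mul]
    rw [g9, g10] at g6
    rw [g10] at g7
    linear_combination (-e (jacobiSum χ (χ ^ 2))) * g8 + (e (χ 4) * e (χ 3)) * g6 - (e (χ 4) * e (jacobiSum χ χ) * e (jacobiSum χ (χ ^ 2))) * g7
  -- kernel
  set z := jacobiSum χ (χ ^ 2) ^ 2 - χ 4 * χ 3 with hz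
  rw [he] at key
  have hk : ((z.re ^ 2 + z.im ^ 2 : ℤ) : K) = 0 := by
    push_cast
    linear_combination ((z.re : K) - (z.im : K) * r) * key + (z.im : K) ^ 2 * hr
  rw [CharP.intCast_eq_zero_iff K 3] at hk
  have h3 : (3 : ℤ) ∣ z.re ^ 2 + z.im ^ 2 := by exact_mod_cast hk
  have hm1 : z.re % 3 = 0 ∨ z.re % 3 = 1 ∨ z.re % 3 = 2 := by omega
  have hm2 : z.im % 3 = 0 ∨ z.im % 3 = 1 ∨ z.im % 3 = 2 := by omega
  have h4 : (z.re ^ 2 + z.im ^ 2) % 3 = 0 := Int.emod_eq_zero_of_dvd h3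
  rcases hm1 with h | h | h <;> rcases hm2 with h' | h' | h' <;>
    simp [Int.add_emod, pow_two, Int.mul_emod, h, h'] at h4 <;>
    constructor <;> omega

end Pool.Agent.Lib.MP_8312d7
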