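import Pool.Agent.Lib.MP_8312d7.Jac

/-!
The value of the Jacobi sum and the final evaluation modulo `p ^ 2`.
-/

open Finset

set_option linter.unusedSectionVars false

namespace Pool.Agent.Lib.MP_8312d7

variable {p : ℕ} [hp : Fact p.Prime]

lemma cube_free {a b : ℤ} (hab : a ^ 2 + b ^ 2 = p) (h5 : 5 ≤ p) (ha : (3 : ℤ) ∣ a) : ¬ (3 : ℤ) ∣ b := by
  intro hb
  have h1 : (3 : ℤ) ∣ (p : ℤ) := by
    rw [← hab]
    exact dvd_add (dvd_pow ha two_ne_zero) (dvd_pow hb two_ne_zero)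
  have h2 : 3 ∣ p := by exact_mod_cast h1
  have := (Nat.prime_dvd_prime_iff_eq Nat.prime_three hp.out).1 h2
  omega

/-- identification of a fourth root of unity from its residue mod 3 -/
lemma root_mod {z : GaussianInt} (hz : z = 1 ∨ z = -1 ∨ z = gi ∨ z = -gi) {u v : ℤ}
    (h1 : (3 : ℤ) ∣ u - z.re) (h2 : (3 : ℤ) ∣ v - z.im) :
    (u % 3 = 1 → v % 3 = 0 → z = 1) ∧ (u % 3 = 2 → v % 3 = 0 → z = -1) ∧
    (u % 3 = 0 → v % 3 = 2 → z = -gi) ∧ (u % 3 = 0 → v % 3 = 1 → z = gi) := by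
  have g1 : gi.re = 0 := rfl
  have g2 : gi.im = 1 := rfl
  rcases hz with h | h | h | h <;> subst h <;>
    simp only [Zsqrtd.re_one, Zsqrtd.im_one, Zsqrtd.re_neg, Zsqrtd.im_neg, g1, g2] at h1 h2 <;>
    refine ⟨?_, ?_, ?_, ?_⟩ <;> intro h3 h4 <;> first | rfl | (exfalso; omega)

theorem jac_main (h5 : 5 ≤ p) (n : ℕ) (hn : 4 * n + 1 = p) :
    ∃ (a b : ℤ) (I : ZMod (p ^ 2)), I * I = -1 ∧ (a : ZMod (p ^ 2)) + (b : ZMod (p ^ 2)) * I = TT p n ∧
      a ^ 2 + b ^ 2 = p ∧ a % 4 = 1 ∧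
      ((3 : ℤ) ∣ b → ((3 : ℕ) : ZMod (p ^ 2)) ^ (n * p) = (-1) ^ n) ∧
      ((3 : ℤ) ∣ a → ((3 : ℕ) : ZMod (p ^ 2)) ^ (n * p) = - (-1) ^ n) ∧
      ((3 : ℤ) ∣ a - b → ¬ (3 : ℤ) ∣ a → ((3 : ℕ) : ZMod (p ^ 2)) ^ (n * p) = (-1) ^ n * I) ∧
      ((3 : ℤ) ∣ a + b → ¬ (3 : ℤ) ∣ a → ((3 : ℕ) : ZMod (p ^ 2)) ^ (n * p) = - ((-1) ^ n * I)) := by
  obtain ⟨χ, f, h4, hq, hf⟩ := quartic_data h5 n hn
  have h2 : χ ^ 2 ≠ 1 := by
    intro h
    obtain ⟨x, hx⟩ := quadraticChar_exists_neg_one (F := ZMod p) (by rw [ZMod.ringChar_zmod_n]; omega)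
    have hx0 : x ≠ 0 := by
      rintro rfl
      rw [MulChar.map_zero] at hx
      exact absurd hx (by norm_num)
    have h1 := hq x
    rw [hx, h, MulChar.one_apply (Ne.isUnit hx0)] at h1
    exact absurd h1 (by decide)
  have hne : χ ≠ 1 := by
    rintro rfl
    exact h2 (one_pow 2)
  have hnorm := jac_norm h5 h4 h2
  obtain ⟨V, hV⟩ := jac_mod h5 n hn hne h4 hq
  have h3 := jac_mod_three h5 hne h4 hq
  have hfJ := f_jac h5 n hn hf
  have hc4 := chi_four h5 n hn hq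
  have hroot := chi_root h4 (three_ne_zmod h5)
  set J := jacobiSum χ (χ ^ 2) with hJ
  -- norm in coordinates
  have hN : J.re ^ 2 + J.im ^ 2 = p := by
    have := congrArg Zsqrtd.re hnorm
    rw [Zsqrtd.re_mul, Zsqrtd.re_star, Zsqrtd.im_star, Zsqrtd.re_natCast] at this
    linarith
  -- coordinates mod 4
  have hre : J.re = 4 * n - 1 + 2 * (V.re - V.im) := by
    have := congrArg Zsqrtd.re hV
    rw [this]
    simp only [Zsqrtd.re_add, Zsqrtd.re_mul, Zsqrtd.re_intCast, Zsqrtd.im_mul, Zsqrtd.im_add,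
      Zsqrtd.re_one, Zsqrtd.im_one, Zsqrtd.re_ofNat, Zsqrtd.im_ofNat]
    have g1 : gi.re = 0 := rfl
    have g2 : gi.im = 1 := rfl
    rw [g1, g2]
    push_cast
    ring
  have him : J.im = 2 * (V.re + V.im) := by
    have := congrArg Zsqrtd.im hV
    rw [this]
    simp only [Zsqrtd.re_add, Zsqrtd.re_mul, Zsqrtd.im_intCast, Zsqrtd.im_mul, Zsqrtd.im_add,
      Zsqrtd.re_one, Zsqrtd.im_one, Zsqrtd.re_ofNat, Zsqrtd.im_ofNat]
    have g1 : gi.re = 0 := rfl
    have g2 : gi.im = 1 := rfl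
    rw [g1, g2]
    push_cast
    ring
  set w := V.re + V.im with hw
  set c : ℤ := 2 * n - 1 + w - 2 * V.im with hc
  have hre' : J.re = 2 * c + 1 := by rw [hre, hc, hw]; ring
  have hpz : (p : ℤ) = 4 * n + 1 := by rw [← hn]; push_cast; ring
  have hcw : c * (c + 1) + w ^ 2 = n := by
    rw [hre', him, hpz] at hN
    linarith
  have hev : Even (c * (c + 1)) := Int.even_mul_succ_self c
  have hw2 : (w ^ 2) % 2 = w % 2 := by
    rcases Int.even_or_odd w with h | h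
    · obtain ⟨k, hk⟩ := h
      rw [hk]
      have : (k + k) ^ 2 = 2 * (2 * k ^ 2) := by ring
      omega
    · obtain ⟨k, hk⟩ := h
      rw [hk]
      have : (2 * k + 1) ^ 2 = 2 * (2 * k ^ 2 + 2 * k) + 1 := by ring
      omega
  have hpar : w % 2 = (n : ℤ) % 2 := by
    obtain ⟨k, hk⟩ := hev
    omega
  have hcpar : c % 2 = (1 + n : ℤ) % 2 := by omega
  -- sign
  obtain ⟨s, hs1, hs2, hs3⟩ : ∃ s : ℤ, (s : ZMod (p ^ 2)) = - (-1) ^ n ∧ s * s = 1 ∧ (s * J.re) % 4 = 1 := by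
    rcases Nat.even_or_odd n with he | ho
    · refine ⟨-1, ?_, by norm_num, ?_⟩
      · rw [he.neg_one_pow]; push_cast; ring
      · obtain ⟨k, hk⟩ := he
        rw [hre']; omega
    · refine ⟨1, ?_, by norm_num, ?_⟩
      · rw [ho.neg_one_pow]; push_cast; ring
      · obtain ⟨k, hk⟩ := ho
        rw [hre']; omega
  have hI : f gi * f gi = -1 := by
    rw [← map_mul, gi_sq, map_neg, map_one]
  have hfz : ∀ z : GaussianInt, f z = (z.re : ZMod (p ^ 2)) + (z.im : ZMod (p ^ 2)) * f gi := by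
    intro z
    have hz : z = (z.re : GaussianInt) + (z.im : GaussianInt) * gi := by
      rw [Zsqrtd.ext_iff]
      have g1 : gi.re = 0 := rfl
      have g2 : gi.im = 1 := rfl
      constructor
      · simp [g1, g2]
      · simp [g1, g2]
    conv_lhs => rw [hz]
    rw [map_add, map_mul, map_intCast, map_intCast]
  have hm1 : ((-1 : ZMod (p ^ 2)) ^ n) * (-1) ^ n = 1 := by
    rw [← mul_pow]; norm_num
  -- tau
  have htau : ((3 : ℕ) : ZMod (p ^ 2)) ^ (n * p) * f (χ 3) = 1 := by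
    rw [hf]
    have e1 : teich (p := p) (3 : ZMod p) = ((3 : ℕ) : ZMod (p ^ 2)) ^ p := by
      have := teich_nat (p := p) 3
      rw [← this]
      norm_num
    rw [mul_comm n p, pow_mul, ← e1, ← pow_add, show n + 3 * n = p - 1 by omega]
    exact teich_pow_card (three_ne_zmod h5)
  -- residues
  have hc4' : χ 4 * χ 4 = 1 := by
    rw [hc4, ← mul_pow]; norm_num
  set z := χ 4 * χ 3 with hz
  have hzroot : z = 1 ∨ z = -1 ∨ z = gi ∨ z = -gi := by
    rw [hz, hc4]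
    rcases Nat.even_or_odd n with he | ho
    · rw [he.neg_one_pow, one_mul]; exact hroot
    · rw [ho.neg_one_pow]
      rcases hroot with h | h | h | h
      · right; left; rw [h]; ring
      · left; rw [h]; ring
      · right; right; right; rw [h]; ring
      · right; right; left; rw [h]; ring
  have hfz3 : f (χ 3) = (-1) ^ n * f z := by
    have : χ 3 = (-1) ^ n * z := by
      rw [hz, ← hc4]
      linear_combination (-χ 3) * hc4'
    rw [this, map_mul, map_pow, map_neg, map_one]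
  have hJ2re : (J ^ 2).re = J.re ^ 2 - J.im ^ 2 := by
    rw [pow_two, Zsqrtd.re_mul]; ring
  have hJ2im : (J ^ 2).im = 2 * (J.re * J.im) := by
    rw [pow_two, Zsqrtd.im_mul]; ring
  rw [Zsqrtd.re_sub, Zsqrtd.im_sub, hJ2re, hJ2im] at h3
  set a := s * J.re with ha
  set b := s * J.im with hb
  have ha2 : a ^ 2 = J.re ^ 2 := by rw [ha]; linear_combination (J.re ^ 2) * hs2
  have hb2 : b ^ 2 = J.im ^ 2 := by rw [hb]; linear_combination (J.im ^ 2) * hs2
  have hab : a * b = J.re * J.im := by rw [ha, hb]; linear_combination (J.re * J.im) * hs2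
  rw [← ha2, ← hb2, ← hab] at h3
  obtain ⟨r1, r2, r3, r4⟩ := root_mod hzroot h3.1 h3.2
  refine ⟨a, b, f gi, hI, ?_, ?_, hs3, ?_, ?_, ?_, ?_⟩
  · have h1 := hfz J
    rw [hfJ] at h1
    rw [ha, hb]
    push_cast
    rw [hs1]
    linear_combination (-1) ^ n * h1 + TT p n * hm1
  · rw [ha2, hb2]; exact hN
  · intro h
    have hna : ¬ (3 : ℤ) ∣ a := fun h' => cube_free (p := p) (a := a) (b := b) (by rw [ha2, hb2]; exact hN) h5 h' h
    have hz1 : z = 1 := by
      apply r1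
      · have hm : a % 3 = 1 ∨ a % 3 = 2 := by omega
        have hm' : b % 3 = 0 := by omega
        rcases hm with h' | h' <;> simp [Int.sub_emod, pow_two, Int.mul_emod, h', hm']
      · have hm' : b % 3 = 0 := by omega
        simp [Int.mul_emod, hm']
    rw [hfz3, hz1, map_one] at htau
    linear_combination (-1) ^ n * htau - ((3 : ℕ) : ZMod (p ^ 2)) ^ (n * p) * hm1
  · intro h
    have hnb := cube_free (p := p) (a := a) (b := b) (by rw [ha2, hb2]; exact hN) h5 h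
    have hz1 : z = -1 := by
      apply r2
      · have hm : b % 3 = 1 ∨ b % 3 = 2 := by omega
        have hm' : a % 3 = 0 := by omega
        rcases hm with h' | h' <;> simp [Int.sub_emod, pow_two, Int.mul_emod, h', hm']
      · have hm' : a % 3 = 0 := by omega
        simp [Int.mul_emod, hm']
    rw [hfz3, hz1, map_neg, map_one] at htau
    linear_combination (-(-1) ^ n) * htau - ((3 : ℕ) : ZMod (p ^ 2)) ^ (n * p) * hm1
  · intro h hna
    have hz1 : z = -gi := by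
      have hm : (a % 3 = 1 ∧ b % 3 = 1) ∨ (a % 3 = 2 ∧ b % 3 = 2) := by omega
      apply r3
      · rcases hm with ⟨h', h''⟩ | ⟨h', h''⟩ <;> simp [Int.sub_emod, pow_two, Int.mul_emod, h', h'']
      · rcases hm with ⟨h', h''⟩ | ⟨h', h''⟩ <;> simp [Int.mul_emod, h', h'']
    rw [hfz3, hz1, map_neg] at htau
    linear_combination ((-1) ^ n * f gi) * htau + ((3 : ℕ) : ZMod (p ^ 2)) ^ (n * p) * (f gi * f gi) * hm1 + ((3 : ℕ) : ZMod (p ^ 2)) ^ (n * p) * hI
  · intro h hna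
    have hz1 : z = gi := by
      have hm : (a % 3 = 1 ∧ b % 3 = 2) ∨ (a % 3 = 2 ∧ b % 3 = 1) := by omega
      apply r4
      · rcases hm with ⟨h', h''⟩ | ⟨h', h''⟩ <;> simp [Int.sub_emod, pow_two, Int.mul_emod, h', h'']
      · rcases hm with ⟨h', h''⟩ | ⟨h', h''⟩ <;> simp [Int.mul_emod, h', h'']
    rw [hfz3, hz1] at htau
    linear_combination (-((-1) ^ n * f gi)) * htau + ((3 : ℕ) : ZMod (p ^ 2)) ^ (n * p) * (f gi * f gi) * hm1 + ((3 : ℕ) : ZMod (p ^ 2)) ^ (n * p) * hI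

/-- `2 c - p / (2 c)` -/
def WW (p : ℕ) (c : ℤ) : ℚ := 2 * (c : ℚ) - (p : ℚ) / (2 * (c : ℚ))

lemma WW_neg (c : ℤ) : WW p (-c) = - WW p c := by
  unfold WW
  push_cast
  rw [mul_neg, div_neg]
  ring

lemma W_phi {c : ℤ} {u v : ZMod (p ^ 2)} (huv : u * v = (p : ZMod (p ^ 2))) (hsum : u + v = 2 * (c : ZMod (p ^ 2)))
    (hu : IsUnit u) : Pint p (WW p c) ∧ phi p (WW p c) = u := by
  have P2 := P_sq (p := p)
  have hv2 : v * v = 0 := by
    have : (u * u) * (v * v) = (u * u) * 0 := by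
      linear_combination (u * v + (p : ZMod (p ^ 2))) * huv + P2
    exact (hu.mul hu).mul_left_cancel this
  have h2c : IsUnit ((2 * c : ℤ) : ZMod (p ^ 2)) := by
    have h1 : ((2 * c : ℤ) : ZMod (p ^ 2)) = u + v := by rw [hsum]; push_cast; ring
    rw [h1]
    exact IsNilpotent.isUnit_add_left_of_commute ⟨2, by rw [pow_two v]; exact hv2⟩ hu (Commute.all _ _)
  have hi := Pint_int (p := p) (2 * c)
  have hinv := Pint_inv (p := p) hi.1 (by rw [hi.2]; exact h2c)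
  have hpp := Pint_nat (p := p) p
  have hm := Pint_mul (p := p) hpp.1 hinv.1
  have hs := Pint_sub (p := p) hi.1 hm.1
  have hW : WW p c = ((2 * c : ℤ) : ℚ) - (p : ℚ) * (((2 * c : ℤ) : ℚ))⁻¹ := by
    unfold WW; push_cast; rw [div_eq_mul_inv]
  rw [hW]
  refine ⟨hs.1, ?_⟩
  rw [hs.2, hm.2, hi.2, hpp.2]
  have hinv2 := hinv.2
  rw [hi.2] at hinv2
  set q := phi p (((2 * c : ℤ) : ℚ))⁻¹ with hqd
  apply h2c.mul_left_cancel
  push_cast at hinv2 ⊢
  linear_combination (-(p : ZMod (p ^ 2))) * hinv2 - (u + v + 2 * (c : ZMod (p ^ 2)) - u) * hsum + 1 * hv2 + huv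

end Pool.Agent.Lib.MP_8312d7
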