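import Pool.Agent.Lib.MP_8312d7.Core

/-!
Teichmueller representatives modulo `p ^ 2` and the evaluation of a Jacobi sum.
-/

open Finset

set_option linter.unusedSectionVars false

namespace Pool.Agent.Lib.MP_8312d7

variable {p : ℕ} [hp : Fact p.Prime]

/-- the Teichmueller representative modulo `p ^ 2` -/
noncomputable def teich (x : ZMod p) : ZMod (p ^ 2) := ((x.val : ℕ) : ZMod (p ^ 2)) ^ p

lemma int_pow_eq {a b : ℤ} (h : (a : ZMod p) = (b : ZMod p)) :
    (a : ZMod (p ^ 2)) ^ p = (b : ZMod (p ^ 2)) ^ p := by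
  have h1 : (p : ℤ) ∣ a - b := by
    rw [← ZMod.intCast_zmod_eq_zero_iff_dvd]
    push_cast
    rw [h, sub_self]
  have h2 := dvd_sub_pow_of_dvd_sub (R := ℤ) (p := p) h1 1
  rw [pow_one] at h2
  have h3 : ((a ^ p - b ^ p : ℤ) : ZMod (p ^ 2)) = 0 := by
    rw [ZMod.intCast_zmod_eq_zero_iff_dvd]
    exact_mod_cast h2
  push_cast at h3
  exact sub_eq_zero.1 h3

lemma teich_int (a : ℤ) : teich (p := p) (a : ZMod p) = (a : ZMod (p ^ 2)) ^ p := by
  unfold teich
  have : (((((a : ZMod p)).val : ℕ) : ℤ) : ZMod p) = (a : ZMod p) := by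
    push_cast
    exact ZMod.natCast_zmod_val _
  have h := int_pow_eq (p := p) this
  rw [← h]
  push_cast
  rfl

lemma teich_nat (a : ℕ) : teich (p := p) (a : ZMod p) = (a : ZMod (p ^ 2)) ^ p := by
  have := teich_int (p := p) (a : ℤ)
  push_cast at this
  exact this

lemma val_int (x : ZMod p) : ((x.val : ℤ) : ZMod p) = x := by
  push_cast
  exact ZMod.natCast_zmod_val x

lemma teich_mul (x y : ZMod p) : teich (x * y) = teich x * teich y := by
  have h1 : x * y = (((x.val : ℤ) * (y.val : ℤ) : ℤ) : ZMod p) := by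
    rw [Int.cast_mul, val_int, val_int]
  rw [h1, teich_int]
  unfold teich
  push_cast
  ring

lemma teich_one : teich (1 : ZMod p) = 1 := by
  have := teich_nat (p := p) 1
  push_cast at this
  rw [this, one_pow]

lemma teich_zero : teich (0 : ZMod p) = 0 := by
  have := teich_nat (p := p) 0
  push_cast at this
  rw [this, zero_pow hp.out.ne_zero]

lemma teich_pow (x : ZMod p) (k : ℕ) : teich (x ^ k) = teich x ^ k := by
  induction k with
  | zero => rw [pow_zero x, pow_zero (teich x), teich_one]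
  | succ k ih => rw [pow_succ x k, teich_mul, ih, pow_succ (teich x) k]

lemma teich_neg_one (h5 : 5 ≤ p) : teich (-1 : ZMod p) = -1 := by
  have := teich_int (p := p) (-1)
  push_cast at this
  rw [this]
  have hodd : Odd p := hp.out.odd_of_ne_two (by omega)
  exact hodd.neg_one_pow

lemma teich_pow_card {x : ZMod p} (hx : x ≠ 0) : teich x ^ (p - 1) = 1 := by
  rw [← teich_pow, ZMod.pow_card_sub_one_eq_one hx, teich_one]

lemma teich_lift (x : ZMod p) : ∃ w : ZMod (p ^ 2),
    teich x = ((x.val : ℤ) : ZMod (p ^ 2)) + (p : ZMod (p ^ 2)) * w := by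
  obtain ⟨w, hw⟩ := lift_mod (p := p) (a := (x.val : ℤ) ^ p) (b := (x.val : ℤ)) (by
    rw [Int.cast_pow, val_int, ZMod.pow_card])
  refine ⟨w, ?_⟩
  unfold teich
  push_cast at hw ⊢
  exact hw

lemma isUnit_of_lift {y : ZMod (p ^ 2)} {a : ℤ} {w : ZMod (p ^ 2)}
    (h : y = (a : ZMod (p ^ 2)) + (p : ZMod (p ^ 2)) * w) (ha : (a : ZMod p) ≠ 0) : IsUnit y := by
  rw [h]
  have hu : IsUnit ((a : ℤ) : ZMod (p ^ 2)) := by
    apply isUnit_int
    intro h1
    exact ha ((ZMod.intCast_zmod_eq_zero_iff_dvd a p).2 h1)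
  have hn : IsNilpotent ((p : ZMod (p ^ 2)) * w) := by
    refine ⟨2, ?_⟩
    linear_combination w ^ 2 * P_sq (p := p)
  have h3 := IsNilpotent.isUnit_add_left_of_commute hn hu (Commute.all _ _)
  exact h3

/-- power sums of Teichmueller representatives -/
lemma teich_sum (n : ℕ) (hn : 4 * n + 1 = p) (N : ℕ) (hN : 0 < N) :
    ∑ x : ZMod p, teich x ^ N = if 4 * n ∣ N then ((4 * n : ℕ) : ZMod (p ^ 2)) else 0 := by
  have hsplit : ∑ x : ZMod p, teich x ^ N = ∑ x ∈ univ.erase (0 : ZMod p), teich x ^ N := by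
    rw [← Finset.add_sum_erase univ _ (mem_univ (0 : ZMod p)), teich_zero, zero_pow hN.ne', zero_add]
  split_ifs with hd
  · rw [hsplit]
    obtain ⟨k, rfl⟩ := hd
    have : ∀ x ∈ univ.erase (0 : ZMod p), teich x ^ (4 * n * k) = 1 := by
      intro x hx
      have hx0 := (mem_erase.1 hx).1
      rw [pow_mul (teich x), show 4 * n = p - 1 by omega, teich_pow_card hx0, one_pow]
    rw [sum_congr rfl this, sum_const, card_erase_of_mem (mem_univ _), card_univ, ZMod.card,
      nsmul_eq_mul, mul_one, show p - 1 = 4 * n by omega]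
  · -- choose an element whose N-th power is not one
    have hex : ∃ g : ZMod p, g ≠ 0 ∧ g ^ N ≠ 1 := by
      by_contra hcon
      push Not at hcon
      apply hd
      obtain ⟨g, hg⟩ := IsCyclic.exists_generator (α := (ZMod p)ˣ)
      have h1 : g ^ N = 1 := by
        ext
        push_cast
        exact hcon g (Units.ne_zero g)
      have h2 := orderOf_dvd_of_pow_eq_one h1
      rw [orderOf_eq_card_of_forall_mem_zpowers hg, Nat.card_eq_fintype_card, ZMod.card_units] at h2
      rwa [show p - 1 = 4 * n by omega] at h2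
    obtain ⟨g, hg0, hgN⟩ := hex
    have hmul : teich g ^ N * ∑ x : ZMod p, teich x ^ N = ∑ x : ZMod p, teich x ^ N := by
      rw [mul_sum]
      have : ∀ x : ZMod p, teich g ^ N * teich x ^ N = teich (g * x) ^ N := by
        intro x
        rw [teich_mul, mul_pow (teich g)]
      rw [sum_congr rfl (fun x _ => this x)]
      exact Equiv.sum_comp (Equiv.mulLeft₀ g hg0) (fun y => teich y ^ N)
    have hu : IsUnit (teich g ^ N - 1) := by
      rw [← teich_pow]
      obtain ⟨w, hw⟩ := teich_lift (g ^ N)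
      apply isUnit_of_lift (a := ((g ^ N).val : ℤ) - 1) (w := w)
      · rw [hw]; push_cast; ring
      · rw [Int.cast_sub, val_int, Int.cast_one]
        exact sub_ne_zero.2 hgN
    apply hu.mul_left_cancel
    rw [mul_zero]
    linear_combination hmul

lemma one_add_pow (q : ZMod (p ^ 2)) (B : ℕ) :
    (1 + (p : ZMod (p ^ 2)) * q) ^ B = 1 + (p : ZMod (p ^ 2)) * ((B : ZMod (p ^ 2)) * q) := by
  induction B with
  | zero => simp
  | succ B ih =>
    rw [pow_succ (1 + (p : ZMod (p ^ 2)) * q) B, ih]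
    push_cast
    linear_combination ((B : ZMod (p ^ 2)) * q ^ 2) * P_sq (p := p)

/-- expansion of a Teichmueller power -/
lemma pow_expand (y : ℤ) (B : ℕ) (hB : 2 ≤ B) :
    ((y : ZMod (p ^ 2)) ^ p) ^ B = (1 - (B : ZMod (p ^ 2))) * (y : ZMod (p ^ 2)) ^ B +
      (B : ZMod (p ^ 2)) * (y : ZMod (p ^ 2)) ^ (B + (p - 1)) := by
  have hp2 := hp.out.two_le
  by_cases hy : (y : ZMod p) = 0
  · obtain ⟨w, hw⟩ := lift_mod (p := p) (a := y) (b := 0) (by push_cast; exact hy)
    have hw' : (y : ZMod (p ^ 2)) = (p : ZMod (p ^ 2)) * w := by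
      rw [hw]; push_cast; ring
    have hsq : (y : ZMod (p ^ 2)) ^ 2 = 0 := by
      rw [hw']; linear_combination w ^ 2 * P_sq (p := p)
    have h2 : ∀ k : ℕ, 2 ≤ k → (y : ZMod (p ^ 2)) ^ k = 0 := by
      intro k hk
      obtain ⟨t, rfl⟩ : ∃ t, k = 2 + t := ⟨k - 2, by omega⟩
      rw [pow_add (y : ZMod (p ^ 2)), hsq, zero_mul]
    rw [h2 p hp2, h2 B hB, h2 (B + (p - 1)) (by omega), zero_pow (by omega)]
    ring
  · have h1 : (((y ^ (p - 1) : ℤ)) : ZMod p) = ((1 : ℤ) : ZMod p) := by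
      push_cast
      exact ZMod.pow_card_sub_one_eq_one hy
    obtain ⟨q, hq⟩ := lift_mod (p := p) h1
    rw [Int.cast_pow, Int.cast_one] at hq
    have hyp : (y : ZMod (p ^ 2)) ^ p = (y : ZMod (p ^ 2)) * (1 + (p : ZMod (p ^ 2)) * q) := by
      rw [← hq, ← pow_succ']
      congr 1
      omega
    rw [hyp, mul_pow, one_add_pow, pow_add, hq]
    ring

lemma teich_sub_expand (x : ZMod p) (B : ℕ) (hB : 2 ≤ B) :
    teich (1 - x) ^ B = (1 - (B : ZMod (p ^ 2))) * (1 - teich x) ^ B +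
      (B : ZMod (p ^ 2)) * (1 - teich x) ^ (B + (p - 1)) := by
  have h1 : (1 - x : ZMod p) = (((1 - (x.val : ℤ) ^ p : ℤ)) : ZMod p) := by
    rw [Int.cast_sub, Int.cast_pow, val_int, ZMod.pow_card, Int.cast_one]
  have h2 : (1 - teich x : ZMod (p ^ 2)) = (((1 - (x.val : ℤ) ^ p : ℤ)) : ZMod (p ^ 2)) := by
    unfold teich; push_cast; ring
  rw [h2, h1, teich_int, pow_expand _ B hB]

/-- binomial expansion of `∑ t^A (1-t)^B` -/
lemma sum_expand (A B : ℕ) (hA : 0 < A) :
    ∑ x : ZMod p, teich x ^ A * (1 - teich x) ^ B =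
      ∑ k ∈ range (B + 1), ((-1) ^ k * (B.choose k : ZMod (p ^ 2))) * ∑ x : ZMod p, teich x ^ (A + k) := by
  have h1 : ∀ x : ZMod p, teich x ^ A * (1 - teich x) ^ B =
      ∑ k ∈ range (B + 1), ((-1) ^ k * (B.choose k : ZMod (p ^ 2))) * teich x ^ (A + k) := by
    intro x
    rw [sub_eq_add_neg, add_comm (1 : ZMod (p ^ 2)), add_pow, mul_sum]
    apply sum_congr rfl
    intro k _
    rw [one_pow, neg_pow, pow_add]
    ring
  rw [sum_congr rfl (fun x _ => h1 x), sum_comm]
  apply sum_congr rfl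
  intro k _
  rw [← mul_sum]

/-- `∑ t(x)^{3n} t(1-x)^{2n}` in terms of binomial coefficients -/
lemma jac_binom (n : ℕ) (hn : 4 * n + 1 = p) (hn1 : 1 ≤ n) :
    ∑ x : ZMod p, teich x ^ (3 * n) * teich (1 - x) ^ (2 * n) =
      ((4 * n : ℕ) : ZMod (p ^ 2)) * (-1) ^ n * ((1 - ((2 * n : ℕ) : ZMod (p ^ 2))) * ((2 * n).choose n : ZMod (p ^ 2))
        + ((2 * n : ℕ) : ZMod (p ^ 2)) * (2 * ((6 * n).choose n : ZMod (p ^ 2)))) := by
  have h1 : ∀ x : ZMod p, teich x ^ (3 * n) * teich (1 - x) ^ (2 * n) =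
      (1 - ((2 * n : ℕ) : ZMod (p ^ 2))) * (teich x ^ (3 * n) * (1 - teich x) ^ (2 * n)) +
      ((2 * n : ℕ) : ZMod (p ^ 2)) * (teich x ^ (3 * n) * (1 - teich x) ^ (6 * n)) := by
    intro x
    rw [teich_sub_expand x (2 * n) (by omega), show 2 * n + (p - 1) = 6 * n by omega]
    ring
  rw [sum_congr rfl (fun x _ => h1 x), sum_add_distrib, ← mul_sum, ← mul_sum,
    sum_expand _ _ (by omega), sum_expand _ _ (by omega)]
  have hA : ∑ k ∈ range (2 * n + 1), ((-1) ^ k * ((2 * n).choose k : ZMod (p ^ 2))) *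
      ∑ x : ZMod p, teich x ^ (3 * n + k) =
      (-1) ^ n * ((2 * n).choose n : ZMod (p ^ 2)) * ((4 * n : ℕ) : ZMod (p ^ 2)) := by
    rw [sum_eq_single_of_mem n (mem_range.2 (by omega))]
    · rw [teich_sum n hn _ (by omega), if_pos ⟨1, by ring⟩]
    · intro k hk hkn
      have hk := mem_range.1 hk
      rw [teich_sum n hn _ (by omega), if_neg, mul_zero]
      rintro ⟨c, hc⟩
      have : c = 1 := by
        have h1 : c < 2 := by
          by_contra hcon
          have : 4 * n * 2 ≤ 4 * n * c := Nat.mul_le_mul_left _ (by omega)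
          omega
        have h2 : c ≠ 0 := by
          rintro rfl
          omega
        omega
      subst this
      omega
  have hB : ∑ k ∈ range (6 * n + 1), ((-1) ^ k * ((6 * n).choose k : ZMod (p ^ 2))) *
      ∑ x : ZMod p, teich x ^ (3 * n + k) =
      (-1) ^ n * ((6 * n).choose n : ZMod (p ^ 2)) * ((4 * n : ℕ) : ZMod (p ^ 2)) +
      (-1) ^ (5 * n) * ((6 * n).choose (5 * n) : ZMod (p ^ 2)) * ((4 * n : ℕ) : ZMod (p ^ 2)) := by
    have hne : n ≠ 5 * n := by omega
    rw [← sum_subset (s₁ := {n, 5 * n})]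
    · rw [sum_pair hne, teich_sum n hn _ (by omega), teich_sum n hn _ (by omega), if_pos ⟨1, by ring⟩,
        if_pos ⟨2, by ring⟩]
    · intro k hk
      simp only [mem_insert, mem_singleton] at hk
      rw [mem_range]; omega
    · intro k hk hkn
      have hk := mem_range.1 hk
      simp only [mem_insert, mem_singleton, not_or] at hkn
      rw [teich_sum n hn _ (by omega), if_neg, mul_zero]
      rintro ⟨c, hc⟩
      have : c = 1 ∨ c = 2 := by
        have h1 : c < 3 := by
          by_contra hcon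
          have : 4 * n * 3 ≤ 4 * n * c := Nat.mul_le_mul_left _ (by omega)
          omega
        have h2 : c ≠ 0 := by
          rintro rfl
          omega
        omega
      rcases this with rfl | rfl <;> omega
  rw [hA, hB]
  have hsym : (6 * n).choose (5 * n) = (6 * n).choose n := by
    rw [← Nat.choose_symm (show n ≤ 6 * n by omega)]
    congr 1
    omega
  have hpow : (-1 : ZMod (p ^ 2)) ^ (5 * n) = (-1) ^ n := by
    rw [show 5 * n = n + 2 * (2 * n) by ring, pow_add, pow_mul, neg_one_sq, one_pow, mul_one]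
  rw [hsym, hpow]
  ring

/-- `2 C(6n,n)` versus `C(2n,n)` -/
lemma choose_six (h5 : 5 ≤ p) (n : ℕ) (hn : 4 * n + 1 = p) (hn1 : 1 ≤ n) :
    2 * ((6 * n).choose n : ZMod (p ^ 2)) = ((2 * n).choose n : ZMod (p ^ 2)) *
      (1 + (p : ZMod (p ^ 2)) * (hN p (2 * n - 1) - hN p (n - 1))) := by
  have hu2 := u2 (p := p) h5
  have hun : IsUnit ((n : ℕ) : ZMod (p ^ 2)) := isUnit_nat (not_dvd_of_lt (by omega) (by omega))
  have hu2n : IsUnit ((2 * n : ℕ) : ZMod (p ^ 2)) := isUnit_nat (not_dvd_of_lt (by omega) (by omega))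
  have hfn := isUnit_fac (p := p) (s := n) (by omega)
  have hf2n := isUnit_fac (p := p) (s := 2 * n) (by omega)
  -- C(6n,n) n! = ∏ (6n - i)
  have e1 : ((6 * n).choose n : ZMod (p ^ 2)) * (n.factorial : ZMod (p ^ 2)) =
      (-1) ^ n * ∏ i ∈ range n, (-((2 * n - 1 : ℕ) : ZMod (p ^ 2)) + (i : ZMod (p ^ 2)) + (p : ZMod (p ^ 2)) * (-1)) := by
    have h1 : ((6 * n).choose n) * n.factorial = ∏ i ∈ range n, (6 * n - i) := by
      rw [mul_comm, ← Nat.descFactorial_eq_factorial_mul_choose, Nat.descFactorial_eq_prod_range]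
    have h2 := congrArg (fun z : ℕ => (z : ZMod (p ^ 2))) h1
    push_cast at h2
    rw [h2, ← card_range n, ← prod_const, card_range, ← prod_mul_distrib]
    apply prod_congr rfl
    intro i hi
    have hi := mem_range.1 hi
    have h3 : (6 * n - i : ℕ) + i = p + (2 * n - 1) := by omega
    have h4 := congrArg (fun z : ℕ => (z : ZMod (p ^ 2))) h3
    push_cast at h4 ⊢
    linear_combination h4
  have hp1 := poch (p := p) (2 * n - 1) n (by omega) (by omega) (-1)
  rw [show 2 * n - 1 - n = n - 1 by omega] at hp1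
  have hneg : IsUnit ((-1 : ZMod (p ^ 2)) ^ n) := (isUnit_one.neg).pow n
  have q1 := uL_quot e1 (hneg.mul hp1.1)
  have e2 : ((2 * n).choose n : ZMod (p ^ 2)) * ((n.factorial : ZMod (p ^ 2)) * (n.factorial : ZMod (p ^ 2))) =
      ((2 * n).factorial : ZMod (p ^ 2)) := by
    have h2 := Nat.choose_mul_factorial_mul_factorial (show n ≤ 2 * n by omega)
    rw [show 2 * n - n = n by omega] at h2
    rw [← h2]; push_cast; ring
  have q2 := uL_quot e2 hf2n
  have hu2' := hu2
  simp only [Nat.cast_ofNat] at hu2'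
  apply uL_inj (hu2'.mul q1.1) (q2.1.mul (isUnit_oneP _))
  rw [uL_mul hu2' q1.1, uL_mul q2.1 (isUnit_oneP _), q1.2, q2.2, uL_mul hneg hp1.1, hp1.2,
    uL_mul hfn hfn, uL_pow isUnit_one.neg]
  have f1 : fL p (2 * n) = fL p (2 * n - 1) + uL ((2 * n : ℕ) : ZMod (p ^ 2)) := by
    have := fL_succ (p := p) (s := 2 * n - 1) (by omega)
    rwa [show 2 * n - 1 + 1 = 2 * n by omega] at this
  have f2 : fL p n = fL p (n - 1) + uL ((n : ℕ) : ZMod (p ^ 2)) := by
    have := fL_succ (p := p) (s := n - 1) (by omega)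
    rwa [show n - 1 + 1 = n by omega] at this
  have f3 : uL ((2 * n : ℕ) : ZMod (p ^ 2)) = uL (2 : ZMod (p ^ 2)) + uL ((n : ℕ) : ZMod (p ^ 2)) := by
    rw [← uL_mul hu2' hun]; push_cast; rfl
  have g1 : uL ((n.factorial : ℕ) : ZMod (p ^ 2)) = fL p n := rfl
  have g2 : uL (((2 * n).factorial : ℕ) : ZMod (p ^ 2)) = fL p (2 * n) := rfl
  have g3 : uL (-1 : ZMod (p ^ 2)) = nL p := rfl
  have g4 : eL (-1 * (hN p (2 * n - 1) - hN p (n - 1))) = - eL (hN p (2 * n - 1) - hN p (n - 1)) := by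
    rw [← eL_neg]; congr 1; ring
  have g5 : uL (1 + (p : ZMod (p ^ 2)) * (hN p (2 * n - 1) - hN p (n - 1))) =
    eL (hN p (2 * n - 1) - hN p (n - 1)) := rfl
  rw [g1, g2, g3, g4, g5]
  have h2N := two_nL (p := p)
  linear_combination (norm := module) (-1 : ℤ) • f1 + f2 - f3 + (n : ℤ) • h2N

/-- The Jacobi sum evaluation. -/
theorem jac_TT (h5 : 5 ≤ p) (n : ℕ) (hn : 4 * n + 1 = p) (hn1 : 1 ≤ n) :
    ∑ x : ZMod p, teich x ^ (3 * n) * teich (1 - x) ^ (2 * n) = - (-1) ^ n * TT p n := by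
  rw [jac_binom n hn hn1, choose_six h5 n hn hn1]
  unfold TT
  have i1 := unit_mul_inv (isUnit_nat (p := p) (a := 2 * n) (not_dvd_of_lt (by omega) (by omega)))
  have i2 := unit_mul_inv (isUnit_nat (p := p) (a := n) (not_dvd_of_lt (by omega) (by omega)))
  have i12 := inv12 (p := p) h5
  have s1 : hN p (2 * n) = hN p (2 * n - 1) + ((2 * n : ℕ) : ZMod (p ^ 2))⁻¹ := by
    have := hN_succ (p := p) (2 * n - 1)
    rwa [show 2 * n - 1 + 1 = 2 * n by omega] at this
  have s2 : hN p n = hN p (n - 1) + ((n : ℕ) : ZMod (p ^ 2))⁻¹ := by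
    have := hN_succ (p := p) (n - 1)
    rwa [show n - 1 + 1 = n by omega] at this
  have d := dup_h (p := p) (2 * n) n (by omega) (by omega)
  rw [show 2 * n - n = n by omega] at d
  have hpe : (p : ZMod (p ^ 2)) = 4 * (n : ZMod (p ^ 2)) + 1 := by
    have := congrArg (fun z : ℕ => (z : ZMod (p ^ 2))) hn
    push_cast at this
    exact this.symm
  have P2 := P_sq (p := p)
  set P := (p : ZMod (p ^ 2)) with hP
  set C := ((2 * n).choose n : ZMod (p ^ 2))
  set H2 := hN p (2 * n)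
  set H1 := hN p n
  set G2 := hN p (2 * n - 1)
  set G1 := hN p (n - 1)
  push_cast at i1 i2 i12 s1 s2 ⊢
  set N := (n : ZMod (p ^ 2))
  set I2 := (2 * N)⁻¹
  set I1 := N⁻¹
  set J := (12 : ZMod (p ^ 2))⁻¹
  -- P * N = - P / 4, in the form 4 P N = -P
  have hPN : 4 * (P * N) = - P := by
    linear_combination P * hpe * (-1) + P2
  -- 2 N P (G2 - G1) = 2 N P (H2 - H1) + P
  have hG : 2 * N * P * (G2 - G1) = 2 * N * P * (H2 - H1) + P := by
    rw [s1, s2]
    linear_combination (-P) * i1 + (2 * P) * i2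
  -- 2 P (H2 - H1) = - P H2
  have hH : 2 * (P * (H2 - H1)) = - (P * H2) := by
    linear_combination d
  have hkey : 2 * N * P * (G2 - G1) = - N * P * H2 + P := by
    rw [hG]; linear_combination N * hH
  have hkey2 : 12 * (2 * N * P * (G2 - G1)) = 3 * P * H2 + 12 * P := by
    rw [hkey]; linear_combination (-3 * H2) * hPN
  have hkey3 : 2 * N * P * (G2 - G1) = P * (J * (3 * H2)) + P := by
    linear_combination J * hkey2 - (2 * N * P * (G2 - G1) - P) * i12
  have h4N : 4 * N = P - 1 := by linear_combination -hpe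
  rw [h4N]
  linear_combination ((P - 1) * (-1) ^ n * C) * hkey3 + (-1) ^ n * C * (J * 3 * H2 + 1) * P2

end Pool.Agent.Lib.MP_8312d7
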